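import Mathlib

namespace Pool.Agent.MP_b64966_al

/-- `s 0, …, s (m-1)` satisfy the braid relations. -/
structure IsBraid {G : Type*} [Monoid G] (m : ℕ) (s : ℕ → G) : Prop where
  braid : ∀ i, i + 1 < m → s i * s (i + 1) * s i = s (i + 1) * s i * s (i + 1)
  comm : ∀ i j, i + 2 ≤ j → j < m → s i * s j = s j * s i

section Monoid
variable {G : Type*} [Monoid G]

theorem delta_aux (a b c d : G)
    (hab' : a * b * a = b * a * b) (hbc' : b * c * b = c * b * c) (hcd' : c * d * c = d * c * d)
    (hac' : a * c = c * a) (had' : a * d = d * a) (hbd' : b * d = d * b) :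
    (a * b * c * d * a * b * c * a * b * a) * a = d * (a * b * c * d * a * b * c * a * b * a) ∧
    (a * b * c * d * a * b * c * a * b * a) * b = c * (a * b * c * d * a * b * c * a * b * a) ∧
    (a * b * c * d * a * b * c * a * b * a) * c = b * (a * b * c * d * a * b * c * a * b * a) ∧
    (a * b * c * d * a * b * c * a * b * a) * d = a * (a * b * c * d * a * b * c * a * b * a) := by
  have hab : ∀ y, a * (b * (a * y)) = b * (a * (b * y)) := fun y => by
    simp only [← mul_assoc, hab']
  have hbc : ∀ y, b * (c * (b * y)) = c * (b * (c * y)) := fun y => by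
    simp only [← mul_assoc, hbc']
  have hcd : ∀ y, c * (d * (c * y)) = d * (c * (d * y)) := fun y => by
    simp only [← mul_assoc, hcd']
  have hac : ∀ y, a * (c * y) = c * (a * y) := fun y => by
    simp only [← mul_assoc, hac']
  have had : ∀ y, a * (d * y) = d * (a * y) := fun y => by
    simp only [← mul_assoc, had']
  have hbd : ∀ y, b * (d * y) = d * (b * y) := fun y => by
    simp only [← mul_assoc, hbd']
  have e1 : a * (b * (c * (d * (a * (b * (c * (a * (b * (a * (a * (1))))))))))) = d * (a * (b * (c * (d * (a * (b * (c * (a * (b * (a * (1))))))))))) :=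
    calc a * (b * (c * (d * (a * (b * (c * (a * (b * (a * (a * (1)))))))))))
      _ = a * (b * (c * (d * (a * (b * (c * (b * (a * (b * (a * (1))))))))))) := congrArg (fun y => a * (b * (c * (d * (a * (b * (c * (y)))))))) (hab (a * (1)))
      _ = a * (b * (c * (d * (a * (c * (b * (c * (a * (b * (a * (1))))))))))) := congrArg (fun y => a * (b * (c * (d * (a * (y)))))) (hbc (a * (b * (a * (1)))))
      _ = a * (b * (c * (d * (c * (a * (b * (c * (a * (b * (a * (1))))))))))) := congrArg (fun y => a * (b * (c * (d * (y))))) (hac (b * (c * (a * (b * (a * (1)))))))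
      _ = a * (b * (d * (c * (d * (a * (b * (c * (a * (b * (a * (1))))))))))) := congrArg (fun y => a * (b * (y))) (hcd (a * (b * (c * (a * (b * (a * (1))))))))
      _ = a * (d * (b * (c * (d * (a * (b * (c * (a * (b * (a * (1))))))))))) := congrArg (fun y => a * (y)) (hbd (c * (d * (a * (b * (c * (a * (b * (a * (1))))))))))
      _ = d * (a * (b * (c * (d * (a * (b * (c * (a * (b * (a * (1))))))))))) := (had (b * (c * (d * (a * (b * (c * (a * (b * (a * (1)))))))))))
  have e2 : a * (b * (c * (d * (a * (b * (c * (a * (b * (a * (b * (1))))))))))) = c * (a * (b * (c * (d * (a * (b * (c * (a * (b * (a * (1))))))))))) :=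
    calc a * (b * (c * (d * (a * (b * (c * (a * (b * (a * (b * (1)))))))))))
      _ = a * (b * (c * (d * (a * (b * (a * (c * (b * (a * (b * (1))))))))))) := congrArg (fun y => a * (b * (c * (d * (a * (b * (y))))))) (hac (b * (a * (b * (1))))).symm
      _ = a * (b * (c * (d * (b * (a * (b * (c * (b * (a * (b * (1))))))))))) := congrArg (fun y => a * (b * (c * (d * (y))))) (hab (c * (b * (a * (b * (1))))))
      _ = a * (b * (c * (b * (d * (a * (b * (c * (b * (a * (b * (1))))))))))) := congrArg (fun y => a * (b * (c * (y)))) (hbd (a * (b * (c * (b * (a * (b * (1)))))))).symm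
      _ = a * (c * (b * (c * (d * (a * (b * (c * (b * (a * (b * (1))))))))))) := congrArg (fun y => a * (y)) (hbc (d * (a * (b * (c * (b * (a * (b * (1)))))))))
      _ = c * (a * (b * (c * (d * (a * (b * (c * (b * (a * (b * (1))))))))))) := (hac (b * (c * (d * (a * (b * (c * (b * (a * (b * (1)))))))))))
      _ = c * (a * (b * (c * (d * (a * (b * (c * (a * (b * (a * (1))))))))))) := congrArg (fun y => c * (a * (b * (c * (d * (a * (b * (c * (y))))))))) (hab (1)).symm
  have e3 : a * (b * (c * (d * (a * (b * (c * (a * (b * (a * (c * (1))))))))))) = b * (a * (b * (c * (d * (a * (b * (c * (a * (b * (a * (1))))))))))) :=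
    calc a * (b * (c * (d * (a * (b * (c * (a * (b * (a * (c * (1)))))))))))
      _ = a * (b * (c * (a * (d * (b * (c * (a * (b * (a * (c * (1))))))))))) := congrArg (fun y => a * (b * (c * (y)))) (had (b * (c * (a * (b * (a * (c * (1)))))))).symm
      _ = a * (b * (a * (c * (d * (b * (c * (a * (b * (a * (c * (1))))))))))) := congrArg (fun y => a * (b * (y))) (hac (d * (b * (c * (a * (b * (a * (c * (1))))))))).symm
      _ = b * (a * (b * (c * (d * (b * (c * (a * (b * (a * (c * (1))))))))))) := (hab (c * (d * (b * (c * (a * (b * (a * (c * (1))))))))))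
      _ = b * (a * (b * (c * (d * (b * (a * (c * (b * (a * (c * (1))))))))))) := congrArg (fun y => b * (a * (b * (c * (d * (b * (y))))))) (hac (b * (a * (c * (1))))).symm
      _ = b * (a * (b * (c * (d * (b * (a * (c * (b * (c * (a * (1))))))))))) := congrArg (fun y => b * (a * (b * (c * (d * (b * (a * (c * (b * (y)))))))))) (hac (1))
      _ = b * (a * (b * (c * (d * (b * (a * (b * (c * (b * (a * (1))))))))))) := congrArg (fun y => b * (a * (b * (c * (d * (b * (a * (y)))))))) (hbc (a * (1))).symm
      _ = b * (a * (b * (c * (d * (a * (b * (a * (c * (b * (a * (1))))))))))) := congrArg (fun y => b * (a * (b * (c * (d * (y)))))) (hab (c * (b * (a * (1))))).symm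
      _ = b * (a * (b * (c * (d * (a * (b * (c * (a * (b * (a * (1))))))))))) := congrArg (fun y => b * (a * (b * (c * (d * (a * (b * (y)))))))) (hac (b * (a * (1))))
  have e4 : a * (b * (c * (d * (a * (b * (c * (a * (b * (a * (d * (1))))))))))) = a * (a * (b * (c * (d * (a * (b * (c * (a * (b * (a * (1))))))))))) :=
    calc a * (b * (c * (d * (a * (b * (c * (a * (b * (a * (d * (1)))))))))))
      _ = a * (b * (c * (a * (d * (b * (c * (a * (b * (a * (d * (1))))))))))) := congrArg (fun y => a * (b * (c * (y)))) (had (b * (c * (a * (b * (a * (d * (1)))))))).symm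
      _ = a * (b * (a * (c * (d * (b * (c * (a * (b * (a * (d * (1))))))))))) := congrArg (fun y => a * (b * (y))) (hac (d * (b * (c * (a * (b * (a * (d * (1))))))))).symm
      _ = a * (b * (a * (c * (b * (d * (c * (a * (b * (a * (d * (1))))))))))) := congrArg (fun y => a * (b * (a * (c * (y))))) (hbd (c * (a * (b * (a * (d * (1))))))).symm
      _ = a * (b * (a * (c * (b * (d * (c * (a * (b * (d * (a * (1))))))))))) := congrArg (fun y => a * (b * (a * (c * (b * (d * (c * (a * (b * (y)))))))))) (had (1))
      _ = a * (b * (a * (c * (b * (d * (c * (a * (d * (b * (a * (1))))))))))) := congrArg (fun y => a * (b * (a * (c * (b * (d * (c * (a * (y))))))))) (hbd (a * (1)))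
      _ = a * (b * (a * (c * (b * (d * (c * (d * (a * (b * (a * (1))))))))))) := congrArg (fun y => a * (b * (a * (c * (b * (d * (c * (y)))))))) (had (b * (a * (1))))
      _ = a * (b * (a * (c * (b * (c * (d * (c * (a * (b * (a * (1))))))))))) := congrArg (fun y => a * (b * (a * (c * (b * (y)))))) (hcd (a * (b * (a * (1))))).symm
      _ = a * (b * (a * (b * (c * (b * (d * (c * (a * (b * (a * (1))))))))))) := congrArg (fun y => a * (b * (a * (y)))) (hbc (d * (c * (a * (b * (a * (1))))))).symm
      _ = a * (a * (b * (a * (c * (b * (d * (c * (a * (b * (a * (1))))))))))) := congrArg (fun y => a * (y)) (hab (c * (b * (d * (c * (a * (b * (a * (1))))))))).symm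
      _ = a * (a * (b * (c * (a * (b * (d * (c * (a * (b * (a * (1))))))))))) := congrArg (fun y => a * (a * (b * (y)))) (hac (b * (d * (c * (a * (b * (a * (1))))))))
      _ = a * (a * (b * (c * (a * (d * (b * (c * (a * (b * (a * (1))))))))))) := congrArg (fun y => a * (a * (b * (c * (a * (y)))))) (hbd (c * (a * (b * (a * (1))))))
      _ = a * (a * (b * (c * (d * (a * (b * (c * (a * (b * (a * (1))))))))))) := congrArg (fun y => a * (a * (b * (c * (y))))) (had (b * (c * (a * (b * (a * (1)))))))
  simp only [mul_one] at e1 e2 e3 e4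
  simp only [mul_assoc]
  exact ⟨e1, e2, e3, e4⟩

variable {m : ℕ} {s : ℕ → G}

theorem IsBraid.commute (h : IsBraid m s) {i j : ℕ} (hi : i < m) (hj : j < m)
    (hij : i + 2 ≤ j ∨ j + 2 ≤ i) : Commute (s i) (s j) := by
  rcases hij with hij | hij
  · exact h.comm i j hij hj
  · exact (h.comm j i hij hi).symm

theorem IsBraid.map {H : Type*} [Monoid H] (h : IsBraid m s) (f : G →* H) :
    IsBraid m (fun i => f (s i)) where
  braid i hi := by simp only [← map_mul, h.braid i hi]
  comm i j hij hj := by simp only [← map_mul, h.comm i j hij hj]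

/-- The shift by three generators. -/
def sh3 (s : ℕ → G) (i : ℕ) : G := s i * s (i + 1) * s (i + 2)

theorem IsBraid.sh3_a (h : IsBraid m s) {i : ℕ} (hi : i + 2 < m) :
    sh3 s i * s i = s (i + 1) * sh3 s i := by
  unfold sh3
  have h1 := h.braid i (by omega)
  have h2 := h.comm i (i + 2) le_rfl hi
  calc s i * s (i + 1) * s (i + 2) * s i = s i * s (i + 1) * (s (i + 2) * s i) := by
        simp only [mul_assoc]
    _ = s i * s (i + 1) * s i * s (i + 2) := by rw [← h2]; simp only [mul_assoc]
    _ = s (i + 1) * (s i * s (i + 1) * s (i + 2)) := by rw [h1]; simp only [mul_assoc]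

theorem IsBraid.sh3_b (h : IsBraid m s) {i : ℕ} (hi : i + 2 < m) :
    sh3 s i * s (i + 1) = s (i + 2) * sh3 s i := by
  unfold sh3
  have h1 := h.braid (i + 1) (by omega)
  have h2 := h.comm i (i + 2) le_rfl hi
  calc s i * s (i + 1) * s (i + 2) * s (i + 1) = s i * (s (i + 1) * s (i + 1 + 1) * s (i + 1)) := by
        simp only [mul_assoc]
    _ = s i * s (i + 2) * (s (i + 1) * s (i + 2)) := by rw [h1]; simp only [mul_assoc]
    _ = s (i + 2) * (s i * s (i + 1) * s (i + 2)) := by rw [h2]; simp only [mul_assoc]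

theorem IsBraid.sh3_commute (h : IsBraid m s) {i a : ℕ} (hi : i + 2 < m) (ha : a < m)
    (hia : a + 2 ≤ i ∨ i + 4 ≤ a) : Commute (sh3 s i) (s a) := by
  unfold sh3
  refine (Commute.mul_left ?_ ?_).mul_left ?_ <;> exact h.commute (by omega) ha (by omega)

/-- The half twist on five strands. -/
def dl (s : ℕ → G) (i : ℕ) : G :=
  s i * s (i + 1) * s (i + 2) * s (i + 3) * s i * s (i + 1) * s (i + 2) * s i * s (i + 1) * s i

theorem IsBraid.dl_conj (h : IsBraid m s) {i : ℕ} (hi : i + 3 < m) :
    dl s i * s i = s (i + 3) * dl s i ∧ dl s i * s (i + 1) = s (i + 2) * dl s i ∧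
    dl s i * s (i + 2) = s (i + 1) * dl s i ∧ dl s i * s (i + 3) = s i * dl s i :=
  delta_aux _ _ _ _ (h.braid i (by omega)) (h.braid (i + 1) (by omega))
    (h.braid (i + 2) (by omega)) (h.comm i (i + 2) le_rfl (by omega))
    (h.comm i (i + 3) (by omega) hi) (h.comm (i + 1) (i + 3) le_rfl hi)

theorem IsBraid.dl_commute (h : IsBraid m s) {i a : ℕ} (hi : i + 3 < m) (ha : a < m)
    (hia : a + 2 ≤ i ∨ i + 5 ≤ a) : Commute (dl s i) (s a) := by
  unfold dl
  have h0 : Commute (s i) (s a) := h.commute (by omega) ha (by omega)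
  have h1 : Commute (s (i + 1)) (s a) := h.commute (by omega) ha (by omega)
  have h2 : Commute (s (i + 2)) (s a) := h.commute (by omega) ha (by omega)
  have h3 : Commute (s (i + 3)) (s a) := h.commute (by omega) ha (by omega)
  exact ((((((((h0.mul_left h1).mul_left h2).mul_left h3).mul_left h0).mul_left h1).mul_left
    h2).mul_left h0).mul_left h1).mul_left h0

end Monoid

section Ring
variable {R : Type*} [Ring R] {m : ℕ} {t : ℕ → Rˣ}

/-- Difference of two consecutive generators. -/
def D (t : ℕ → Rˣ) (i : ℕ) : R := (t i : R) - (t (i + 1) : R)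

theorem IsBraid.val (h : IsBraid m t) : IsBraid m (fun i => (t i : R)) :=
  h.map (Units.coeHom R)

theorem IsBraid.commute_tD (h : IsBraid m t) {a j : ℕ} (ha : a < m) (hj : j + 1 < m)
    (haj : a + 2 ≤ j ∨ j + 3 ≤ a) : Commute (t a : R) (D t j) :=
  (h.val.commute ha (by omega) (by omega)).sub_right (h.val.commute ha hj (by omega))

theorem IsBraid.commute_DD (h : IsBraid m t) {i j : ℕ} (hi : i + 1 < m) (hj : j + 1 < m)
    (hij : i + 3 ≤ j ∨ j + 3 ≤ i) : Commute (D t i) (D t j) :=
  (h.commute_tD (by omega) hj (by omega)).sub_left (h.commute_tD hi hj (by omega))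

theorem IsBraid.sh3_D (h : IsBraid m t) {i : ℕ} (hi : i + 2 < m) :
    ((sh3 t i : Rˣ) : R) * D t i = D t (i + 1) * ((sh3 t i : Rˣ) : R) := by
  have h1 := congrArg (Units.val) (h.sh3_a hi)
  have h2 := congrArg (Units.val) (h.sh3_b hi)
  simp only [Units.val_mul] at h1 h2
  simp only [D, mul_sub, sub_mul, h1, h2]

/-- The units whose right multiplication preserves a left ideal. -/
def stab (J : Ideal R) : Subgroup Rˣ where
  carrier := {g | ∀ y ∈ J, y * (g : R) ∈ J ∧ y * ((g⁻¹ : Rˣ) : R) ∈ J}
  one_mem' := fun y hy => by simpa using hy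
  mul_mem' := fun {a b} ha hb y hy => by
    constructor
    · rw [Units.val_mul, ← mul_assoc]; exact (hb _ (ha y hy).1).1
    · rw [mul_inv_rev, Units.val_mul, ← mul_assoc]; exact (ha _ (hb y hy).2).2
  inv_mem' := fun {a} ha y hy => ⟨(ha y hy).2, by rw [inv_inv]; exact (ha y hy).1⟩

theorem mem_of_conj {J : Ideal R} {u : Rˣ} (hu : u ∈ stab J) {x y : R}
    (hxy : (u : R) * x = y * u) : x ∈ J ↔ y ∈ J := by
  constructor
  · intro hx
    have : y = (u : R) * x * ((u⁻¹ : Rˣ) : R) := by rw [hxy, Units.mul_inv_cancel_right]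
    rw [this]
    exact (hu _ (J.mul_mem_left _ hx)).2
  · intro hy
    have : x = ((u⁻¹ : Rˣ) : R) * (y * u) := by rw [← hxy, Units.inv_mul_cancel_left]
    rw [this]
    exact J.mul_mem_left _ (hu _ hy).1

/-- The key five-strand lemma. -/
theorem IsBraid.five (h : IsBraid m t) {i : ℕ} (hi : i + 3 < m) (J : Ideal R)
    (h0 : t i ∈ stab J) (h1 : t (i + 1) ∈ stab J) (h2 : t (i + 2) ∈ stab J)
    (h3 : t (i + 3) ∈ stab J) (hD : D t (i + 2) * D t i ∈ J) : D t i ∈ J := by
  have hdl : dl t i ∈ stab J := by
    unfold dl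
    repeat' refine mul_mem ?_ ?_
    all_goals assumption
  obtain ⟨c0, c1, c2, c3⟩ := h.dl_conj hi
  have c0' := congrArg Units.val c0
  have c1' := congrArg Units.val c1
  have c2' := congrArg Units.val c2
  have c3' := congrArg Units.val c3
  simp only [Units.val_mul] at c0' c1' c2' c3'
  have e1 : ((dl t i : Rˣ) : R) * D t i = - D t (i + 2) * ((dl t i : Rˣ) : R) := by
    simp only [D, mul_sub, sub_mul, neg_sub, c0', c1']
  have e2 : ((dl t i : Rˣ) : R) * D t (i + 2) = - D t i * ((dl t i : Rˣ) : R) := by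
    simp only [D, mul_sub, sub_mul, neg_sub]
    rw [c2', c3']
  have hD' : D t i * D t (i + 2) ∈ J := by
    refine (mem_of_conj hdl ?_).1 hD
    rw [← mul_assoc, e2, mul_assoc, e1]
    simp only [neg_mul, mul_neg, neg_neg, mul_assoc]
  have hv := h.val
  have hac := hv.comm i (i + 2) le_rfl (by omega)
  have had := hv.comm i (i + 3) (by omega) hi
  have hbd := hv.comm (i + 1) (i + 3) le_rfl hi
  have hbc := hv.braid (i + 1) (by omega)
  have hcm : (t (i + 1) : R) * t (i + 2) - (t (i + 2) : R) * t (i + 1) ∈ J := by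
    have := J.sub_mem hD hD'
    have e : D t (i + 2) * D t i - D t i * D t (i + 2)
        = (t (i + 1) : R) * t (i + 2) - (t (i + 2) : R) * t (i + 1) := by
      simp only [D, mul_sub, sub_mul]
      rw [hac, had, hbd]
      abel
    rwa [e] at this
  have hD1 : D t (i + 1) ∈ J := by
    have e : D t (i + 1) * (t (i + 1) : R) * (t (i + 2) : R)
        = (t (i + 1) : R) * ((t (i + 1) : R) * t (i + 2) - (t (i + 2) : R) * t (i + 1)) := by
      simp only [D, mul_sub, sub_mul]
      rw [← hbc]
      simp only [mul_assoc]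
    have h5 : D t (i + 1) * (t (i + 1) : R) * (t (i + 2) : R) ∈ J := by
      rw [e]; exact J.mul_mem_left _ hcm
    have h6 := (h1 _ (h2 _ h5).2).2
    simpa only [Units.mul_inv_cancel_right] using h6
  have hs : sh3 t i ∈ stab J := mul_mem (mul_mem h0 h1) h2
  exact (mem_of_conj hs (h.sh3_D (by omega))).2 hD1

end Ring

end Pool.Agent.MP_b64966_al
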