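import Pool.Agent.MP_b64966_al.DegOne

namespace Pool.Agent.MP_b64966_al

open Module

section Ring
variable {R : Type*} [Ring R] {m : ℕ} {t : ℕ → Rˣ}

/-- The generator minus one. -/
def N (t : ℕ → Rˣ) (i : ℕ) : R := (t i : R) - 1

/-- The element distinguishing the two families of degree one. -/
def Z (t : ℕ → Rˣ) (i : ℕ) : R := N t i + N t i * N t i + N t i * N t (i + 1) * N t i

theorem val_eq_N (i : ℕ) : (t i : R) = 1 + N t i := by simp [N]

theorem IsBraid.Z_eq (h : IsBraid m t) {i : ℕ} (hi : i + 1 < m) :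
    Z t i = N t (i + 1) + N t (i + 1) * N t (i + 1) + N t (i + 1) * N t i * N t (i + 1) := by
  have h1 := h.val.braid i hi
  simp only [val_eq_N] at h1
  unfold Z
  generalize N t i = a at *
  generalize N t (i + 1) = b at *
  linear_combination (norm := noncomm_ring) h1

theorem IsBraid.Z_zero (h : IsBraid m t) (h0 : Z t 0 = 0) {i : ℕ} (hi : i + 1 < m) :
    Z t i = 0 := by
  induction i with
  | zero => exact h0
  | succ i ih =>
    refine (zero_iff_of_conj (u := sh3 t i) ?_).1 (ih (by omega))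
    have h1 := congrArg (Units.val) (h.sh3_a (i := i) hi)
    have h2 := congrArg (Units.val) (h.sh3_b (i := i) hi)
    simp only [Units.val_mul] at h1 h2
    have e1 : ((sh3 t i : Rˣ) : R) * N t i = N t (i + 1) * ((sh3 t i : Rˣ) : R) := by
      simp only [N, mul_sub, sub_mul, h1, mul_one, one_mul]
    have e2 : ((sh3 t i : Rˣ) : R) * N t (i + 1) = N t (i + 1 + 1) * ((sh3 t i : Rˣ) : R) := by
      simp only [N, mul_sub, sub_mul, h2, mul_one, one_mul]
    have e1' : ∀ y, ((sh3 t i : Rˣ) : R) * (N t i * y)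
        = N t (i + 1) * (((sh3 t i : Rˣ) : R) * y) := fun y => by
      rw [← mul_assoc, e1, mul_assoc]
    have e2' : ∀ y, ((sh3 t i : Rˣ) : R) * (N t (i + 1) * y)
        = N t (i + 1 + 1) * (((sh3 t i : Rˣ) : R) * y) := fun y => by
      rw [← mul_assoc, e2, mul_assoc]
    simp only [Z, mul_add, add_mul, mul_assoc, e1', e2', e1]

theorem IsBraid.NN_far (h : IsBraid m t) (hNN : ∀ a b, a + 2 ≤ b → b < m → N t a * N t b = 0)
    {a b : ℕ} (ha : a < m) (hb : b < m) (hab : a + 2 ≤ b ∨ b + 2 ≤ a) : N t a * N t b = 0 := by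
  rcases hab with hab | hab
  · exact hNN a b hab hb
  · have hc : Commute (N t a) (N t b) :=
      ((h.val.commute ha hb (Or.inr hab)).sub_right (Commute.one_right _)).sub_left
        (Commute.one_left _)
    rw [hc.eq]
    exact hNN b a hab ha

end Ring

variable {K V : Type*} [Field K] [AddCommGroup V] [Module K V] [FiniteDimensional K V]
  {m : ℕ} {t : ℕ → (End K V)ˣ}

/-- The Burau spanning vectors. -/
def bv (t : ℕ → (End K V)ˣ) (v : V) : ℕ → V
  | 0 => v
  | i + 1 => N t (i + 1) (bv t v i)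

theorem IsBraid.burau [IsAlgClosed K] (h : IsBraid m t) (hm : 5 ≤ m) (hirr : Irr m t)
    (hNN : ∀ a b, a + 2 ≤ b → b < m → N t a * N t b = 0) (hZ : Z t 0 = 0) :
    Commute (cA t) (cB t) := by
  by_cases hN0 : N t 0 = 0
  · refine h.commute_of_D_zero hm ?_
    have h1 : t 0 = 1 := Units.ext (by simpa [N, sub_eq_zero] using hN0)
    have h2 := h.braid 0 (by omega)
    rw [h1] at h2
    have h3 : t 1 = 1 := by simpa using h2
    simp [D, h1, h3]
  obtain ⟨κ, v0, hv, hv0, hκ⟩ := exists_eigen (N t 0) (LinearMap.range (N t 0))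
    (by rwa [Ne, LinearMap.range_eq_bot]) (fun w _ => ⟨w, rfl⟩)
  obtain ⟨τ, rfl⟩ : ∃ τ, κ = -1 - τ := ⟨-1 - κ, by ring⟩
  have hτ : τ ≠ 0 := by
    rintro rfl
    apply hv0
    rw [← inv_apply_apply (t 0) v0, val_eq_N, LinearMap.add_apply, hκ]
    simp
  set v := bv t v0 with hvdef
  have hZ1 : ∀ i, i + 1 < m → N t i * N t (i + 1) * N t i = - N t i - N t i * N t i := by
    intro i hi
    have := h.Z_zero hZ hi
    unfold Z at this
    linear_combination (norm := noncomm_ring) this
  have hZ2 : ∀ i, i + 1 < m →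
      N t (i + 1) * N t (i + 1) * N t i = N t (i + 1) * N t i * N t i := by
    intro i hi
    have h1 := h.Z_zero hZ hi
    have h2 := h1
    rw [h.Z_eq hi] at h2
    unfold Z at h1
    generalize N t i = a at *
    generalize N t (i + 1) = b at *
    have h3 := congrArg (fun x => b * x) h1
    have h4 := congrArg (fun x => x * a) h2
    simp only [mul_zero, zero_mul] at h3 h4
    linear_combination (norm := noncomm_ring) h4 - h3
  have hv1 : ∀ i < m, (∃ x, N t i x = v i) ∧ N t i (v i) = (-1 - τ) • v i := by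
    intro i
    induction i with
    | zero => intro _; exact ⟨hv, hκ⟩
    | succ i ih =>
      intro hi
      obtain ⟨⟨x, hx⟩, h2⟩ := ih (by omega)
      refine ⟨⟨v i, rfl⟩, ?_⟩
      change N t (i + 1) (N t (i + 1) (v i)) = (-1 - τ) • N t (i + 1) (v i)
      have := LinearMap.congr_fun (hZ2 i hi) x
      simp only [Module.End.mul_apply, hx] at this
      rw [this, h2, map_smul]
  have hup : ∀ i, N t (i + 1) (v i) = v (i + 1) := fun i => rfl
  have hdown : ∀ i, i + 1 < m → N t i (v (i + 1)) = τ • v i := by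
    intro i hi
    obtain ⟨⟨x, hx⟩, h2⟩ := hv1 i (by omega)
    have := LinearMap.congr_fun (hZ1 i hi) x
    simp only [Module.End.mul_apply, hx, LinearMap.sub_apply, LinearMap.neg_apply] at this
    rw [← hup, this, h2]
    module
  have hfar : ∀ i < m, ∀ j < m, (j + 2 ≤ i ∨ i + 2 ≤ j) → N t j (v i) = 0 := by
    intro i hi j hj hij
    obtain ⟨⟨x, hx⟩, -⟩ := hv1 i hi
    rw [← hx, ← Module.End.mul_apply, h.NN_far hNN hj hi hij, LinearMap.zero_apply]
  have hall : ∀ i < m, ∀ j < m, ∃ c : K, N t j (v i) = c • v j := by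
    intro i hi j hj
    by_cases h1 : j + 2 ≤ i ∨ i + 2 ≤ j
    · exact ⟨0, by rw [hfar i hi j hj h1, zero_smul]⟩
    by_cases h2 : i = j
    · subst h2
      exact ⟨_, (hv1 i hi).2⟩
    by_cases h3 : i = j + 1
    · subst h3
      exact ⟨_, hdown j hi⟩
    · obtain rfl : j = i + 1 := by omega
      exact ⟨1, by rw [hup, one_smul]⟩
  let S : Set V := {y | ∃ i < m, y = v i}
  have hspan : Submodule.span K S = ⊤ := by
    refine (hirr _ ?_).resolve_left ?_
    · intro j hj
      have : Submodule.span K S ≤ (Submodule.span K S).comap (t j : End K V) := by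
        rw [Submodule.span_le]
        rintro _ ⟨i, hi, rfl⟩
        obtain ⟨c, hc⟩ := hall i hi j hj
        rw [SetLike.mem_coe, Submodule.mem_comap, val_eq_N, LinearMap.add_apply, hc]
        exact Submodule.add_mem _ (Submodule.subset_span ⟨i, hi, rfl⟩)
          (Submodule.smul_mem _ _ (Submodule.subset_span ⟨j, hj, rfl⟩))
      exact fun x hx => this hx
    · intro h0
      have : v 0 ∈ Submodule.span K S := Submodule.subset_span ⟨0, by omega, rfl⟩
      rw [h0] at this
      exact hv0 this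
  have hrange : ∀ j < m, ∀ x, ∃ c : K, N t j x = c • v j := by
    intro j hj x
    have : Submodule.span K S ≤ (Submodule.span K {v j}).comap (N t j) := by
      rw [Submodule.span_le]
      rintro _ ⟨i, hi, rfl⟩
      obtain ⟨c, hc⟩ := hall i hi j hj
      rw [SetLike.mem_coe, Submodule.mem_comap, hc]
      exact Submodule.smul_mem _ _ (Submodule.mem_span_singleton_self _)
    have hx := this (hspan ▸ Submodule.mem_top : x ∈ Submodule.span K S)
    obtain ⟨c, hc⟩ := Submodule.mem_span_singleton.1 hx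
    exact ⟨c, hc.symm⟩
  have hT : ∀ j x, (t j : End K V) x = x + N t j x := fun j x => by simp [N]
  have hTi : ∀ j < m, ∀ x, (((t j)⁻¹ : (End K V)ˣ) : End K V) x = x + τ⁻¹ • N t j x := by
    intro j hj x
    obtain ⟨c, hc⟩ := hrange j hj x
    have : (t j : End K V) (x + τ⁻¹ • N t j x) = x := by
      rw [hT, map_add, map_smul, hc, map_smul, (hv1 j hj).2]
      have e : τ⁻¹ * τ = 1 := inv_mul_cancel₀ hτ
      linear_combination (norm := module) (-e * c) • v j
    rw [← this, inv_apply_apply, this]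
  let lc : K → K → K → K → K → V := fun a b c d e =>
    a • v 0 + b • v 1 + c • v 2 + d • v 3 + e • v 4
  have n00 := (hv1 0 (by omega)).2
  have n11 := (hv1 1 (by omega)).2
  have n22 := (hv1 2 (by omega)).2
  have n33 := (hv1 3 (by omega)).2
  have n44 := (hv1 4 (by omega)).2
  have n01 : N t 0 (v 1) = τ • v 0 := hdown 0 (by omega)
  have n12 : N t 1 (v 2) = τ • v 1 := hdown 1 (by omega)
  have n23 : N t 2 (v 3) = τ • v 2 := hdown 2 (by omega)
  have n34 : N t 3 (v 4) = τ • v 3 := hdown 3 (by omega)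
  have n10 : N t 1 (v 0) = v 1 := hup 0
  have n21 : N t 2 (v 1) = v 2 := hup 1
  have n32 : N t 3 (v 2) = v 3 := hup 2
  have n43 : N t 4 (v 3) = v 4 := hup 3
  have f : ∀ i j, i < 5 → j < 5 → (j + 2 ≤ i ∨ i + 2 ≤ j) → N t j (v i) = 0 :=
    fun i j hi hj => hfar i (by omega) j (by omega)
  have N0 : ∀ a b c d e, N t 0 (lc a b c d e) = ((-1 - τ) * a + τ * b) • v 0 := by
    intro a b c d e
    simp only [lc, map_add, map_smul, n00, n01, f 2 0, f 3 0, f 4 0, Nat.reduceLT, Nat.reduceAdd,
      Nat.reduceLeDiff, le_refl, true_or]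
    module
  have N1 : ∀ a b c d e, N t 1 (lc a b c d e) = (a + (-1 - τ) * b + τ * c) • v 1 := by
    intro a b c d e
    simp only [lc, map_add, map_smul, n10, n11, n12, f 3 1, f 4 1, Nat.reduceLT, Nat.reduceAdd,
      Nat.reduceLeDiff, le_refl, true_or]
    module
  have N2 : ∀ a b c d e, N t 2 (lc a b c d e) = (b + (-1 - τ) * c + τ * d) • v 2 := by
    intro a b c d e
    simp only [lc, map_add, map_smul, n21, n22, n23, f 0 2, f 4 2, Nat.reduceLT, Nat.reduceAdd,
      Nat.reduceLeDiff, le_refl, true_or, or_true, Nat.ofNat_pos]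
    module
  have N3 : ∀ a b c d e, N t 3 (lc a b c d e) = (c + (-1 - τ) * d + τ * e) • v 3 := by
    intro a b c d e
    simp only [lc, map_add, map_smul, n32, n33, n34, f 0 3, f 1 3, Nat.reduceLT, Nat.reduceAdd,
      Nat.reduceLeDiff, le_refl, or_true, Nat.ofNat_pos, Nat.one_lt_ofNat]
    module
  have N4 : ∀ a b c d e, N t 4 (lc a b c d e) = (d + (-1 - τ) * e) • v 4 := by
    intro a b c d e
    simp only [lc, map_add, map_smul, n43, n44, f 0 4, f 1 4, f 2 4, Nat.reduceLT, Nat.reduceAdd,
      Nat.reduceLeDiff, le_refl, or_true, Nat.ofNat_pos, Nat.one_lt_ofNat]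
    module
  have T0 : ∀ a b c d e, (t 0 : End K V) (lc a b c d e) = lc (τ * (b - a)) b c d e := by
    intro a b c d e
    rw [hT, N0]
    simp only [lc]
    module
  have T1 : ∀ a b c d e, (t 1 : End K V) (lc a b c d e) = lc a (a + τ * (c - b)) c d e := by
    intro a b c d e
    rw [hT, N1]
    simp only [lc]
    module
  have T3 : ∀ a b c d e, (t 3 : End K V) (lc a b c d e) = lc a b c (c + τ * (e - d)) e := by
    intro a b c d e
    rw [hT, N3]
    simp only [lc]
    module
  have T4 : ∀ a b c d e, (t 4 : End K V) (lc a b c d e) = lc a b c d (d - τ * e) := by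
    intro a b c d e
    rw [hT, N4]
    simp only [lc]
    module
  have e : τ⁻¹ * τ = 1 := inv_mul_cancel₀ hτ
  have I0 : ∀ a b c d e, (((t 0)⁻¹ : (End K V)ˣ) : End K V) (lc a b c d e)
      = lc (b - τ⁻¹ * a) b c d e := by
    intro a b c d e'
    rw [hTi 0 (by omega), N0]
    simp only [lc]
    linear_combination (norm := module) (e * (b - a)) • v 0
  have I1 : ∀ a b c d e, (((t 1)⁻¹ : (End K V)ˣ) : End K V) (lc a b c d e)
      = lc a (c + τ⁻¹ * (a - b)) c d e := by
    intro a b c d e'
    rw [hTi 1 (by omega), N1]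
    simp only [lc]
    linear_combination (norm := module) (e * (c - b)) • v 1
  have I3 : ∀ a b c d e, (((t 3)⁻¹ : (End K V)ˣ) : End K V) (lc a b c d e)
      = lc a b c (e + τ⁻¹ * (c - d)) e := by
    intro a b c d e'
    rw [hTi 3 (by omega), N3]
    simp only [lc]
    linear_combination (norm := module) (e * (e' - d)) • v 3
  have I4 : ∀ a b c d e, (((t 4)⁻¹ : (End K V)ˣ) : End K V) (lc a b c d e)
      = lc a b c d (τ⁻¹ * (d - e)) := by
    intro a b c d e'
    rw [hTi 4 (by omega), N4]
    simp only [lc]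
    linear_combination (norm := module) (e * (- e')) • v 4
  have hv2 : v 2 = lc 0 0 1 0 0 := by simp [lc]
  have w1 : N t 2 (((wB t : (End K V)ˣ) : End K V) (v 2)) = 0 := by
    rw [hv2]
    simp only [wB, Units.val_mul, Module.End.mul_apply, T0, T3, I1, I4, N2]
    refine smul_eq_zero_of_left ?_ _
    field_simp
    ring
  have w2 : N t 2 ((((wB t)⁻¹ : (End K V)ˣ) : End K V) (v 2)) = 0 := by
    rw [hv2]
    simp only [wB, mul_inv_rev, inv_inv, Units.val_mul, Module.End.mul_apply, T1, T4, I0, I3, N2]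
    refine smul_eq_zero_of_left ?_ _
    field_simp
    ring
  have z1 : N t 2 * ((wB t : (End K V)ˣ) : End K V) * N t 2 = 0 := by
    ext x
    obtain ⟨c, hc⟩ := hrange 2 (by omega) x
    simp only [Module.End.mul_apply, hc, map_smul, w1, smul_zero, LinearMap.zero_apply]
  have z2 : N t 2 * (((wB t)⁻¹ : (End K V)ˣ) : End K V) * N t 2 = 0 := by
    ext x
    obtain ⟨c, hc⟩ := hrange 2 (by omega) x
    simp only [Module.End.mul_apply, hc, map_smul, w2, smul_zero, LinearMap.zero_apply]
  have hc : Commute (t 2) (wB t * t 2 * (wB t)⁻¹) := by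
    rw [← Commute.units_val_iff, Units.val_mul, Units.val_mul, val_eq_N]
    set w : End K V := ((wB t : (End K V)ˣ) : End K V)
    set w' : End K V := (((wB t)⁻¹ : (End K V)ˣ) : End K V)
    have hw : w * w' = 1 := Units.mul_inv _
    refine (Commute.one_left _).add_left ?_
    rw [mul_add, add_mul, mul_one, hw]
    refine (Commute.one_right _).add_right ?_
    have e1 : N t 2 * (w * N t 2 * w') = 0 := by
      rw [← mul_assoc, ← mul_assoc, z1, zero_mul]
    have e2 : w * N t 2 * w' * N t 2 = 0 := by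
      rw [mul_assoc, mul_assoc, ← mul_assoc (N t 2), z2, mul_zero]
    exact e1.trans e2.symm
  have e3 : cB t = (wB t * t 2 * (wB t)⁻¹) * (wB t * t 2 * (wB t)⁻¹) := by
    simp [cB, mul_assoc]
  rw [e3]
  exact (hc.mul_left hc).mul_right (hc.mul_left hc)

end Pool.Agent.MP_b64966_al
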