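import Pool.Agent.MP_b64966_al.DegOne

namespace Pool.Agent.MP_b64966_al

open scoped commutatorElement

/-- Conjugation table of the ten transpositions of five letters. -/
def op (a b : Fin 10) : Fin 10 :=
  ![![0, 2, 1, 3, 5, 4, 6, 7, 9, 8], ![2, 1, 0, 4, 3, 5, 6, 8, 7, 9],
    ![1, 0, 2, 5, 4, 3, 6, 9, 8, 7], ![0, 4, 5, 3, 1, 2, 7, 6, 8, 9],
    ![5, 3, 2, 1, 4, 0, 8, 7, 6, 9], ![4, 1, 3, 2, 0, 5, 9, 7, 8, 6],
    ![0, 1, 2, 7, 8, 9, 6, 3, 4, 5], ![0, 8, 9, 6, 4, 5, 3, 7, 1, 2],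
    ![9, 7, 2, 3, 6, 5, 4, 1, 8, 0], ![8, 1, 7, 3, 4, 6, 5, 2, 0, 9]] a b

theorem op_op : ∀ a b, op a (op a b) = b := by decide +kernel

theorem op_dist : ∀ a b c, op (op a b) (op a c) = op a (op b c) := by decide +kernel

/-- The Hurwitz move at position `i`. -/
def hur (i : ℕ) : Equiv.Perm (ℕ → Fin 10) where
  toFun f := fun k => if k = i then op (f i) (f (i + 1)) else if k = i + 1 then f i else f k
  invFun f := fun k => if k = i then f (i + 1) else if k = i + 1 then op (f (i + 1)) (f i) else f k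
  left_inv f := by
    funext k
    by_cases h1 : k = i
    · simp [h1]
    by_cases h2 : k = i + 1
    · simp [h2, op_op]
    · simp [h1, h2]
  right_inv f := by
    funext k
    by_cases h1 : k = i
    · simp [h1, op_op]
    by_cases h2 : k = i + 1
    · simp [h2]
    · simp [h1, h2]

theorem hur_apply (i : ℕ) (f : ℕ → Fin 10) (k : ℕ) :
    hur i f k = if k = i then op (f i) (f (i + 1)) else if k = i + 1 then f i else f k := rfl

theorem hur_inv_apply (i : ℕ) (f : ℕ → Fin 10) (k : ℕ) :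
    (hur i)⁻¹ f k = if k = i then f (i + 1) else if k = i + 1 then op (f (i + 1)) (f i) else f k :=
  rfl

theorem hur_braid (m : ℕ) : IsBraid m hur where
  braid i _ := by
    ext f k
    simp only [Equiv.Perm.mul_apply, hur_apply]
    by_cases h1 : k = i
    · subst h1
      simp [op_dist, show k ≠ k + 1 + 1 by omega, show k + 1 + 1 ≠ k by omega]
    by_cases h2 : k = i + 1
    · subst h2
      simp [show i ≠ i + 1 + 1 by omega, show i + 1 + 1 ≠ i by omega]
    by_cases h3 : k = i + 1 + 1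
    · subst h3
      simp [show i + 1 + 1 ≠ i by omega, show i ≠ i + 1 + 1 by omega]
    · simp [h1, h2, h3]
  comm i j hij _ := by
    ext f k
    simp only [Equiv.Perm.mul_apply, hur_apply]
    have a1 : i ≠ j := by omega
    have a2 : i ≠ j + 1 := by omega
    have a3 : i + 1 ≠ j := by omega
    have a4 : j ≠ i := by omega
    have a5 : j ≠ i + 1 := by omega
    have a6 : j + 1 ≠ i := by omega
    by_cases h1 : k = i
    · subst h1
      simp [a1, a2, a3]
    by_cases h2 : k = i + 1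
    · subst h2
      simp [a1, a2, a3]
    by_cases h3 : k = j
    · subst h3
      simp [a4, a5, a6]
    by_cases h4 : k = j + 1
    · subst h4
      simp [a4, a5, a6]
    · simp [h1, h2, h3, h4]

/-- A sequence with six prescribed initial terms. -/
def mk6 (a b c d e f : Fin 10) : ℕ → Fin 10
  | 0 => a
  | 1 => b
  | 2 => c
  | 3 => d
  | 4 => e
  | 5 => f
  | _ + 6 => 0

theorem mk6_ext {g : ℕ → Fin 10} {a b c d e f : Fin 10} (h0 : g 0 = a) (h1 : g 1 = b)
    (h2 : g 2 = c) (h3 : g 3 = d) (h4 : g 4 = e) (h5 : g 5 = f) (h6 : ∀ k, g (k + 6) = 0) :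
    g = mk6 a b c d e f := by
  funext k
  match k with
  | 0 => exact h0
  | 1 => exact h1
  | 2 => exact h2
  | 3 => exact h3
  | 4 => exact h4
  | 5 => exact h5
  | k + 6 => exact h6 k

section Moves
variable (a b c d e f : Fin 10)

theorem h0 : hur 0 (mk6 a b c d e f) = mk6 (op a b) a c d e f :=
  mk6_ext rfl rfl rfl rfl rfl rfl fun k => by simp [hur_apply, mk6]
theorem h1 : hur 1 (mk6 a b c d e f) = mk6 a (op b c) b d e f :=
  mk6_ext rfl rfl rfl rfl rfl rfl fun k => by simp [hur_apply, mk6]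
theorem h2 : hur 2 (mk6 a b c d e f) = mk6 a b (op c d) c e f :=
  mk6_ext rfl rfl rfl rfl rfl rfl fun k => by simp [hur_apply, mk6]
theorem h3 : hur 3 (mk6 a b c d e f) = mk6 a b c (op d e) d f :=
  mk6_ext rfl rfl rfl rfl rfl rfl fun k => by simp [hur_apply, mk6]
theorem h4 : hur 4 (mk6 a b c d e f) = mk6 a b c d (op e f) e :=
  mk6_ext rfl rfl rfl rfl rfl rfl fun k => by simp [hur_apply, mk6]
theorem i0 : (hur 0)⁻¹ (mk6 a b c d e f) = mk6 b (op b a) c d e f :=
  mk6_ext rfl rfl rfl rfl rfl rfl fun k => by simp [hur_inv_apply, mk6]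
theorem i1 : (hur 1)⁻¹ (mk6 a b c d e f) = mk6 a c (op c b) d e f :=
  mk6_ext rfl rfl rfl rfl rfl rfl fun k => by simp [hur_inv_apply, mk6]
theorem i3 : (hur 3)⁻¹ (mk6 a b c d e f) = mk6 a b c e (op e d) f :=
  mk6_ext rfl rfl rfl rfl rfl rfl fun k => by simp [hur_inv_apply, mk6]
theorem i4 : (hur 4)⁻¹ (mk6 a b c d e f) = mk6 a b c d f (op f e) :=
  mk6_ext rfl rfl rfl rfl rfl rfl fun k => by simp [hur_inv_apply, mk6]

end Moves

theorem mk6_congr {a b c d e f a' b' c' d' e' f' : Fin 10}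
    (h : (a, b, c, d, e, f) = (a', b', c', d', e', f')) :
    mk6 a b c d e f = mk6 a' b' c' d' e' f' := by
  simp only [Prod.mk.injEq] at h
  obtain ⟨rfl, rfl, rfl, rfl, rfl, rfl⟩ := h
  rfl

/-- Five points forming an orbit. -/
def pt : Fin 5 → ℕ → Fin 10 :=
  ![mk6 4 3 9 1 5 0, mk6 1 1 9 1 2 3, mk6 3 4 9 5 0 0, mk6 3 4 5 6 0 0, mk6 3 4 6 9 0 0]

def al : Equiv.Perm (Fin 5) := ⟨![0, 1, 3, 4, 2], ![0, 1, 4, 2, 3], by decide, by decide⟩

def be : Equiv.Perm (Fin 5) := ⟨![1, 2, 0, 3, 4], ![2, 0, 1, 3, 4], by decide, by decide⟩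

theorem cA_mk6 (a b c d e f : Fin 10) : cA hur (mk6 a b c d e f)
    = mk6 a b (op (op c d) c) (op c d) e f := by
  simp only [cA, Equiv.Perm.mul_apply, h2]

theorem pt0 : pt 0 = mk6 4 3 9 1 5 0 := rfl
theorem pt1 : pt 1 = mk6 1 1 9 1 2 3 := rfl
theorem pt2 : pt 2 = mk6 3 4 9 5 0 0 := rfl
theorem pt3 : pt 3 = mk6 3 4 5 6 0 0 := rfl
theorem pt4 : pt 4 = mk6 3 4 6 9 0 0 := rfl

theorem fin5 : ∀ i : Fin 5, i = 0 ∨ i = 1 ∨ i = 2 ∨ i = 3 ∨ i = 4 := by decide

theorem cA_pt (i : Fin 5) : cA hur (pt i) = pt (al i) := by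
  rcases fin5 i with rfl | rfl | rfl | rfl | rfl
  · rw [show al 0 = 0 by decide, pt0, cA_mk6]
    exact mk6_congr (by decide +kernel)
  · rw [show al 1 = 1 by decide, pt1, cA_mk6]
    exact mk6_congr (by decide +kernel)
  · rw [show al 2 = 3 by decide, pt2, pt3, cA_mk6]
    exact mk6_congr (by decide +kernel)
  · rw [show al 3 = 4 by decide, pt3, pt4, cA_mk6]
    exact mk6_congr (by decide +kernel)
  · rw [show al 4 = 2 by decide, pt4, pt2, cA_mk6]
    exact mk6_congr (by decide +kernel)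

theorem cB_pt (i : Fin 5) : cB hur (pt i) = pt (be i) := by
  rcases fin5 i with rfl | rfl | rfl | rfl | rfl
  · rw [show be 0 = 1 by decide, pt0, pt1]
    simp only [cB, wB, mul_inv_rev, inv_inv, Equiv.Perm.mul_apply, h0, h1, h2, h3, h4, i0, i1, i3,
      i4]
    exact mk6_congr (by decide +kernel)
  · rw [show be 1 = 2 by decide, pt1, pt2]
    simp only [cB, wB, mul_inv_rev, inv_inv, Equiv.Perm.mul_apply, h0, h1, h2, h3, h4, i0, i1, i3,
      i4]
    exact mk6_congr (by decide +kernel)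
  · rw [show be 2 = 0 by decide, pt2, pt0]
    simp only [cB, wB, mul_inv_rev, inv_inv, Equiv.Perm.mul_apply, h0, h1, h2, h3, h4, i0, i1, i3,
      i4]
    exact mk6_congr (by decide +kernel)
  · rw [show be 3 = 3 by decide, pt3]
    simp only [cB, wB, mul_inv_rev, inv_inv, Equiv.Perm.mul_apply, h0, h1, h2, h3, h4, i0, i1, i3,
      i4]
    exact mk6_congr (by decide +kernel)
  · rw [show be 4 = 4 by decide, pt4]
    simp only [cB, wB, mul_inv_rev, inv_inv, Equiv.Perm.mul_apply, h0, h1, h2, h3, h4, i0, i1, i3,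
      i4]
    exact mk6_congr (by decide +kernel)

section Group
variable {G : Type*} [Group G]

/-- The derived series of the normal closure of the commutator of the two squares. -/
def NS (s : ℕ → G) : ℕ → Subgroup G
  | 0 => Subgroup.normalClosure {⁅cA s, cB s⁆}
  | k + 1 => ⁅NS s k, NS s k⁆

instance NS_normal (s : ℕ → G) : ∀ k, (NS s k).Normal
  | 0 => Subgroup.normalClosure_normal
  | k + 1 => by
    have := NS_normal s k
    exact Subgroup.commutator_normal _ _

theorem NS_anti (s : ℕ → G) {k l : ℕ} (h : k ≤ l) : NS s l ≤ NS s k := by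
  induction l, h using Nat.le_induction with
  | base => exact le_rfl
  | succ l _ ih => exact (Subgroup.commutator_le_left _ _).trans ih

theorem NS_ne_bot (s : ℕ → G) (φ : G →* Equiv.Perm (ℕ → Fin 10)) (hφ : ∀ i < 5, φ (s i) = hur i)
    (k : ℕ) : ∃ g ∈ NS s k, g ≠ 1 := by
  let Rel : G → Equiv.Perm (Fin 5) → Prop := fun g π => ∀ i, φ g (pt i) = pt (π i)
  have hmul : ∀ {g g' π π'}, Rel g π → Rel g' π' → Rel (g * g') (π * π') := by
    intro g g' π π' h h' i
    rw [map_mul, Equiv.Perm.mul_apply, h', h, Equiv.Perm.mul_apply]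
  have hinv : ∀ {g π}, Rel g π → Rel g⁻¹ π⁻¹ := by
    intro g π h i
    rw [map_inv, Equiv.Perm.inv_eq_iff_eq, h]
    simp
  have hcom : ∀ {g g' π π'}, Rel g π → Rel g' π' → Rel ⁅g, g'⁆ ⁅π, π'⁆ :=
    fun h h' => hmul (hmul (hmul h h') (hinv h)) (hinv h')
  have hA : Rel (cA s) al := by
    intro i
    rw [map_cA, ← cA_pt]
    simp only [cA, hφ 2 (by omega)]
  have hB : Rel (cB s) be := by
    intro i
    rw [map_cB, ← cB_pt]
    simp only [cB, wB, hφ 0 (by omega), hφ 1 (by omega), hφ 2 (by omega), hφ 3 (by omega),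
      hφ 4 (by omega)]
  have e1 : be * be * al * ⁅al, be⁆ * (be * be * al)⁻¹ = al := by decide +kernel
  have e2 : al * be * al * al * ⁅al, be⁆ * (al * be * al * al)⁻¹ = be := by decide +kernel
  have key : ∃ g ∈ NS s k, Rel g ⁅al, be⁆ := by
    induction k with
    | zero => exact ⟨_, Subgroup.subset_normalClosure rfl, hcom hA hB⟩
    | succ k ih =>
      obtain ⟨g, hg, hr⟩ := ih
      have r1 := hmul (hmul hB hB) hA
      have r2 := hmul (hmul (hmul hA hB) hA) hA
      have s1 := hmul (hmul r1 hr) (hinv r1)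
      have s2 := hmul (hmul r2 hr) (hinv r2)
      rw [e1] at s1
      rw [e2] at s2
      exact ⟨_, Subgroup.commutator_mem_commutator ((NS_normal s k).conj_mem g hg _)
        ((NS_normal s k).conj_mem g hg _), hcom s1 s2⟩
  obtain ⟨g, hg, hr⟩ := key
  refine ⟨g, hg, ?_⟩
  rintro rfl
  have h1 := congrFun (hr 0) 0
  have e3 : ⁅al, be⁆ 0 = 2 := by decide +kernel
  rw [e3, map_one] at h1
  exact absurd h1 (by decide +kernel)

end Group

end Pool.Agent.MP_b64966_al
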