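import Pool.Agent.MP_b64966_al.Braid

namespace Pool.Agent.MP_b64966_al

section Ring
variable {R : Type*} [Ring R] {m : ℕ} {t : ℕ → Rˣ}

/-- Product of the differences at the positions of a list. -/
def M (t : ℕ → Rˣ) (l : List ℕ) : R := (l.map (D t)).prod

/-- Separated positions. -/
def Far (a b : ℕ) : Prop := a + 3 ≤ b ∨ b + 3 ≤ a

theorem Far.symm {a b : ℕ} (h : Far a b) : Far b a := Or.symm h

/-- The standard product of `k` separated differences. -/
def P (t : ℕ → Rˣ) : ℕ → R
  | 0 => 1
  | k + 1 => P t k * D t (3 * k)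

theorem M_nil : M t [] = 1 := rfl

theorem M_cons (a : ℕ) (l : List ℕ) : M t (a :: l) = D t a * M t l := by
  simp [M]

theorem commute_M {x : R} {l : List ℕ} (h : ∀ a ∈ l, Commute x (D t a)) : Commute x (M t l) := by
  unfold M
  refine Commute.list_prod_right _ _ ?_
  intro y hy
  obtain ⟨a, ha, rfl⟩ := List.mem_map.1 hy
  exact h a ha

theorem IsBraid.M_perm (h : IsBraid m t) {l l' : List ℕ} (hp : l.Perm l') (hf : l.Pairwise Far)
    (hr : ∀ a ∈ l, a + 1 < m) : M t l = M t l' := by
  unfold M
  refine (hp.map _).prod_eq' ?_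
  rw [List.pairwise_map]
  refine List.Pairwise.imp_of_mem ?_ hf
  intro a b ha hb hab
  exact h.commute_DD (hr a ha) (hr b hb) hab

theorem commute_P {x : R} {k : ℕ} (h : ∀ j < k, Commute x (D t (3 * j))) : Commute x (P t k) := by
  induction k with
  | zero => exact Commute.one_right x
  | succ k ih =>
    exact (ih fun j hj => h j (by omega)).mul_right (h k (by omega))

theorem zero_iff_of_conj {u : Rˣ} {x y : R} (hxy : (u : R) * x = y * u) : x = 0 ↔ y = 0 := by
  have hu : u ∈ stab (⊥ : Ideal R) := by
    intro y hy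
    rw [Ideal.mem_bot] at hy
    simp [hy]
  simpa only [Ideal.mem_bot] using mem_of_conj hu hxy

theorem IsBraid.commute_sh3_D (h : IsBraid m t) {i a : ℕ} (hi : i + 2 < m) (ha : a + 1 < m)
    (hia : a + 3 ≤ i ∨ i + 4 ≤ a) : Commute ((sh3 t i : Rˣ) : R) (D t a) := by
  have h1 : Commute (sh3 t i) (t a) := h.sh3_commute hi (by omega) (by omega)
  have h2 : Commute (sh3 t i) (t (a + 1)) := h.sh3_commute hi ha (by omega)
  exact (h1.map (Units.coeHom R)).sub_right (h2.map (Units.coeHom R))

theorem IsBraid.shift_down (h : IsBraid m t) {B k : ℕ} (hB : B ≤ m) {x : R}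
    (hx : ∀ a < B, Commute (t a : R) x) (i : ℕ) (hki : 3 * k ≤ i) (hi : i + 2 ≤ B) :
    P t k * (D t i * x) = 0 ↔ P t k * (D t (3 * k) * x) = 0 := by
  induction i, hki using Nat.le_induction with
  | base => rfl
  | succ j hj ih =>
    rw [← ih (by omega)]
    symm
    refine zero_iff_of_conj (u := sh3 t j) ?_
    have h1 : Commute ((sh3 t j : Rˣ) : R) (P t k) :=
      commute_P fun a ha => h.commute_sh3_D (by omega) (by omega) (by omega)
    have h2 : Commute ((sh3 t j : Rˣ) : R) x := by
      unfold sh3
      simp only [Units.val_mul]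
      exact ((hx _ (by omega)).mul_left (hx _ (by omega))).mul_left (hx _ (by omega))
    rw [← mul_assoc, h1.eq, mul_assoc, ← mul_assoc _ (D t j), h.sh3_D (by omega), mul_assoc, h2.eq]
    simp only [mul_assoc]

theorem IsBraid.trans_aux (h : IsBraid m t) (k : ℕ) : ∀ (l : List ℕ) (B : ℕ) (x : R),
    l.length = k → B ≤ m → l.Pairwise Far → (∀ a ∈ l, a + 2 ≤ B) →
    (∀ a < B, Commute (t a : R) x) → 3 * k ≤ B + 1 ∧ (M t l * x = 0 ↔ P t k * x = 0) := by
  induction k with
  | zero =>
    intro l B x hl _ _ _ _
    rw [List.length_eq_zero_iff] at hl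
    subst hl
    exact ⟨by omega, Iff.rfl⟩
  | succ k ih =>
    intro l B x hl hB hf hr hx
    have hne : l.toFinset.Nonempty := by
      rw [List.toFinset_nonempty_iff]
      rintro rfl
      simp at hl
    obtain ⟨i, hi, hmax⟩ := Finset.exists_max_image l.toFinset id hne
    simp only [List.mem_toFinset, id] at hi hmax
    have hp : l.Perm (i :: l.erase i) := List.perm_cons_erase hi
    have hf' : (i :: l.erase i).Pairwise Far := (hp.pairwise_iff Far.symm).1 hf
    rw [List.pairwise_cons] at hf'
    have hlt : ∀ a ∈ l.erase i, a + 3 ≤ i := by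
      intro a ha
      have h1 := hmax a (List.mem_of_mem_erase ha)
      rcases hf'.1 a ha with h2 | h2 <;> omega
    have hiB := hr i hi
    have hlen : (l.erase i).length = k := by
      have := hp.length_eq
      simp only [List.length_cons] at this
      omega
    obtain ⟨h3, h4⟩ := ih (l.erase i) (i - 1) (D t i * x) hlen (by omega) hf'.2
      (fun a ha => by have := hlt a ha; omega)
      (fun a ha => (h.commute_tD (by omega) (by omega) (by omega)).mul_right (hx a (by omega)))
    have hki : 3 * k ≤ i := by omega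
    refine ⟨by omega, ?_⟩
    rw [h.M_perm hp hf (fun a ha => by have := hr a ha; omega), M_cons]
    have hc : Commute (D t i) (M t (l.erase i)) := commute_M fun a ha =>
      h.commute_DD (by omega) (by have := hlt a ha; omega) (Or.inr (hlt a ha))
    rw [hc.eq, mul_assoc, h4, h.shift_down hB hx i hki hiB, P, mul_assoc]

theorem IsBraid.M_eq_zero_iff (h : IsBraid m t) {l : List ℕ} (hf : l.Pairwise Far)
    (hr : ∀ a ∈ l, a + 1 < m) : M t l = 0 ↔ P t l.length = 0 := by
  have := (h.trans_aux l.length l m 1 rfl le_rfl hf (fun a ha => hr a ha)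
    (fun a _ => Commute.one_right _)).2
  simpa using this

theorem IsBraid.length_le (h : IsBraid m t) {l : List ℕ} (hf : l.Pairwise Far)
    (hr : ∀ a ∈ l, a + 1 < m) : 3 * l.length ≤ m + 1 :=
  (h.trans_aux l.length l m 1 rfl le_rfl hf (fun a ha => hr a ha)
    (fun _ _ => Commute.one_right _)).1

theorem P_ne_zero_of_le {k k' : ℕ} (hk : k' ≤ k) (h : P t k ≠ 0) : P t k' ≠ 0 := by
  induction k, hk using Nat.le_induction with
  | base => exact h
  | succ j _ ih =>
    refine ih fun h0 => h ?_
    rw [P, h0, zero_mul]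

/-- Positions of pairwise distance at least five. -/
def Far5 (a b : ℕ) : Prop := a + 5 ≤ b ∨ b + 5 ≤ a

/-- The test operators do not kill the product. -/
theorem IsBraid.test_ne_zero (h : IsBraid m t) : ∀ (l : List ℕ) (x : R), l.Pairwise Far5 →
    (∀ a ∈ l, a + 3 < m) →
    (∀ a ∈ l, ∀ b, a ≤ b → b ≤ a + 3 → Commute (t b : R) x) →
    M t (l.map (· + 2)) * M t l * x = 0 → M t l * x = 0 := by
  intro l
  induction l with
  | nil => intro x _ _ _ hx; simpa [M] using hx
  | cons i l ih =>
    intro x hf hr hx h0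
    rw [List.pairwise_cons] at hf
    have hi := hr i List.mem_cons_self
    have hr' : ∀ a ∈ l, a + 3 < m := fun a ha => hr a (List.mem_cons_of_mem _ ha)
    have hcM : ∀ b, i ≤ b → b ≤ i + 3 → Commute (t b : R) (M t l) := fun b h1 h2 =>
      commute_M fun a ha => h.commute_tD (by omega) (by have := hr' a ha; omega)
        (by rcases hf.1 a ha with h3 | h3 <;> omega)
    have hcM2 : ∀ b, i ≤ b → b ≤ i + 3 → Commute (t b : R) (M t (l.map (· + 2))) :=
      fun b h1 h2 => commute_M fun a ha => by
        obtain ⟨c, hc, rfl⟩ := List.mem_map.1 ha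
        exact h.commute_tD (by omega) (by have := hr' c hc; omega)
          (by rcases hf.1 c hc with h3 | h3 <;> omega)
    have hD : Commute (D t i) (M t l) :=
      (hcM i le_rfl (by omega)).sub_left (hcM (i + 1) (by omega) (by omega))
    have hD2 : Commute (D t i) (M t (l.map (· + 2))) :=
      (hcM2 i le_rfl (by omega)).sub_left (hcM2 (i + 1) (by omega) (by omega))
    set y : R := M t (l.map (· + 2)) * M t l * x with hy
    have hcy : ∀ b, i ≤ b → b ≤ i + 3 → Commute (t b : R) y := fun b h1 h2 =>
      ((hcM2 b h1 h2).mul_right (hcM b h1 h2)).mul_right (hx i List.mem_cons_self b h1 h2)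
    let J : Ideal R :=
      { carrier := {z | z * y = 0}
        add_mem' := fun {a b} ha hb => by
          simp only [Set.mem_ofPred_eq] at ha hb ⊢
          rw [add_mul, ha, hb, add_zero]
        zero_mem' := zero_mul y
        smul_mem' := fun c z hz => by
          simp only [Set.mem_ofPred_eq, smul_eq_mul] at hz ⊢
          rw [mul_assoc, hz, mul_zero] }
    have hJ : ∀ b, i ≤ b → b ≤ i + 3 → t b ∈ stab J := by
      intro b h1 h2 z hz
      have hz' : z * y = 0 := hz
      have hc := hcy b h1 h2
      have hc' : Commute (((t b)⁻¹ : Rˣ) : R) y := hc.units_inv_left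
      constructor
      · change z * (t b : R) * y = 0
        rw [mul_assoc, hc.eq, ← mul_assoc, hz', zero_mul]
      · change z * (((t b)⁻¹ : Rˣ) : R) * y = 0
        rw [mul_assoc, hc'.eq, ← mul_assoc, hz', zero_mul]
    have h5 : D t i ∈ J := by
      refine h.five hi J (hJ _ le_rfl (by omega)) (hJ _ (by omega) (by omega))
        (hJ _ (by omega) (by omega)) (hJ _ (by omega) (by omega)) ?_
      change D t (i + 2) * D t i * y = 0
      rw [← h0, List.map_cons, M_cons, M_cons, hy]
      simp only [mul_assoc]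
      rw [← mul_assoc (D t i), hD2.eq]
      simp only [mul_assoc]
    have h6 : D t i * y = 0 := h5
    have h7 := ih (D t i * x) hf.2 hr' (fun a ha b h1 h2 =>
      (h.commute_tD (by have := hr' a ha; omega) (by omega)
        (by rcases hf.1 a ha with h3 | h3 <;> omega)).mul_right
        (hx a (List.mem_cons_of_mem _ ha) b h1 h2)) (by
      rw [← h6, hy, ← mul_assoc (D t i), (hD2.mul_right hD).eq]
      simp only [mul_assoc])
    rw [M_cons, hD.eq, mul_assoc, h7]

end Ring

end Pool.Agent.MP_b64966_al
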