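import Pool.Agent.MP_b64966_al.Config

namespace Pool.Agent.MP_b64966_al

theorem linearIndependent_of_tests {K V ι : Type*} [Field K] [AddCommGroup V] [Module K V]
    [Fintype ι] (v : ι → V) (τ : ι → Module.End K V) (w : ι → ℕ)
    (h1 : ∀ i, τ i (v i) ≠ 0) (h2 : ∀ i j, τ i (v j) ≠ 0 → i = j ∨ w i < w j) :
    LinearIndependent K v := by
  classical
  rw [Fintype.linearIndependent_iff]
  intro g hg
  by_contra hne
  push Not at hne
  obtain ⟨i0, hi0⟩ := hne
  obtain ⟨i, hi, hmax⟩ := Finset.exists_max_image (Finset.univ.filter fun i => g i ≠ 0) w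
    ⟨i0, by simpa using hi0⟩
  simp only [Finset.mem_filter, Finset.mem_univ, true_and] at hi hmax
  have := congrArg (τ i) hg
  rw [map_sum, map_zero, Finset.sum_eq_single i] at this
  · rw [map_smul, smul_eq_zero] at this
    rcases this with h | h
    · exact hi h
    · exact h1 i h
  · intro j _ hji
    rw [map_smul]
    by_cases hj : g j = 0
    · rw [hj, zero_smul]
    by_cases h0 : τ i (v j) = 0
    · rw [h0, smul_zero]
    rcases h2 i j h0 with h | h
    · exact absurd h.symm hji
    · exact absurd (hmax j hj) (by omega)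
  · simp

section Ring
variable {R : Type*} [Ring R] {m : ℕ} {t : ℕ → Rˣ}

theorem pairwise_ofFn_far5 {k : ℕ} {f : Fin k → ℕ} (hf : ∀ a b, a < b → f a + 5 ≤ f b) :
    (List.ofFn f).Pairwise Far5 := by
  rw [List.pairwise_ofFn]
  intro a b hab
  exact Or.inl (hf a b hab)

theorem Far5.far {a b : ℕ} (h : Far5 a b) : Far a b := by
  rcases h with h | h
  · exact Or.inl (by omega)
  · exact Or.inr (by omega)

theorem IsBraid.near_of_test (h : IsBraid m t) {k : ℕ}
    (hk : ∀ l : List ℕ, l.Pairwise Far → (∀ a ∈ l, a + 1 < m) → l.length = k + 1 → M t l = 0)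
    {f g : Fin k → ℕ} (hf : ∀ a b, a < b → f a + 5 ≤ f b) (hg : ∀ a b, a < b → g a + 5 ≤ g b)
    (hfr : ∀ a, f a + 3 < m) (hgr : ∀ a, g a + 3 < m)
    (h0 : M t ((List.ofFn f).map (· + 2)) * M t (List.ofFn g) ≠ 0) (a : Fin k) :
    ∃ b, f a ≤ g b ∧ g b ≤ f a + 4 := by
  by_contra hne
  push Not at hne
  apply h0
  set l := (List.ofFn f).map (· + 2) with hl
  have hmem : f a + 2 ∈ l := List.mem_map.2 ⟨f a, by simp, rfl⟩
  have hlf : l.Pairwise Far := by
    rw [hl, List.pairwise_map]
    refine (pairwise_ofFn_far5 hf).imp ?_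
    intro x y hxy
    rcases hxy with h1 | h1
    · exact Or.inl (by omega)
    · exact Or.inr (by omega)
  have hlr : ∀ x ∈ l, x + 1 < m := by
    intro x hx
    obtain ⟨y, hy, rfl⟩ := List.mem_map.1 hx
    obtain ⟨c, rfl⟩ := (List.mem_ofFn' _ _).1 hy
    have := hfr c
    omega
  have hp : l.Perm (l.erase (f a + 2) ++ [f a + 2]) :=
    (List.perm_cons_erase hmem).trans (List.perm_append_singleton _ _).symm
  rw [h.M_perm hp hlf hlr]
  have e : M t (l.erase (f a + 2) ++ [f a + 2]) = M t (l.erase (f a + 2)) * D t (f a + 2) := by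
    simp [M]
  rw [e, mul_assoc, ← M_cons, hk (_ :: _), mul_zero]
  · rw [List.pairwise_cons]
    refine ⟨?_, (pairwise_ofFn_far5 hg).imp Far5.far⟩
    intro x hx
    obtain ⟨c, rfl⟩ := (List.mem_ofFn' _ _).1 hx
    have := hne c
    unfold Far
    omega
  · intro x hx
    rcases List.mem_cons.1 hx with rfl | hx
    · have := hfr a
      omega
    · obtain ⟨c, rfl⟩ := (List.mem_ofFn' _ _).1 hx
      have := hgr c
      omega
  · simp

end Ring

theorem eq_or_sum_lt {k : ℕ} {f g : Fin k → ℕ} (hf : ∀ a b, a < b → f a + 5 ≤ f b)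
    (hg : ∀ a b, a < b → g a + 5 ≤ g b) (h : ∀ a, ∃ b, f a ≤ g b ∧ g b ≤ f a + 4) :
    f = g ∨ ∑ a, f a < ∑ a, g a := by
  choose b hb using h
  have hmono : StrictMono b := by
    intro x y hxy
    by_contra hle
    push Not at hle
    have h1 := hf x y hxy
    have h2 := hb x
    have h3 := hb y
    rcases hle.lt_or_eq with h4 | h4
    · have := hg _ _ h4
      omega
    · rw [h4] at h3
      omega
  have hid : ∀ a, b a = a := fun a => by
    have h1 : a ≤ b a := hmono.le_apply
    have h2 : b a ≤ a := hmono.apply_le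
    exact le_antisymm h2 h1
  have hle : ∀ a, f a ≤ g a := fun a => by simpa [hid] using (hb a).1
  by_cases hfg : f = g
  · exact Or.inl hfg
  · right
    obtain ⟨a, ha⟩ := Function.ne_iff.1 hfg
    exact Finset.sum_lt_sum (fun i _ => hle i) ⟨a, Finset.mem_univ _, (hle a).lt_of_ne ha⟩

theorem IsBraid.choose_le {K V : Type*} [Field K] [AddCommGroup V] [Module K V]
    [FiniteDimensional K V] {m : ℕ} {t : ℕ → (Module.End K V)ˣ} (h : IsBraid m t) {k : ℕ}
    (hk0 : P t k ≠ 0)
    (hk : ∀ l : List ℕ, l.Pairwise Far → (∀ a ∈ l, a + 1 < m) → l.length = k + 1 → M t l = 0) :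
    (m + 1 - 4 * k).choose k ≤ Module.finrank K V := by
  classical
  let ι : Type := ↥(Finset.powersetCard k (Finset.range (m + 1 - 4 * k)))
  let _ : Fintype ι := FinsetCoe.fintype _
  have hc : ∀ S : ι, S.1.card = k := fun S => (Finset.mem_powersetCard.1 S.2).2
  let pos : ι → Fin k → ℕ := fun S j => S.1.orderEmbOfFin (hc S) j + 4 * j
  have hgap : ∀ S a b, a < b → pos S a + 5 ≤ pos S b := by
    intro S a b hab
    have h1 : S.1.orderEmbOfFin (hc S) a < S.1.orderEmbOfFin (hc S) b :=
      (S.1.orderEmbOfFin (hc S)).strictMono hab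
    have h2 : a.val < b.val := hab
    simp only [pos]
    omega
  have hrg : ∀ S a, pos S a + 3 < m := by
    intro S a
    have h1 : S.1.orderEmbOfFin (hc S) a ∈ Finset.range (m + 1 - 4 * k) :=
      (Finset.mem_powersetCard.1 S.2).1 (Finset.orderEmbOfFin_mem _ _ _)
    rw [Finset.mem_range] at h1
    have h2 := a.isLt
    simp only [pos]
    omega
  have hinj : ∀ S S', pos S = pos S' → S = S' := by
    intro S S' hSS
    have h1 : (S.1.orderEmbOfFin (hc S) : Fin k → ℕ) = S'.1.orderEmbOfFin (hc S') := by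
      funext j
      have := congrFun hSS j
      simp only [pos] at this
      omega
    have h2 := Finset.range_orderEmbOfFin S.1 (hc S)
    rw [h1, Finset.range_orderEmbOfFin] at h2
    exact Subtype.ext (Finset.coe_injective h2).symm
  have hmem : ∀ S, ∀ x ∈ List.ofFn (pos S), x + 3 < m := by
    intro S x hx
    obtain ⟨c, rfl⟩ := (List.mem_ofFn' _ _).1 hx
    exact hrg S c
  have hne : ∀ S, M t ((List.ofFn (pos S)).map (· + 2)) * M t (List.ofFn (pos S)) ≠ 0 := by
    intro S h0
    have h1 := h.test_ne_zero (List.ofFn (pos S)) 1 (pairwise_ofFn_far5 (hgap S)) (hmem S)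
      (fun _ _ _ _ _ => Commute.one_right _) (by rw [h0, zero_mul])
    rw [mul_one, h.M_eq_zero_iff ((pairwise_ofFn_far5 (hgap S)).imp Far5.far)
      (fun a ha => by have := hmem S a ha; omega), List.length_ofFn] at h1
    exact hk0 h1
  have hex : ∀ S, ∃ w : V,
      M t ((List.ofFn (pos S)).map (· + 2)) (M t (List.ofFn (pos S)) w) ≠ 0 := by
    intro S
    by_contra hall
    push Not at hall
    exact hne S (LinearMap.ext fun w => hall w)
  choose w hw using hex
  have hli := linearIndependent_of_tests (K := K) (fun S => M t (List.ofFn (pos S)) (w S))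
    (fun S => M t ((List.ofFn (pos S)).map (· + 2))) (fun S => ∑ a, pos S a) hw (by
      intro S S' h0
      have h1 : M t ((List.ofFn (pos S)).map (· + 2)) * M t (List.ofFn (pos S')) ≠ 0 := by
        intro h2
        apply h0
        rw [← Module.End.mul_apply, h2, LinearMap.zero_apply]
      rcases eq_or_sum_lt (hgap S) (hgap S')
        (h.near_of_test hk (hgap S) (hgap S') (hrg S) (hrg S') h1) with h3 | h3
      · exact Or.inl (hinj _ _ h3)
      · exact Or.inr h3)
  have := hli.fintype_card_le_finrank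
  rwa [Fintype.card_coe, Finset.card_powersetCard, Finset.card_range] at this

end Pool.Agent.MP_b64966_al
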