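import Pool.Agent.MP_b64966_al.Pow

namespace Pool.Agent.MP_b64966_al

open Module

section Words
variable {G : Type*} [Group G]

/-- The conjugating word of Bigelow's six-strand Burau kernel element. -/
def wB (s : ℕ → G) : G :=
  s 3 * (s 4)⁻¹ * (s 4)⁻¹ * (s 4)⁻¹ * s 3 * (s 1)⁻¹ * s 0 * s 0 * s 0 * (s 1)⁻¹

def cA (s : ℕ → G) : G := s 2 * s 2

def cB (s : ℕ → G) : G := wB s * (s 2 * s 2) * (wB s)⁻¹

theorem map_wB {H : Type*} [Group H] (f : G →* H) (s : ℕ → G) :
    f (wB s) = wB (fun i => f (s i)) := by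
  simp only [wB, map_mul, map_inv]

theorem map_cA {H : Type*} [Group H] (f : G →* H) (s : ℕ → G) :
    f (cA s) = cA (fun i => f (s i)) := by
  simp only [cA, map_mul]

theorem map_cB {H : Type*} [Group H] (f : G →* H) (s : ℕ → G) :
    f (cB s) = cB (fun i => f (s i)) := by
  simp only [cB, map_mul, map_inv, map_wB]

theorem commute_of_all_eq {s : ℕ → G} (h1 : s 0 = s 1) (h2 : s 1 = s 2) (h3 : s 2 = s 3)
    (h4 : s 3 = s 4) : Commute (cA s) (cB s) := by
  have : cB s = cA s := by
    simp [cB, cA, wB, ← h4, ← h3, ← h2, ← h1, mul_assoc]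
  rw [this]

end Words

section Ring
variable {R : Type*} [Ring R] {m : ℕ} {t : ℕ → Rˣ}

theorem IsBraid.commute_of_D_zero (h : IsBraid m t) (hm : 5 ≤ m) (h0 : D t 0 = 0) :
    Commute (cA t) (cB t) := by
  have key : ∀ i, i + 1 < m → t i = t (i + 1) := by
    intro i hi
    have := (h.M_eq_zero_iff (l := [i]) (by simp) (by simpa using hi)).2 (by simp [P, h0])
    simp only [M, List.map_cons, List.map_nil, List.prod_cons, List.prod_nil, mul_one, D,
      sub_eq_zero] at this
    exact Units.ext this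
  exact commute_of_all_eq (key 0 (by omega)) (key 1 (by omega)) (key 2 (by omega))
    (key 3 (by omega))

theorem IsBraid.DD_zero (h : IsBraid m t) (h2 : P t 2 = 0) {a b : ℕ} (ha : a + 1 < m)
    (hb : b + 1 < m) (hab : Far a b) : D t a * D t b = 0 := by
  have := (h.M_eq_zero_iff (l := [a, b]) (by simpa using hab) (by simp [ha, hb])).2 h2
  simpa [M] using this

theorem IsBraid.r1_right (h : IsBraid m t) (h2 : P t 2 = 0) {i j : ℕ} (hij : i + 3 ≤ j)
    (hj : j < m) : D t i * t j = D t i * t (i + 3) := by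
  induction j, hij using Nat.le_induction with
  | base => rfl
  | succ j hij ih =>
    rw [← ih (by omega), eq_comm, ← sub_eq_zero, ← mul_sub]
    exact h.DD_zero h2 (by omega) hj (Or.inl hij)

theorem IsBraid.r1_left (h : IsBraid m t) (h2 : P t 2 = 0) {i j : ℕ} (hij : j + 2 ≤ i)
    (hi : i + 1 < m) : D t i * t j = D t i * t 0 := by
  induction j with
  | zero => rfl
  | succ j ih =>
    rw [← ih (by omega), eq_comm, ← sub_eq_zero, ← mul_sub]
    exact h.DD_zero h2 hi (by omega) (Or.inr (by omega))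

theorem IsBraid.r1_cross (h : IsBraid m t) (h2 : P t 2 = 0) {i : ℕ} (hi : i + 5 < m) :
    D t (i + 2) * t i = D t (i + 2) * t (i + 5) := by
  obtain ⟨c0, -, c2, c3⟩ := h.dl_conj (i := i) (by omega)
  have c5 := (h.dl_commute (i := i) (a := i + 5) (by omega) hi (Or.inr le_rfl)).eq
  have c0' := congrArg Units.val c0
  have c2' := congrArg Units.val c2
  have c3' := congrArg Units.val c3
  have c5' := congrArg Units.val c5
  simp only [Units.val_mul] at c0' c2' c3' c5'
  have e2 : ((dl t i : Rˣ) : R) * D t (i + 2) = - D t i * ((dl t i : Rˣ) : R) := by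
    simp only [D, mul_sub, sub_mul, neg_sub]
    rw [c2', c3']
  have h3 := h.r1_right h2 (i := i) (j := i + 5) (by omega) hi
  rw [← sub_eq_zero, ← mul_sub]
  refine (zero_iff_of_conj (u := dl t i)
    (y := - D t i * ((t (i + 3) : R) - t (i + 5))) ?_).2 ?_
  · rw [← mul_assoc, e2, mul_assoc, mul_sub, c0', c5', ← sub_mul, mul_assoc]
  · rw [neg_mul, mul_sub, h3, sub_self, neg_zero]

/-- The generator `j` is far from the difference at `i`. -/
def FarT (i j : ℕ) : Prop := j + 2 ≤ i ∨ i + 3 ≤ j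

theorem IsBraid.r1 (h : IsBraid m t) (h2 : P t 2 = 0) {i j k : ℕ} (hi : i + 1 < m) (hj : j < m)
    (hk : k < m) (hij : FarT i j) (hik : FarT i k) : (t j : R) * D t i = t k * D t i := by
  rw [(h.commute_tD hj hi hij).eq, (h.commute_tD hk hi hik).eq]
  have cross : ∀ j k, j + 2 ≤ i → i + 3 ≤ k → k < m → D t i * t j = D t i * t k := by
    intro j k h1 h3 h4
    obtain ⟨i', rfl⟩ : ∃ i', i = i' + 2 := ⟨i - 2, by omega⟩
    rw [h.r1_left h2 h1 hi, ← h.r1_left h2 (j := i') le_rfl hi, h.r1_cross h2 (by omega),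
      h.r1_right h2 h3 h4]
  rcases hij with hij | hij <;> rcases hik with hik | hik
  · rw [h.r1_left h2 hij hi, h.r1_left h2 hik hi]
  · exact cross j k hij hik hk
  · exact (cross k j hik hij hj).symm
  · rw [h.r1_right h2 hij hj, h.r1_right h2 hik hk]

theorem IsBraid.NN_zero (h : IsBraid m t) (x : R) (hx : ∀ i, Commute (t i : R) x)
    (h0 : ((t 0 : R) - x) * ((t (m - 1) : R) - x) = 0) {a b : ℕ} (hab : a + 2 ≤ b) (hb : b < m) :
    ((t a : R) - x) * ((t b : R) - x) = 0 := by
  have hv := h.val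
  have sh : ∀ i, i + 1 < m → ((t i * t (i + 1) : Rˣ) : R) * ((t i : R) - x)
      = ((t (i + 1) : R) - x) * ((t i * t (i + 1) : Rˣ) : R) := by
    intro i hi
    rw [Units.val_mul, mul_sub, sub_mul, hv.braid i hi, ((hx i).mul_left (hx (i + 1))).eq,
      mul_assoc]
  have cm : ∀ i c, i + 1 < m → c < m → (c + 2 ≤ i ∨ i + 3 ≤ c) →
      Commute ((t i * t (i + 1) : Rˣ) : R) ((t c : R) - x) := by
    intro i c hi hc hic
    rw [Units.val_mul]
    exact ((hv.commute (by omega) hc (by omega)).mul_left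
      (hv.commute hi hc (by omega))).sub_right ((hx i).mul_left (hx (i + 1)))
  have h1 : ∀ d, d + 3 ≤ m → ((t 0 : R) - x) * ((t (m - 1 - d) : R) - x) = 0 := by
    intro d
    induction d with
    | zero => intro _; simpa using h0
    | succ d ih =>
      intro hd
      have h3 := ih (by omega)
      obtain ⟨c, hc⟩ : ∃ c, m - 1 - (d + 1) = c := ⟨_, rfl⟩
      rw [hc]
      rw [show m - 1 - d = c + 1 by omega] at h3
      refine (zero_iff_of_conj (u := t c * t (c + 1)) ?_).2 h3
      rw [← mul_assoc, (cm c 0 (by omega) (by omega) (by omega)).eq, mul_assoc,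
        sh c (by omega), mul_assoc]
  have h4 : ((t 0 : R) - x) * ((t b : R) - x) = 0 := by
    have := h1 (m - 1 - b) (by omega)
    rwa [show m - 1 - (m - 1 - b) = b by omega] at this
  induction a with
  | zero => exact h4
  | succ a ih =>
    refine (zero_iff_of_conj (u := t a * t (a + 1)) ?_).1 (ih (by omega))
    rw [← mul_assoc, sh a (by omega), mul_assoc, (cm a b (by omega) hb (by omega)).eq, mul_assoc]

end Ring

variable {K V : Type*} [Field K] [AddCommGroup V] [Module K V] [FiniteDimensional K V]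
  {m : ℕ} {t : ℕ → (End K V)ˣ}

/-- Irreducibility with respect to the first `m` generators. -/
def Irr (m : ℕ) (t : ℕ → (End K V)ˣ) : Prop :=
  ∀ W : Submodule K V, (∀ i < m, t i ∈ stabS W) → W = ⊥ ∨ W = ⊤

theorem exists_eigen [IsAlgClosed K] (f : End K V) (W : Submodule K V) (hW : W ≠ ⊥)
    (hf : ∀ w ∈ W, f w ∈ W) : ∃ (μ : K) (v : V), v ∈ W ∧ v ≠ 0 ∧ f v = μ • v := by
  have : Nontrivial W := Submodule.nontrivial_iff_ne_bot.2 hW
  obtain ⟨μ, hμ⟩ := Module.End.exists_eigenvalue (f.restrict hf)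
  obtain ⟨v, hv⟩ := hμ.exists_hasEigenvector
  refine ⟨μ, v, v.2, fun h0 => hv.2 (Subtype.ext h0), ?_⟩
  simpa using congrArg Subtype.val hv.apply_eq_smul

theorem IsBraid.exists_lambda [IsAlgClosed K] (h : IsBraid m t) (hm : 9 ≤ m) (hirr : Irr m t)
    (h2 : P t 2 = 0) (h0 : D t 0 ≠ 0) :
    ∃ μ : K, μ ≠ 0 ∧ ((t 0 : End K V) - μ • 1) * ((t (m - 1) : End K V) - μ • 1) = 0 := by
  obtain ⟨μ, v, hv, hv0, hμ⟩ := exists_eigen (t 3 : End K V) (LinearMap.range (D t 0))
    (by rwa [Ne, LinearMap.range_eq_bot]) (by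
      rintro _ ⟨x, rfl⟩
      refine ⟨(t 3 : End K V) x, ?_⟩
      rw [← Module.End.mul_apply, ← (h.commute_tD (by omega) (by omega) (Or.inr le_rfl)).eq,
        Module.End.mul_apply])
  refine ⟨μ, ?_, ?_⟩
  · rintro rfl
    apply hv0
    rw [← inv_apply_apply (t 3) v, hμ, zero_smul, map_zero]
  let S : Set V := {y | ∃ i, i + 1 < m ∧ ∀ r < m, FarT i r → (t r : End K V) y = μ • y}
  have hS : ∀ i, i + 1 < m → ∀ x, ∀ r < m, FarT i r →
      (t r : End K V) (D t i x) = μ • D t i x → D t i x ∈ S := by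
    intro i hi x r hr hir hx
    refine ⟨i, hi, fun r' hr' hir' => ?_⟩
    rw [← Module.End.mul_apply, h.r1 h2 hi hr' hr hir' hir, Module.End.mul_apply, hx]
  have hvS : v ∈ S := by
    obtain ⟨x, rfl⟩ := hv
    exact hS 0 (by omega) x 3 (by omega) (Or.inr le_rfl) hμ
  have hD : ∀ y ∈ S, ∀ l, l + 1 < m → D t l y ∈ S := by
    rintro y ⟨i, hi, hy⟩ l hl
    obtain ⟨r, hr, hir, hlr⟩ : ∃ r < m, FarT i r ∧ FarT l r := by
      unfold FarT
      by_cases c0 : 2 ≤ i ∧ 2 ≤ l
      · exact ⟨0, by omega, by omega, by omega⟩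
      by_cases c1 : i + 3 < m ∧ l + 3 < m
      · exact ⟨m - 1, by omega, by omega, by omega⟩
      exact ⟨4, by omega, by omega, by omega⟩
    refine hS l hl y r hr hlr ?_
    rw [← Module.End.mul_apply, (h.commute_tD hr hl hlr).eq, Module.End.mul_apply, hy r hr hir,
      map_smul]
  have hdiff : ∀ y ∈ S, ∀ j < m, (t 0 : End K V) y - (t j : End K V) y ∈ Submodule.span K S := by
    intro y hy j
    induction j with
    | zero => intro _; simp
    | succ j ih =>
      intro hj
      have := Submodule.add_mem _ (ih (by omega)) (Submodule.subset_span (hD y hy j hj))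
      simpa [D] using this
  have hinv : ∀ j < m, t j ∈ stabS (Submodule.span K S) := by
    intro j hj
    have : Submodule.span K S ≤ (Submodule.span K S).comap (t j : End K V) := by
      rw [Submodule.span_le]
      intro y hy
      obtain ⟨i, hi, hy'⟩ := id hy
      obtain ⟨r, hr, hir⟩ : ∃ r < m, FarT i r := by
        unfold FarT
        by_cases c0 : 2 ≤ i
        · exact ⟨0, by omega, by omega⟩
        · exact ⟨4, by omega, by omega⟩
      have h3 := Submodule.add_mem _ (Submodule.sub_mem _ (hdiff y hy r hr) (hdiff y hy j hj))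
        (Submodule.smul_mem _ μ (Submodule.subset_span hy))
      rw [hy' r hr hir] at h3
      simpa using h3
    exact fun x hx => this hx
  rcases hirr _ hinv with h3 | h3
  · exact absurd (h3 ▸ Submodule.subset_span hvS : v ∈ (⊥ : Submodule K V)) (by simpa using hv0)
  refine LinearMap.ext_on h3 ?_
  rintro y ⟨i, hi, hy⟩
  have hc : Commute ((t 0 : End K V) - μ • 1) ((t (m - 1) : End K V) - μ • 1) :=
    ((h.val.commute (by omega) (by omega) (by omega)).sub_right
      ((Commute.one_right _).smul_right μ)).sub_left ((Commute.one_left _).smul_left μ)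
  by_cases c0 : 2 ≤ i
  · rw [hc.eq, Module.End.mul_apply]
    have := hy 0 (by omega) (Or.inl c0)
    simp [this]
  · rw [Module.End.mul_apply]
    have := hy (m - 1) (by omega) (Or.inr (by omega))
    simp [this]

end Pool.Agent.MP_b64966_al
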