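import Pool.Agent.MP_b64966_al.Config

namespace Pool.Agent.MP_b64966_al

open Module

variable {K V : Type*} [Field K] [AddCommGroup V] [Module K V] [FiniteDimensional K V]

/-- `a` is a generator of the `j`-th block of five strands. -/
def Blk (j a : ℕ) : Prop := 5 * j ≤ a ∧ a ≤ 5 * j + 3

theorem pow_le_aux [IsAlgClosed K] (T : ℕ → End K V) (k : ℕ)
    (hc : ∀ j < k, ∀ j' < j, ∀ b, Blk j' b → Commute (T (5 * j)) (T b))
    (hns : ∀ j < k, ∀ W : Submodule K V, (∀ a, Blk j a → ∀ w ∈ W, T a w ∈ W) →
      ∀ μ : K, (∀ w ∈ W, T (5 * j) w = μ • w) → W = ⊥) :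
    ∀ W : Submodule K V, W ≠ ⊥ → (∀ j < k, ∀ a, Blk j a → ∀ w ∈ W, T a w ∈ W) →
      2 ^ k ≤ finrank K W := by
  induction k with
  | zero =>
    intro W hW _
    rw [pow_zero, Nat.one_le_iff_ne_zero]
    intro h0
    exact hW (Submodule.finrank_eq_zero.1 h0)
  | succ k ih =>
    intro W hW hinv
    have ih' := ih (fun j hj => hc j (by omega)) (fun j hj => hns j (by omega))
    have hg : ∀ w ∈ W, T (5 * k) w ∈ W := hinv k (by omega) _ ⟨le_rfl, by omega⟩
    have : Nontrivial W := Submodule.nontrivial_iff_ne_bot.2 hW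
    obtain ⟨μ, hμ⟩ := Module.End.exists_eigenvalue ((T (5 * k)).restrict hg)
    obtain ⟨v, hv⟩ := hμ.exists_hasEigenvector
    set f : End K V := T (5 * k) - μ • 1 with hf
    have hfa : ∀ x, f x = T (5 * k) x - μ • x := fun x => by simp [hf]
    have hcf : ∀ j < k, ∀ b, Blk j b → ∀ x, f (T b x) = T b (f x) := by
      intro j hj b hb x
      have := hc k (by omega) j hj b hb
      rw [hfa, hfa, map_sub, map_smul, ← Module.End.mul_apply, this.eq, Module.End.mul_apply]
    have h1 : 2 ^ k ≤ finrank K (W ⊓ LinearMap.ker f : Submodule K V) := by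
      refine ih' _ ?_ ?_
      · rw [Submodule.ne_bot_iff]
        refine ⟨v, ⟨v.2, ?_⟩, fun h0 => hv.2 (Subtype.ext h0)⟩
        have := congrArg Subtype.val hv.apply_eq_smul
        simp only [LinearMap.coe_restrict_apply, Submodule.coe_smul] at this
        change f v = 0
        rw [hfa, this, sub_self]
      · intro j hj a ha w hw
        refine ⟨hinv j (by omega) a ha w hw.1, ?_⟩
        have h2 : f w = 0 := hw.2
        change f (T a w) = 0
        rw [hcf j hj a ha, h2, map_zero]
    have h2 : 2 ^ k ≤ finrank K (W.map f) := by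
      refine ih' _ ?_ ?_
      · intro h0
        refine hW (hns k (by omega) W (hinv k (by omega)) μ fun w hw => ?_)
        have : f w ∈ W.map f := Submodule.mem_map_of_mem hw
        rw [h0, Submodule.mem_bot, hfa, sub_eq_zero] at this
        exact this
      · rintro j hj a ha _ ⟨w, hw, rfl⟩
        exact ⟨T a w, hinv j (by omega) a ha w hw, hcf j hj a ha w⟩
    have h3 := LinearMap.finrank_range_add_finrank_ker (f.domRestrict W)
    rw [LinearMap.range_domRestrict, LinearMap.ker_domRestrict,
      ← Submodule.finrank_map_subtype_eq, Submodule.map_comap_subtype] at h3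
    rw [pow_succ]
    omega

/-- The units preserving a subspace. -/
def stabS (U : Submodule K V) : Subgroup (End K V)ˣ where
  carrier := {g | ∀ x ∈ U, (g : End K V) x ∈ U}
  one_mem' := fun x hx => by simpa using hx
  mul_mem' := fun {a b} ha hb x hx => by
    rw [Units.val_mul, Module.End.mul_apply]; exact ha _ (hb x hx)
  inv_mem' := fun {a} ha x hx => by
    have hinj : Function.Injective ((a : End K V).restrict ha) := by
      intro y z hyz
      have h1 : (a : End K V) y = (a : End K V) z := congrArg Subtype.val hyz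
      have h2 := congrArg ((a⁻¹ : (End K V)ˣ) : End K V) h1
      rw [← Module.End.mul_apply, ← Module.End.mul_apply, Units.inv_mul] at h2
      exact Subtype.ext h2
    obtain ⟨y, hy⟩ := LinearMap.injective_iff_surjective.1 hinj ⟨x, hx⟩
    have h1 : (a : End K V) y = x := congrArg Subtype.val hy
    rw [← h1, ← Module.End.mul_apply, Units.inv_mul]
    exact y.2

theorem mem_stabS {U : Submodule K V} {g : (End K V)ˣ} :
    g ∈ stabS U ↔ ∀ x ∈ U, (g : End K V) x ∈ U := Iff.rfl

omit [FiniteDimensional K V] in
theorem inv_apply_apply (g : (End K V)ˣ) (x : V) :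
    ((g⁻¹ : (End K V)ˣ) : End K V) ((g : End K V) x) = x := by
  rw [← Module.End.mul_apply, Units.inv_mul, Module.End.one_apply]

omit [FiniteDimensional K V] in
theorem apply_inv_apply (g : (End K V)ˣ) (x : V) :
    (g : End K V) (((g⁻¹ : (End K V)ˣ) : End K V) x) = x := by
  rw [← Module.End.mul_apply, Units.mul_inv, Module.End.one_apply]

theorem IsBraid.pow_le [IsAlgClosed K] {m : ℕ} {t : ℕ → (End K V)ˣ} (h : IsBraid m t) {k : ℕ}
    (hkm : 5 * k ≤ m + 1) (hk0 : P t k ≠ 0) : 2 ^ k ≤ finrank K V := by
  classical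
  set L : List ℕ := (List.range k).map (5 * ·) with hL
  have hLmem : ∀ a ∈ L, ∃ j < k, a = 5 * j := by
    intro a ha
    obtain ⟨j, hj, rfl⟩ := List.mem_map.1 ha
    exact ⟨j, List.mem_range.1 hj, rfl⟩
  have hLf : L.Pairwise Far := by
    rw [hL, List.pairwise_map]
    refine List.pairwise_lt_range.imp ?_
    intro a b hab
    exact Or.inl (by omega)
  have hLr : ∀ a ∈ L, a + 1 < m := by
    intro a ha
    obtain ⟨j, hj, rfl⟩ := hLmem a ha
    omega
  have hM0 : M t L ≠ 0 := by
    rw [Ne, h.M_eq_zero_iff hLf hLr]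
    simpa [hL] using hk0
  let H : Subgroup (End K V)ˣ := Subgroup.closure {g | ∃ j < k, ∃ a, Blk j a ∧ g = t a}
  let R₀ : Submodule K V :=
    { carrier := {v | ∀ g ∈ H, M t L ((g : End K V) v) = 0}
      add_mem' := fun {a b} ha hb g hg => by
        rw [map_add, map_add, ha g hg, hb g hg, add_zero]
      zero_mem' := fun g _ => by simp
      smul_mem' := fun c x hx g hg => by
        rw [map_smul, map_smul, hx g hg, smul_zero] }
  have hR : H ≤ stabS R₀ := by
    intro g hg x hx g' hg'
    have := hx (g' * g) (mul_mem hg' hg)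
    simpa using this
  have htH : ∀ j < k, ∀ a, Blk j a → t a ∈ H := fun j hj a ha =>
    Subgroup.subset_closure ⟨j, hj, a, ha, rfl⟩
  let T : ℕ → End K (V ⧸ R₀) := fun a =>
    if ha : t a ∈ H then R₀.mapQ R₀ (t a : End K V) (fun x hx => hR ha x hx) else 0
  have hT : ∀ j < k, ∀ a, Blk j a → ∀ v, T a (R₀.mkQ v) = R₀.mkQ ((t a : End K V) v) := by
    intro j hj a ha v
    simp only [T, dif_pos (htH j hj a ha)]
    rfl
  have hcomm : ∀ j < k, ∀ j' < k, j ≠ j' → ∀ a b, Blk j a → Blk j' b → Commute (t a) (t b) := by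
    intro j hj j' hj' hne a b ha hb
    unfold Blk at ha hb
    exact h.commute (by omega) (by omega) (by omega)
  have key := pow_le_aux T k ?_ ?_ ⊤ ?_ (fun _ _ _ _ _ _ => Submodule.mem_top)
  · rw [finrank_top] at key
    exact key.trans (Submodule.finrank_quotient_le R₀)
  · intro j hj j' hj' b hb
    have hb0 : Blk j (5 * j) := ⟨le_rfl, by omega⟩
    ext v
    have := congrArg Units.val (hcomm j hj j' (by omega) (by omega) _ _ hb0 hb).eq
    simp only [Units.val_mul] at this
    simp only [LinearMap.coe_comp, Function.comp_apply, Module.End.mul_apply]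
    rw [hT j' (by omega) b hb, hT j hj _ hb0, hT j hj _ hb0, hT j' (by omega) b hb,
      ← Module.End.mul_apply, this, Module.End.mul_apply]
  · intro j hj W hW μ hμ
    have hb0 : Blk j (5 * j) := ⟨le_rfl, by omega⟩
    let Hj : Subgroup (End K V)ˣ := Subgroup.closure {g | ∃ a, Blk j a ∧ g = t a}
    have htHj : ∀ a, Blk j a → t a ∈ Hj := fun a ha => Subgroup.subset_closure ⟨a, ha, rfl⟩
    have hHjH : Hj ≤ H := by
      refine (Subgroup.closure_le _).2 ?_
      rintro _ ⟨a, ha, rfl⟩
      exact htH j hj a ha
    have hHjW : Hj ≤ stabS (W.comap R₀.mkQ) := by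
      refine (Subgroup.closure_le _).2 ?_
      rintro _ ⟨a, ha, rfl⟩ x hx
      rw [Submodule.mem_comap] at hx ⊢
      rw [← hT j hj a ha]
      exact hW a ha _ hx
    let W' : Submodule K V :=
      { carrier := {v | ∀ g ∈ Hj,
          (t (5 * j) : End K V) ((g : End K V) v) - μ • (g : End K V) v ∈ R₀}
        add_mem' := fun {a b} ha hb g hg => by
          have := R₀.add_mem (ha g hg) (hb g hg)
          rw [map_add, map_add, smul_add]
          rwa [sub_add_sub_comm] at this
        zero_mem' := fun g _ => by simp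
        smul_mem' := fun c x hx g hg => by
          have := R₀.smul_mem c (hx g hg)
          rw [map_smul, map_smul, smul_comm μ c, ← smul_sub]
          exact this }
    have hWW' : W.comap R₀.mkQ ≤ W' := by
      intro v hv g hg
      have h1 := hHjW hg v hv
      rw [Submodule.mem_comap] at h1
      have h2 := hμ _ h1
      rw [hT j hj _ hb0, ← map_smul, ← sub_eq_zero, ← map_sub] at h2
      exact (Submodule.Quotient.mk_eq_zero _).1 h2
    have hHjW' : Hj ≤ stabS W' := by
      intro g hg v hv g' hg'
      have := hv (g' * g) (mul_mem hg' hg)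
      simpa using this
    have hHW' : H ≤ stabS W' := by
      refine (Subgroup.closure_le _).2 ?_
      rintro _ ⟨j', hj', b, hb, rfl⟩
      by_cases hjj : j' = j
      · subst hjj
        exact hHjW' (htHj b hb)
      intro v hv g hg
      have hc1 : Hj ≤ Subgroup.centralizer {t b} := by
        refine (Subgroup.closure_le _).2 ?_
        rintro _ ⟨a, ha, rfl⟩
        rw [SetLike.mem_coe, Subgroup.mem_centralizer_singleton_iff]
        exact (hcomm j hj j' hj' (Ne.symm hjj) a b ha hb).eq
      have hc2 := congrArg Units.val (Subgroup.mem_centralizer_singleton_iff.1 (hc1 hg))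
      have hc3 := congrArg Units.val (hcomm j hj j' hj' (Ne.symm hjj) _ b hb0 hb).eq
      simp only [Units.val_mul] at hc2 hc3
      have := hR (htH j' hj' b hb) _ (hv g hg)
      rw [map_sub, map_smul, ← Module.End.mul_apply (t b : End K V) (t (5 * j) : End K V), ← hc3,
        Module.End.mul_apply, ← Module.End.mul_apply (t b : End K V) (g : End K V), ← hc2,
        Module.End.mul_apply] at this
      exact this
    have hs0 : sh3 t (5 * j) ∈ Hj :=
      mul_mem (mul_mem (htHj _ hb0) (htHj _ ⟨by omega, by omega⟩)) (htHj _ ⟨by omega, by omega⟩)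
    have hs1 : sh3 t (5 * j + 1) ∈ Hj :=
      mul_mem (mul_mem (htHj _ ⟨by omega, by omega⟩) (htHj _ ⟨by omega, by omega⟩))
        (htHj _ ⟨by omega, by omega⟩)
    have hDW : ∀ v ∈ W', D t (5 * j) v ∈ R₀ := by
      intro v hv
      have h1 := hv 1 (one_mem _)
      have h2 := hR (hHjH hs0) _ (hv _ (inv_mem hs0))
      have h3 := congrArg Units.val (h.sh3_a (i := 5 * j) (by omega))
      simp only [Units.val_mul] at h3
      rw [map_sub, map_smul, apply_inv_apply, ← Module.End.mul_apply, h3, Module.End.mul_apply,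
        apply_inv_apply] at h2
      have h4 := R₀.sub_mem h1 h2
      simpa [D] using h4
    have hmem : 5 * j ∈ L := List.mem_map.2 ⟨j, List.mem_range.2 hj, rfl⟩
    have hp : L.Perm (5 * j :: L.erase (5 * j)) := List.perm_cons_erase hmem
    have hf' := (hp.pairwise_iff Far.symm).1 hLf
    rw [List.pairwise_cons] at hf'
    set M' := M t (L.erase (5 * j)) with hM'
    have hML : M t L = D t (5 * j) * M' := by rw [h.M_perm hp hLf hLr, M_cons]
    have hcM : Hj ≤ Subgroup.comap (Units.map (MonoidHom.id (End K V)))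
        { carrier := {g : (End K V)ˣ | Commute (g : End K V) M'}
          one_mem' := Commute.one_left _
          mul_mem' := fun ha hb => Commute.mul_left ha hb
          inv_mem' := fun ha => Commute.units_inv_left ha } := by
      refine (Subgroup.closure_le _).2 ?_
      rintro _ ⟨a, ha, rfl⟩
      change Commute (t a : End K V) M'
      refine commute_M fun b hb => ?_
      obtain ⟨j', hj', rfl⟩ := hLmem b (List.mem_of_mem_erase hb)
      have := hf'.1 _ hb
      unfold Far at this
      unfold Blk at ha
      exact h.commute_tD (by omega) (by omega) (by omega)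
    have hcM' : ∀ g ∈ Hj, ∀ x, (g : End K V) (M' x) = M' ((g : End K V) x) := by
      intro g hg x
      have : Commute (g : End K V) M' := hcM hg
      rw [← Module.End.mul_apply, this.eq, Module.End.mul_apply]
    have hcD : ∀ i, Blk j i → Blk j (i + 1) → ∀ x, D t i (M' x) = M' (D t i x) := by
      intro i h1 h2 x
      simp only [D, LinearMap.sub_apply, map_sub, hcM' _ (htHj _ h1), hcM' _ (htHj _ h2)]
    let J : Ideal (End K V) :=
      { carrier := {y | ∀ w ∈ W', y (M' w) = 0}
        add_mem' := fun {a b} ha hb w hw => by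
          rw [LinearMap.add_apply, ha w hw, hb w hw, add_zero]
        zero_mem' := fun w _ => rfl
        smul_mem' := fun c y hy w hw => by
          rw [smul_eq_mul, Module.End.mul_apply, hy w hw, map_zero] }
    have hJ : ∀ g ∈ Hj, g ∈ stab J := by
      intro g hg y hy
      constructor
      · intro w hw
        rw [Module.End.mul_apply, hcM' g hg]
        exact hy _ (hHjW' hg w hw)
      · intro w hw
        rw [Module.End.mul_apply, hcM' _ (inv_mem hg)]
        exact hy _ (hHjW' (inv_mem hg) w hw)
    have h5 : D t (5 * j) ∈ J := by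
      refine h.five (by omega) J (hJ _ (htHj _ hb0)) (hJ _ (htHj _ ⟨by omega, by omega⟩))
        (hJ _ (htHj _ ⟨by omega, by omega⟩)) (hJ _ (htHj _ ⟨by omega, by omega⟩)) ?_
      intro w hw
      rw [Module.End.mul_apply, hcD _ hb0 ⟨by omega, by omega⟩]
      have hr := hDW w hw
      set r := D t (5 * j) w
      set u := sh3 t (5 * j + 1) * sh3 t (5 * j) with hu
      have huH : u ∈ Hj := mul_mem hs1 hs0
      have e : (u : End K V) * D t (5 * j) = D t (5 * j + 2) * (u : End K V) := by
        rw [hu, Units.val_mul, mul_assoc, h.sh3_D (by omega), ← mul_assoc, h.sh3_D (by omega),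
          mul_assoc]
      have h6 := hr _ (hHjH (inv_mem huH))
      rw [hML, Module.End.mul_apply, ← hcM' _ (inv_mem huH)] at h6
      have h7 := congrArg (u : End K V) h6
      rw [← Module.End.mul_apply, e, Module.End.mul_apply, apply_inv_apply, map_zero] at h7
      exact h7
    have hW'R : W' ≤ R₀ := by
      intro v hv g hg
      rw [hML, Module.End.mul_apply]
      exact h5 _ (hHW' hg v hv)
    rw [eq_bot_iff]
    intro x hx
    obtain ⟨v, rfl⟩ := R₀.mkQ_surjective x
    exact (Submodule.Quotient.mk_eq_zero _).2 (hW'R (hWW' hx))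
  · intro h0
    apply hM0
    ext v
    have : R₀.mkQ v ∈ (⊥ : Submodule K (V ⧸ R₀)) := h0 ▸ Submodule.mem_top
    have h1 : v ∈ R₀ := (Submodule.Quotient.mk_eq_zero _).1 this
    simpa using h1 1 (one_mem _)

end Pool.Agent.MP_b64966_al
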