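import Pool.Agent.MP_b64966_al.Count
import Pool.Agent.MP_b64966_al.Pow

namespace Pool.Agent.MP_b64966_al

open Module

theorem num_a (q : ℕ) (hq : 11 ≤ q) : (5 * q - 4) * (5 * q - 5) ≤ 2 * 2 ^ q := by
  induction q, hq using Nat.le_induction with
  | base => norm_num
  | succ q hq ih =>
    obtain ⟨r, rfl⟩ : ∃ r, q = r + 11 := ⟨q - 11, by omega⟩
    have e1 : 5 * (r + 11) - 4 = 5 * r + 51 := by omega
    have e2 : 5 * (r + 11) - 5 = 5 * r + 50 := by omega
    have e3 : 5 * (r + 11 + 1) - 4 = 5 * r + 56 := by omega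
    have e4 : 5 * (r + 11 + 1) - 5 = 5 * r + 55 := by omega
    rw [e1, e2] at ih
    rw [e3, e4, pow_succ]
    nlinarith

theorem num_b (q : ℕ) (hq : 13 ≤ q) : (9 * q - 9) * (9 * q - 10) ≤ 2 * 2 ^ q := by
  induction q, hq using Nat.le_induction with
  | base => norm_num
  | succ q hq ih =>
    obtain ⟨r, rfl⟩ : ∃ r, q = r + 13 := ⟨q - 13, by omega⟩
    have e1 : 9 * (r + 13) - 9 = 9 * r + 108 := by omega
    have e2 : 9 * (r + 13) - 10 = 9 * r + 107 := by omega
    have e3 : 9 * (r + 13 + 1) - 9 = 9 * r + 117 := by omega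
    have e4 : 9 * (r + 13 + 1) - 10 = 9 * r + 116 := by omega
    rw [e1, e2] at ih
    rw [e3, e4, pow_succ]
    nlinarith

theorem choose_mono_half (N a b : ℕ) (hab : a ≤ b) (hb : b ≤ N / 2) :
    N.choose a ≤ N.choose b := by
  induction b, hab using Nat.le_induction with
  | base => exact le_rfl
  | succ b _ ih => exact (ih (by omega)).trans (Nat.choose_le_succ_of_lt_half_left (by omega))

theorem num_c' : (List.range 13).all (fun k => (List.range 117).all fun n =>
    decide (k < 7) || decide (n < 55) || decide (n < 5 * k) ||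
    decide ((n - 8) * (n - 9) ≤ 2 * 2 ^ k) ||
    decide ((n - 8) * (n - 9) ≤ 2 * ((n - 4 * k).descFactorial k / k.factorial))) = true := by
  decide +kernel

theorem num_c : ∀ k < 13, ∀ n < 117, 7 ≤ k → 55 ≤ n → 5 * k ≤ n →
    (n - 8) * (n - 9) ≤ 2 * 2 ^ k ∨
      (n - 8) * (n - 9) ≤ 2 * ((n - 4 * k).descFactorial k / k.factorial) := by
  intro k hk n hn h1 h2 h3
  have h := num_c'
  simp only [List.all_eq_true, List.mem_range, Bool.or_eq_true, decide_eq_true_eq] at h
  have := h k hk n hn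
  omega

theorem num_main (n k d : ℕ) (hn : 55 ≤ n) (hk : 2 ≤ k) (h1 : (n - 4 * k).choose k ≤ d)
    (h2 : ∀ k' ≤ k, 5 * k' ≤ n → 2 ^ k' ≤ d) : (n - 8) * (n - 9) ≤ 2 * d := by
  by_cases hk2 : k = 2
  · subst hk2
    rw [Nat.choose_two_right] at h1
    have e : n - 4 * 2 - 1 = n - 9 := by omega
    rw [e] at h1
    have hev : Even ((n - 8) * (n - 9)) := by
      have := Nat.even_mul_pred_self (n - 8)
      rwa [show n - 8 - 1 = n - 9 by omega] at this
    obtain ⟨r, hr⟩ := hev
    have e2 : n - 4 * 2 = n - 8 := by omega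
    rw [e2, hr] at h1
    omega
  by_cases h5 : n < 5 * k
  · have h3 := h2 (n / 5) (by omega) (by omega)
    have h4 := num_a (n / 5) (by omega)
    have h6 : (n - 8) * (n - 9) ≤ (5 * (n / 5) - 4) * (5 * (n / 5) - 5) :=
      Nat.mul_le_mul (by omega) (by omega)
    omega
  by_cases h9 : 9 * k ≤ n
  · have h3 := choose_mono_half (n - 4 * k) 3 k (by omega) (by omega)
    have h4 : 6 * (n - 4 * k).choose 3 = (n - 4 * k).descFactorial 3 := by
      rw [Nat.descFactorial_eq_factorial_mul_choose]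
      rfl
    obtain ⟨N, hN⟩ : ∃ N, n - 4 * k = N + 30 := ⟨n - 4 * k - 30, by omega⟩
    rw [hN] at h1 h3 h4
    have h6 : (N + 30).descFactorial 3 = (N + 28) * ((N + 29) * (N + 30)) := by
      simp [Nat.descFactorial]
    have h7 : (n - 8) * (n - 9) ≤ (2 * N + 60) * (2 * N + 60) :=
      Nat.mul_le_mul (by omega) (by omega)
    have h8 : 3 * ((2 * N + 60) * (2 * N + 60)) ≤ (N + 28) * ((N + 29) * (N + 30)) := by
      nlinarith [Nat.zero_le (N * N * N), Nat.zero_le (N * N)]
    omega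
  by_cases h13 : 13 ≤ k
  · have h3 := h2 k le_rfl (by omega)
    have h4 := num_b k h13
    have h6 : (n - 8) * (n - 9) ≤ (9 * k - 9) * (9 * k - 10) :=
      Nat.mul_le_mul (by omega) (by omega)
    omega
  · have h3 := h2 k le_rfl (by omega)
    rw [Nat.choose_eq_descFactorial_div_factorial] at h1
    rcases num_c k (by omega) n (by omega) (by omega) hn (by omega) with h4 | h4 <;> omega

theorem IsBraid.deg_two {K V : Type*} [Field K] [IsAlgClosed K] [AddCommGroup V] [Module K V]
    [FiniteDimensional K V] {m : ℕ} {t : ℕ → (End K V)ˣ} (h : IsBraid m t) (hm : 54 ≤ m)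
    (h2 : P t 2 ≠ 0) : (m + 1 - 8) * (m + 1 - 9) ≤ 2 * finrank K V := by
  classical
  set k := Nat.findGreatest (fun k => P t k ≠ 0) ((m + 1) / 3) with hk
  have hk2 : 2 ≤ k := Nat.le_findGreatest (by omega) h2
  have hk0 : P t k ≠ 0 := Nat.findGreatest_spec (P := fun k => P t k ≠ 0) (m := 2) (by omega) h2
  refine num_main (m + 1) k _ (by omega) hk2 (h.choose_le hk0 ?_) ?_
  · intro l hf hr hl
    have h3 := h.length_le hf hr
    rw [h.M_eq_zero_iff hf hr, hl]
    have := Nat.findGreatest_is_greatest (P := fun k => P t k ≠ 0) (n := (m + 1) / 3)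
      (k := k + 1) (by omega) (by omega)
    simpa using this
  · intro k' hk' h5
    exact h.pow_le h5 (P_ne_zero_of_le hk' hk0)

end Pool.Agent.MP_b64966_al
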