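import Pool.Agent.MP_b64966_al.Burau

namespace Pool.Agent.MP_b64966_al

open Module

variable {K V : Type*} [Field K] [AddCommGroup V] [Module K V] [FiniteDimensional K V]
  {m : ℕ} {t : ℕ → (End K V)ˣ}

/-- The spanning vectors of the monomial family. -/
def uv (t : ℕ → (End K V)ˣ) (u : V) : ℕ → V
  | 0 => u
  | p + 1 => (t p : End K V) (uv t u p)

omit [FiniteDimensional K V] in
theorem unit_inj (g : (End K V)ˣ) {x y : V} (h : (g : End K V) x = (g : End K V) y) : x = y := by
  rw [← inv_apply_apply g x, h, inv_apply_apply]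

omit [FiniteDimensional K V] in
theorem IsBraid.braid_apply (h : IsBraid m t) {i : ℕ} (hi : i + 1 < m) (x : V) :
    (t i : End K V) ((t (i + 1) : End K V) ((t i : End K V) x))
      = (t (i + 1) : End K V) ((t i : End K V) ((t (i + 1) : End K V) x)) :=
  LinearMap.congr_fun (h.val.braid i hi) x

omit [FiniteDimensional K V] in
theorem IsBraid.comm_apply (h : IsBraid m t) {i j : ℕ} (hi : i < m) (hj : j < m)
    (hij : i + 2 ≤ j ∨ j + 2 ≤ i) (x : V) :
    (t i : End K V) ((t j : End K V) x) = (t j : End K V) ((t i : End K V) x) :=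
  LinearMap.congr_fun (h.val.commute hi hj hij).eq x

theorem IsBraid.tym_start [IsAlgClosed K] (h : IsBraid m t) (hm : 5 ≤ m)
    (hNN : ∀ a b, a + 2 ≤ b → b < m → N t a * N t b = 0) (hZ : Z t 0 ≠ 0) :
    ∃ (θ : K) (u : V), θ ≠ 0 ∧ u ≠ 0 ∧ (∀ j < m, j ≠ 0 → (t j : End K V) u = u) ∧
      (t 0 : End K V) ((t 0 : End K V) u) = θ • u := by
  have hT : ∀ j x, N t j x = (t j : End K V) x - x := fun j x => by simp [N]
  have hfix : ∀ a < m, ∀ b < m, (a + 2 ≤ b ∨ b + 2 ≤ a) → ∀ y ∈ LinearMap.range (N t b),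
      (t a : End K V) y = y := by
    rintro a ha b hb hab _ ⟨x, rfl⟩
    have := LinearMap.congr_fun (h.NN_far hNN ha hb hab) x
    rw [Module.End.mul_apply, hT, LinearMap.zero_apply, sub_eq_zero] at this
    exact this
  have hself : ∀ a, ∀ y ∈ LinearMap.range (N t a), (t a : End K V) y ∈ LinearMap.range (N t a) := by
    rintro a _ ⟨x, rfl⟩
    exact ⟨(t a : End K V) x, by rw [hT, hT, map_sub]⟩
  let SA := LinearMap.range (N t 0) ⊓ LinearMap.range (N t 1)
  let SB := LinearMap.range (N t 1) ⊓ LinearMap.range (N t 2)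
  have hAB : ∀ y ∈ SA, (t 1 : End K V) y ∈ SB := by
    intro y hy
    refine ⟨hself 1 y hy.2, ?_⟩
    have h1 := hfix 2 (by omega) 0 (by omega) (by omega) y hy.1
    obtain ⟨x, hx⟩ := hy.2
    refine ⟨(t 1 : End K V) ((t 2 : End K V) x), ?_⟩
    rw [← h1, ← hx, hT, hT, map_sub, map_sub, h.braid_apply (i := 1) (by omega)]
  have hBA : ∀ y ∈ SB, (t 1 : End K V) y ∈ SA := by
    intro y hy
    refine ⟨?_, hself 1 y hy.1⟩
    have h1 := hfix 0 (by omega) 2 (by omega) (by omega) y hy.2
    obtain ⟨x, hx⟩ := hy.1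
    refine ⟨(t 1 : End K V) ((t 0 : End K V) x), ?_⟩
    rw [← h1, ← hx, hT, hT, map_sub, map_sub, h.braid_apply (i := 0) (by omega)]
  have hA0 : SA ≠ ⊥ := by
    intro h0
    apply hZ
    ext x
    have : Z t 0 x ∈ SA := by
      constructor
      · refine ⟨x + N t 0 x + N t 1 (N t 0 x), ?_⟩
        simp [Z]
      · refine ⟨x + N t 1 x + N t 0 (N t 1 x), ?_⟩
        rw [h.Z_eq (by omega)]
        simp
    rw [h0] at this
    exact this
  obtain ⟨θ, u1, hu1, hu0, hθ⟩ := exists_eigen ((t 1 : End K V) * (t 1 : End K V)) SA hA0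
    (fun w hw => hBA _ (hAB w hw))
  rw [Module.End.mul_apply] at hθ
  have hθ0 : θ ≠ 0 := by
    rintro rfl
    apply hu0
    refine unit_inj (t 1) (unit_inj (t 1) ?_)
    rw [hθ]
    simp
  have hu2 : (t 0 : End K V) ((t 1 : End K V) u1) = (t 1 : End K V) u1 :=
    hfix 0 (by omega) 2 (by omega) (by omega) _ (hAB u1 hu1).2
  have h00 : (t 0 : End K V) ((t 0 : End K V) u1) = θ • u1 := by
    have e1 : (t 1 : End K V) ((t 0 : End K V) ((t 1 : End K V) u1)) = θ • u1 := by
      rw [hu2, hθ]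
    have e2 : (t 0 : End K V) ((t 0 : End K V) (θ • u1)) = θ • θ • u1 := by
      conv_lhs => rw [← e1]
      rw [h.braid_apply (i := 0) (by omega), h.braid_apply (i := 0) (by omega), zero_add, hθ,
        map_smul, map_smul, map_smul, e1]
    rw [map_smul, map_smul] at e2
    exact smul_right_injective V hθ0 e2
  refine ⟨θ, (((t 0)⁻¹ : (End K V)ˣ) : End K V) u1, hθ0, ?_, ?_, ?_⟩
  · intro h0
    apply hu0
    rw [← apply_inv_apply (t 0) u1, h0, map_zero]
  · intro j hj hj0
    by_cases hj1 : j = 1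
    · subst hj1
      refine unit_inj (t 0) (unit_inj (t 1) ?_)
      rw [← h.braid_apply (i := 0) (by omega), apply_inv_apply, zero_add, hu2]
    · refine unit_inj (t 0) ?_
      rw [h.comm_apply (by omega) hj (by omega), apply_inv_apply]
      exact hfix j hj 0 (by omega) (by omega) _ hu1.1
  · refine unit_inj (t 0) ?_
    rw [apply_inv_apply, map_smul, apply_inv_apply, h00]

theorem IsBraid.tym [IsAlgClosed K] (h : IsBraid m t) (hm : 5 ≤ m) (hirr : Irr m t)
    (hNN : ∀ a b, a + 2 ≤ b → b < m → N t a * N t b = 0) (hZ : Z t 0 ≠ 0) :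
    Commute (cA t) (cB t) := by
  obtain ⟨θ, u0, hθ, hu0, h1, h2⟩ := h.tym_start hm hNN hZ
  set u := uv t u0 with hu
  have hup : ∀ p, (t p : End K V) (u p) = u (p + 1) := fun p => rfl
  have hQ : ∀ p ≤ m, (∀ j < m, j ≠ p → j + 1 ≠ p → (t j : End K V) (u p) = u p) ∧
      (p < m → (t p : End K V) (u (p + 1)) = θ • u p) := by
    intro p
    induction p using Nat.strong_induction_on with
    | _ p ih =>
      intro hp
      rcases p with _ | p
      · exact ⟨fun j hj hj0 _ => h1 j hj hj0, fun _ => h2⟩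
      obtain ⟨q1, q2⟩ := ih p (by omega) (by omega)
      constructor
      · intro j hj hj1 hj2
        by_cases hjp : j + 1 = p
        · subst hjp
          obtain ⟨r1, -⟩ := ih j (by omega) (by omega)
          rw [← hup, ← hup j, h.braid_apply (by omega), r1 (j + 1) (by omega) (by omega) (by omega)]
        · rw [← hup, h.comm_apply hj (by omega) (by omega), q1 j hj (by omega) hjp]
      · intro hp1
        have e := q1 (p + 1) hp1 (by omega) (by omega)
        rw [← hup (p + 1), ← hup p]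
        conv_lhs => rw [← e]
        rw [← h.braid_apply hp1, ← h.braid_apply hp1, hup p, q2 (by omega), map_smul, map_smul, e,
          hup]
  have hgen : ∀ j < m, ∀ p ≤ m, ∃ (c : K) (q : ℕ), q ≤ m ∧ (t j : End K V) (u p) = c • u q := by
    intro j hj p hp
    by_cases h3 : j = p
    · subst h3
      exact ⟨1, j + 1, hj, by rw [hup, one_smul]⟩
    by_cases h4 : j + 1 = p
    · subst h4
      exact ⟨θ, j, by omega, (hQ j (by omega)).2 hj⟩
    · exact ⟨1, p, hp, by rw [(hQ p hp).1 j hj h3 h4, one_smul]⟩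
  have hgen' : ∀ j < m, ∀ p ≤ m, ∃ (c : K) (q : ℕ), q ≤ m ∧
      (((t j)⁻¹ : (End K V)ˣ) : End K V) (u p) = c • u q := by
    intro j hj p hp
    by_cases h3 : j = p
    · subst h3
      refine ⟨θ⁻¹, j + 1, hj, unit_inj (t j) ?_⟩
      rw [apply_inv_apply, map_smul, (hQ j (by omega)).2 hj, smul_smul, inv_mul_cancel₀ hθ,
        one_smul]
    by_cases h4 : j + 1 = p
    · subst h4
      exact ⟨1, j, by omega, by rw [← hup, inv_apply_apply, one_smul]⟩
    · refine ⟨1, p, hp, unit_inj (t j) ?_⟩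
      rw [apply_inv_apply, one_smul, (hQ p hp).1 j hj h3 h4]
  let S : Set V := {y | ∃ p ≤ m, y = u p}
  have hspan : Submodule.span K S = ⊤ := by
    refine (hirr _ ?_).resolve_left ?_
    · intro j hj
      have : Submodule.span K S ≤ (Submodule.span K S).comap (t j : End K V) := by
        rw [Submodule.span_le]
        rintro _ ⟨p, hp, rfl⟩
        obtain ⟨c, q, hq, hc⟩ := hgen j hj p hp
        rw [SetLike.mem_coe, Submodule.mem_comap, hc]
        exact Submodule.smul_mem _ _ (Submodule.subset_span ⟨q, hq, rfl⟩)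
      exact fun x hx => this hx
    · intro h0
      have : u 0 ∈ Submodule.span K S := Submodule.subset_span ⟨0, by omega, rfl⟩
      rw [h0] at this
      exact hu0 this
  let L : Submonoid (End K V)ˣ :=
    { carrier := {g | ∀ p ≤ m, ∃ (c : K) (q : ℕ), q ≤ m ∧ (g : End K V) (u p) = c • u q}
      one_mem' := fun p hp => ⟨1, p, hp, by simp⟩
      mul_mem' := fun {a b} ha hb p hp => by
        obtain ⟨c, q, hq, hc⟩ := hb p hp
        obtain ⟨c', q', hq', hc'⟩ := ha q hq
        exact ⟨c * c', q', hq', by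
          rw [Units.val_mul, Module.End.mul_apply, hc, map_smul, hc', smul_smul]⟩ }
  have hw : (wB t)⁻¹ ∈ L := by
    have a0 : (t 0)⁻¹ ∈ L := hgen' 0 (by omega)
    have a1 : t 1 ∈ L := hgen 1 (by omega)
    have a3 : (t 3)⁻¹ ∈ L := hgen' 3 (by omega)
    have a4 : t 4 ∈ L := hgen 4 (by omega)
    simp only [wB, mul_inv_rev, inv_inv]
    repeat' refine mul_mem ?_ ?_
    all_goals assumption
  have hA : ∀ p ≤ m, ∃ c : K, ((cA t : (End K V)ˣ) : End K V) (u p) = c • u p := by
    intro p hp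
    rw [cA, Units.val_mul, Module.End.mul_apply]
    by_cases h3 : p = 2
    · subst h3
      exact ⟨θ, by rw [hup, (hQ 2 hp).2 (by omega)]⟩
    by_cases h4 : p = 3
    · subst h4
      exact ⟨θ, by rw [(hQ 2 (by omega)).2 (by omega), map_smul, hup]⟩
    · have := (hQ p hp).1 2 (by omega) (by omega) (by omega)
      exact ⟨1, by rw [this, this, one_smul]⟩
  have hB : ∀ p ≤ m, ∃ c : K, ((cB t : (End K V)ˣ) : End K V) (u p) = c • u p := by
    intro p hp
    obtain ⟨c, q, hq, hc⟩ := hw p hp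
    obtain ⟨c', hc'⟩ := hA q hq
    refine ⟨c', ?_⟩
    have e : cB t = wB t * cA t * (wB t)⁻¹ := rfl
    rw [e, Units.val_mul, Units.val_mul, Module.End.mul_apply, Module.End.mul_apply, hc, map_smul,
      hc', smul_comm, map_smul, ← hc, apply_inv_apply]
  rw [← Commute.units_val_iff]
  refine LinearMap.ext_on hspan ?_
  rintro _ ⟨p, hp, rfl⟩
  obtain ⟨a, ha⟩ := hA p hp
  obtain ⟨b, hb⟩ := hB p hp
  rw [Module.End.mul_apply, Module.End.mul_apply, ha, hb, map_smul, map_smul, ha, hb, smul_comm]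

/-- In an irreducible representation of degree at most one the two squares commute. -/
theorem IsBraid.deg_one [IsAlgClosed K] (h : IsBraid m t) (hm : 9 ≤ m) (hirr : Irr m t)
    (h2 : P t 2 = 0) : Commute (cA t) (cB t) := by
  by_cases h0 : D t 0 = 0
  · exact h.commute_of_D_zero (by omega) h0
  obtain ⟨μ, hμ, hμ0⟩ := h.exists_lambda hm hirr h2 h0
  have hNN := fun a b => h.NN_zero (μ • 1) (fun i => (Commute.one_right _).smul_right μ) hμ0
    (a := a) (b := b)
  let zc : Kˣ →* (End K V)ˣ := Units.map (algebraMap K (End K V)).toMonoidHom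
  have hzc : ∀ c g, Commute (zc c) g := by
    intro c g
    rw [← Commute.units_val_iff]
    exact Algebra.commutes (c : K) (g : End K V)
  let φ : Kˣ × (End K V)ˣ →* (End K V)ˣ :=
    MonoidHom.noncommCoprod zc (MonoidHom.id _) hzc
  let c : Kˣ := (Units.mk0 μ hμ)⁻¹
  let s : ℕ → Kˣ × (End K V)ˣ := fun i => (c, t i)
  have hs : IsBraid m s :=
    ⟨fun i hi => Prod.ext rfl (h.braid i hi), fun i j hij hj => Prod.ext rfl (h.comm i j hij hj)⟩
  have ht' := hs.map φ
  have hval : ∀ i, ((φ (s i) : (End K V)ˣ) : End K V) = μ⁻¹ • (t i : End K V) := by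
    intro i
    simp [φ, s, zc, c, Algebra.smul_def]
  have hN : ∀ i, N (fun i => φ (s i)) i = μ⁻¹ • ((t i : End K V) - μ • 1) := by
    intro i
    rw [N, hval, smul_sub, smul_smul, inv_mul_cancel₀ hμ, one_smul]
  have hirr' : Irr m (fun i => φ (s i)) := by
    intro W hW
    refine hirr W fun i hi x hx => ?_
    have := W.smul_mem μ (hW i hi x hx)
    rwa [hval, LinearMap.smul_apply, smul_smul, mul_inv_cancel₀ hμ, one_smul] at this
  have hNN' : ∀ a b, a + 2 ≤ b → b < m →
      N (fun i => φ (s i)) a * N (fun i => φ (s i)) b = 0 := by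
    intro a b hab hb
    rw [hN, hN, smul_mul_smul_comm, hNN a b hab hb, smul_zero]
  have hc : Commute (cA fun i => φ (s i)) (cB fun i => φ (s i)) := by
    by_cases hZ : Z (fun i => φ (s i)) 0 = 0
    · exact ht'.burau (by omega) hirr' hNN' hZ
    · exact ht'.tym (by omega) hirr' hNN' hZ
  rw [← map_cA, ← map_cB] at hc
  have eA : (cA s).2 = cA t := map_cA (MonoidHom.snd _ _) s
  have eB : (cB s).2 = cB t := map_cB (MonoidHom.snd _ _) s
  have fA : cA t = (zc (cA s).1)⁻¹ * φ (cA s) := by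
    simp [φ, eA]
  have fB : cB t = (zc (cB s).1)⁻¹ * φ (cB s) := by
    simp [φ, eB]
  rw [fA, fB]
  exact ((hzc _ _).inv_left).mul_left (((hzc _ _).inv_left.symm).mul_right hc)

end Pool.Agent.MP_b64966_al
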