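import Pool.Agent.MP_b64966_al.Defs
import Pool.Agent.MP_b64966_al.DegTwo
import Pool.Agent.MP_b64966_al.Tym
import Pool.Agent.MP_b64966_al.Cert

namespace Pool.Agent.MP_b64966_al

open Module
open scoped commutatorElement

universe u

theorem small_rep_kills {G : Type*} [Group G] {m : ℕ} {s : ℕ → G} (h : IsBraid m s) (hm : 54 ≤ m)
    (hgen : ∀ H : Subgroup G, (∀ i < m, s i ∈ H) → H = ⊤)
    {K : Type u} [Field K] [IsAlgClosed K] (d : ℕ) :
    ∀ (V : Type u) [AddCommGroup V] [Module K V] [FiniteDimensional K V]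
      (ρ : Representation K G V), finrank K V = d → 2 * d < (m + 1 - 8) * (m + 1 - 9) →
      ∃ k, ∀ g ∈ NS s k, ρ g = 1 := by
  induction d using Nat.strong_induction_on with
  | _ d ih =>
  intro V _ _ _ ρ hd hlt
  let ρ' : G →* (End K V)ˣ := MonoidHom.toHomUnits ρ
  have ht : IsBraid m (fun i => ρ' (s i)) := h.map ρ'
  by_cases hirr : Irr m (fun i => ρ' (s i))
  · have h2 : P (fun i => ρ' (s i)) 2 = 0 := by
      by_contra h2
      have := ht.deg_two hm h2
      omega
    have hc := ht.deg_one (by omega) hirr h2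
    rw [← map_cA, ← map_cB] at hc
    refine ⟨0, fun g hg => ?_⟩
    have hle : NS s 0 ≤ ρ'.ker := by
      refine Subgroup.normalClosure_le_normal ?_
      rintro _ rfl
      rw [SetLike.mem_coe, MonoidHom.mem_ker, map_commutatorElement]
      exact commutatorElement_eq_one_iff_commute.2 hc
    exact congrArg Units.val (hle hg)
  · unfold Irr at hirr
    push Not at hirr
    obtain ⟨W, hW, hW0, hW1⟩ := hirr
    have hinv : ∀ g, W ≤ W.comap (ρ g) := by
      intro g x hx
      have := hgen ((stabS W).comap ρ') hW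
      have hg : g ∈ (stabS W).comap ρ' := this ▸ Subgroup.mem_top g
      exact hg x hx
    have hsum := Submodule.finrank_quotient_add_finrank W
    have hp0 : finrank K W ≠ 0 := fun h0 => hW0 (Submodule.finrank_eq_zero.1 h0)
    have hp1 : finrank K W < finrank K V := Submodule.finrank_lt hW1
    obtain ⟨k1, hk1⟩ := ih (finrank K W) (by omega) W (ρ.subrepresentation W hinv) rfl (by omega)
    obtain ⟨k2, hk2⟩ := ih (finrank K (V ⧸ W)) (by omega) (V ⧸ W) (ρ.quotient W hinv) rfl
      (by omega)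
    have a1 : ∀ g ∈ NS s (max k1 k2), ∀ x ∈ W, ρ g x = x := by
      intro g hg x hx
      have := LinearMap.congr_fun (hk1 g (NS_anti s (le_max_left _ _) hg)) ⟨x, hx⟩
      exact congrArg Subtype.val this
    have a2 : ∀ g ∈ NS s (max k1 k2), ∀ x, ρ g x - x ∈ W := by
      intro g hg x
      have := LinearMap.congr_fun (hk2 g (NS_anti s (le_max_right _ _) hg)) (W.mkQ x)
      exact (Submodule.Quotient.eq W).1 this
    refine ⟨max k1 k2 + 1, fun g hg => ?_⟩
    have hle : NS s (max k1 k2 + 1) ≤ ρ'.ker := by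
      refine Subgroup.commutator_le.2 fun g1 h1 g2 h2 => ?_
      rw [MonoidHom.mem_ker, map_commutatorElement, commutatorElement_eq_one_iff_commute,
        ← Commute.units_val_iff]
      ext x
      change ρ g1 (ρ g2 x) = ρ g2 (ρ g1 x)
      have e1 := a1 g1 h1 _ (a2 g2 h2 x)
      have e2 := a1 g2 h2 _ (a2 g1 h1 x)
      rw [map_sub] at e1 e2
      rw [sub_eq_iff_eq_add.1 e1, sub_eq_iff_eq_add.1 e2]
      abel
    exact congrArg Units.val (hle hg)

/-- The generators indexed by natural numbers. -/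
def gen (n i : ℕ) : BraidGroup n :=
  if h : i < n - 1 then PresentedGroup.of ⟨i, h⟩ else 1

theorem gen_braid (n : ℕ) : IsBraid (n - 1) (gen n) where
  braid i hi := by
    simp only [gen, dif_pos hi, dif_pos (show i < n - 1 by omega)]
    exact PresentedGroup.mk_eq_mk_of_mul_inv_mem (rels := braidRels n)
      (Or.inl ⟨⟨i, by omega⟩, ⟨i + 1, hi⟩, rfl, rfl⟩)
  comm i j hij hj := by
    simp only [gen, dif_pos hj, dif_pos (show i < n - 1 by omega)]
    exact PresentedGroup.mk_eq_mk_of_mul_inv_mem (rels := braidRels n)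
      (Or.inr ⟨⟨i, by omega⟩, ⟨j, hj⟩, hij, rfl⟩)

theorem gen_top (n : ℕ) (H : Subgroup (BraidGroup n)) (hH : ∀ i < n - 1, gen n i ∈ H) :
    H = ⊤ := by
  rw [eq_top_iff, ← PresentedGroup.closure_range_of, Subgroup.closure_le]
  rintro _ ⟨i, rfl⟩
  have := hH i i.2
  rwa [gen, dif_pos i.2] at this

theorem exists_hom {G : Type*} [Group G] (n : ℕ) {s : ℕ → G} (h : IsBraid (n - 1) s) :
    ∃ φ : BraidGroup n →* G, ∀ i < n - 1, φ (gen n i) = s i := by
  refine ⟨PresentedGroup.toGroup (f := fun i : Fin (n - 1) => s i) ?_, ?_⟩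
  · rintro r (⟨i, j, hij, rfl⟩ | ⟨i, j, hij, rfl⟩)
    · simp only [map_mul, map_inv, FreeGroup.lift_apply_of, mul_inv_eq_one, ← hij]
      exact h.braid i (by have := j.2; omega)
    · simp only [map_mul, map_inv, FreeGroup.lift_apply_of, mul_inv_eq_one]
      exact h.comm i j hij j.2
  · intro i hi
    rw [gen, dif_pos hi, PresentedGroup.toGroup.of]

theorem main (n d : ℕ) (K : Type u) [Field K] (ρ : BraidGroup n →* GL (Fin d) K) (hn : 55 ≤ n)
    (hρ : Function.Injective ρ) : (n - 8) * (n - 9) ≤ 2 * d := by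
  by_contra hlt
  let L := AlgebraicClosure K
  let ρ1 : BraidGroup n →* GL (Fin d) L :=
    (Matrix.GeneralLinearGroup.map (algebraMap K L)).comp ρ
  have h1 : Function.Injective ρ1 := by
    refine Function.Injective.comp (g := Matrix.GeneralLinearGroup.map (algebraMap K L)) ?_ hρ
    intro x y hxy
    ext i j
    have := congrArg (fun g : GL (Fin d) L => g i j) hxy
    exact (algebraMap K L).injective this
  let ρ2 : Representation L (BraidGroup n) (Fin d → L) :=
    (Units.coeHom _).comp (Matrix.GeneralLinearGroup.toLin.toMonoidHom.comp ρ1)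
  have h2 : Function.Injective ρ2 :=
    Units.val_injective.comp (Matrix.GeneralLinearGroup.toLin.injective.comp h1)
  obtain ⟨k, hk⟩ := small_rep_kills (gen_braid n) (by omega) (gen_top n) d (Fin d → L) ρ2
    (by simp) (by rw [show n - 1 + 1 = n by omega]; omega)
  obtain ⟨φ, hφ⟩ := exists_hom n (hur_braid (n - 1))
  obtain ⟨g, hg, hg1⟩ := NS_ne_bot (gen n) φ (fun i hi => hφ i (by omega)) k
  exact hg1 (h2 (by rw [hk g hg, map_one]))

end Pool.Agent.MP_b64966_al
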