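import Pool.Agent.MP_b64966_al.Main

namespace Pool.Agent.MP_b64966_al

open Module
open scoped commutatorElement

/-- Commuting positions. -/
def Fa (a b : ℕ) : Prop := a + 2 ≤ b ∨ b + 2 ≤ a

theorem Fa.symm {a b : ℕ} (h : Fa a b) : Fa b a := Or.symm h

instance (a b : ℕ) : Decidable (Fa a b) := by unfold Fa; infer_instance

/-- A position commuting with all positions of a short list. -/
theorem exists_fa {m : ℕ} (l : List ℕ) (hl : 3 * l.length < m) : ∃ e < m, ∀ a ∈ l, Fa e a := by
  classical
  by_contra hne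
  push Not at hne
  have hsub : Finset.range m ⊆ l.toFinset.biUnion fun a => ({a - 1, a, a + 1} : Finset ℕ) := by
    intro e he
    obtain ⟨a, ha, hfa⟩ := hne e (Finset.mem_range.1 he)
    refine Finset.mem_biUnion.2 ⟨a, List.mem_toFinset.2 ha, ?_⟩
    unfold Fa at hfa
    simp only [Finset.mem_insert, Finset.mem_singleton]
    omega
  have h1 := Finset.card_le_card hsub
  have h2 : (l.toFinset.biUnion fun a => ({a - 1, a, a + 1} : Finset ℕ)).card
      ≤ l.toFinset.card * 3 :=
    Finset.card_biUnion_le_card_mul _ _ _ fun a _ => Finset.card_le_three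
  have h3 := List.toFinset_card_le l
  rw [Finset.card_range] at h1
  omega

section Group
variable {G : Type*} [Group G] {m : ℕ} {s : ℕ → G}

/-- The ascending product `s 0 * ⋯ * s (j - 1)`. -/
def up (s : ℕ → G) : ℕ → G
  | 0 => 1
  | j + 1 => up s j * s j

/-- The descending product `s (j - 1) * ⋯ * s 0`. -/
def dn (s : ℕ → G) : ℕ → G
  | 0 => 1
  | j + 1 => s j * dn s j

/-- The first strand encircling all the others. -/
def zz (s : ℕ → G) (m : ℕ) : G := up s m * dn s m

/-- The third strand encircling the first two. -/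
def tau (s : ℕ → G) : G := s 1 * s 0 * s 0 * s 1

theorem map_up {H : Type*} [Group H] (f : G →* H) (s : ℕ → G) (j : ℕ) :
    f (up s j) = up (fun i => f (s i)) j := by
  induction j with
  | zero => simp [up]
  | succ j ih => simp [up, ih]

theorem map_dn {H : Type*} [Group H] (f : G →* H) (s : ℕ → G) (j : ℕ) :
    f (dn s j) = dn (fun i => f (s i)) j := by
  induction j with
  | zero => simp [dn]
  | succ j ih => simp [dn, ih]

theorem map_zz {H : Type*} [Group H] (f : G →* H) (s : ℕ → G) (j : ℕ) :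
    f (zz s j) = zz (fun i => f (s i)) j := by
  simp [zz, map_up, map_dn]

theorem IsBraid.mono (h : IsBraid m s) {m' : ℕ} (hm : m' ≤ m) : IsBraid m' s :=
  ⟨fun i hi => h.braid i (by omega), fun i j hij hj => h.comm i j hij (by omega)⟩

theorem IsBraid.shift (h : IsBraid m s) {d m' : ℕ} (hm : m' + d ≤ m) :
    IsBraid m' (fun i => s (i + d)) where
  braid i hi := by
    have := h.braid (i + d) (by omega)
    rwa [show i + d + 1 = i + 1 + d by omega] at this
  comm i j hij hj := h.comm _ _ (by omega) (by omega)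

theorem IsBraid.up_commute (h : IsBraid m s) {j c : ℕ} (hj : j + 1 ≤ c) (hc : c < m) :
    Commute (up s j) (s c) := by
  induction j with
  | zero => exact Commute.one_left _
  | succ j ih => exact (ih (by omega)).mul_left (h.commute (by omega) hc (by omega))

theorem IsBraid.dn_commute (h : IsBraid m s) {j c : ℕ} (hj : j + 1 ≤ c) (hc : c < m) :
    Commute (dn s j) (s c) := by
  induction j with
  | zero => exact Commute.one_left _
  | succ j ih => exact (h.commute (by omega) hc (by omega)).mul_left (ih (by omega))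

theorem IsBraid.up_conj (h : IsBraid m s) {i j : ℕ} (hij : i + 2 ≤ j) (hj : j ≤ m) :
    up s j * s i = s (i + 1) * up s j := by
  induction j, hij using Nat.le_induction with
  | base =>
    have h1 := h.braid i (by omega)
    have h2 := (h.up_commute (j := i) (c := i + 1) le_rfl (by omega)).eq
    simp only [up, mul_assoc] at h1 ⊢
    rw [h1, ← mul_assoc, h2, mul_assoc]
  | succ j hij ih =>
    rw [up, mul_assoc, (h.commute (i := j) (j := i) (by omega) (by omega) (by omega)).eq,
      ← mul_assoc, ih (by omega), mul_assoc]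

theorem IsBraid.dn_conj (h : IsBraid m s) {i j : ℕ} (hij : i + 2 ≤ j) (hj : j ≤ m) :
    dn s j * s (i + 1) = s i * dn s j := by
  induction j, hij using Nat.le_induction with
  | base =>
    have h1 := h.braid i (by omega)
    have h2 := (h.dn_commute (j := i) (c := i + 1) le_rfl (by omega)).eq
    simp only [dn, mul_assoc] at h1 ⊢
    rw [h2, ← mul_assoc, ← mul_assoc, ← mul_assoc, ← mul_assoc, mul_assoc (s (i + 1)), ← h1]
    simp only [mul_assoc]
  | succ j hij ih =>
    rw [dn, mul_assoc, ih (by omega), ← mul_assoc,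
      (h.commute (i := j) (j := i) (by omega) (by omega) (by omega)).eq, mul_assoc]

theorem IsBraid.zz_commute (h : IsBraid m s) {i : ℕ} (hi : i + 1 < m) :
    Commute (zz s m) (s (i + 1)) := by
  unfold zz Commute SemiconjBy
  rw [mul_assoc, h.dn_conj hi le_rfl, ← mul_assoc, h.up_conj hi le_rfl, mul_assoc]

theorem IsBraid.up_sq (h : IsBraid m s) {j : ℕ} (hj : j < m) :
    up s (j + 1) * up s (j + 1) * s j = s 0 * (up s (j + 1) * up s (j + 1)) := by
  induction j with
  | zero => simp [up, mul_assoc]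
  | succ j ih =>
    have h0 := ih (by omega)
    have h1 := h.braid j hj
    have h2 := (h.up_commute (j := j) (c := j + 1) le_rfl hj).eq
    have e : up s (j + 1 + 1) * up s (j + 1 + 1)
        = up s (j + 1) * up s (j + 1) * (s (j + 1) * s j) := by
      conv_lhs => rw [up, up]
      conv_rhs => rw [up]
      calc up s j * s j * s (j + 1) * (up s j * s j * s (j + 1))
          = up s j * s j * (s (j + 1) * up s j) * s j * s (j + 1) := by simp only [mul_assoc]
        _ = up s j * s j * up s j * (s (j + 1) * s j * s (j + 1)) := by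
          rw [← h2]; simp only [mul_assoc]
        _ = _ := by rw [← h1]; simp only [mul_assoc]
    rw [e, ← mul_assoc (s 0), ← h0]
    simp only [mul_assoc] at h1 ⊢
    rw [h1]

theorem IsBraid.up_pow_conj (h : IsBraid m s) {i j : ℕ} (hij : i + j < m) :
    up s m ^ j * s i = s (i + j) * up s m ^ j := by
  induction j with
  | zero => simp
  | succ j ih =>
    rw [pow_succ', mul_assoc, ih (by omega), ← mul_assoc, h.up_conj (by omega) le_rfl, mul_assoc]
    rfl

theorem IsBraid.up_wrap (h : IsBraid m s) (hm : 1 ≤ m) {j : ℕ} (h2 : 2 ≤ j) (hj : j ≤ m + 1) :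
    s 0 * up s m ^ j = up s m ^ j * s (m + 1 - j) := by
  obtain ⟨j, rfl⟩ : ∃ j', j = j' + 2 := ⟨j - 2, by omega⟩
  obtain ⟨m, rfl⟩ : ∃ m', m = m' + 1 := ⟨m - 1, by omega⟩
  have h1 := h.up_pow_conj (i := m + 1 + 1 - (j + 2)) (j := j) (by omega)
  rw [show m + 1 + 1 - (j + 2) + j = m by omega] at h1
  rw [add_comm j 2, pow_add, mul_assoc, add_comm 2 j, h1, ← mul_assoc, ← mul_assoc, pow_two,
    h.up_sq (j := m) (by omega)]

theorem IsBraid.up_central (h : IsBraid m s) {i : ℕ} (hi : i < m) :
    Commute (up s m ^ (m + 1)) (s i) := by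
  have h1 := h.up_wrap (by omega) (j := m + 1 - i) (by omega) (by omega)
  rw [show m + 1 - (m + 1 - i) = i by omega] at h1
  have h2 := h.up_pow_conj (i := 0) (j := i) (by omega)
  unfold Commute SemiconjBy
  rw [show m + 1 = i + (m + 1 - i) by omega, pow_add, mul_assoc, ← h1, ← mul_assoc, h2, zero_add,
    mul_assoc]

theorem up_mem {H : Subgroup G} {j : ℕ} (hs : ∀ i < j, s i ∈ H) : up s j ∈ H := by
  induction j with
  | zero => exact one_mem _
  | succ j ih => exact mul_mem (ih fun i hi => hs i (by omega)) (hs j (by omega))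

/-- A subgroup containing the first generator and the ascending product contains all
generators. -/
theorem IsBraid.mem_of_up (h : IsBraid m s) {H : Subgroup G} (h0 : s 0 ∈ H) (hu : up s m ∈ H)
    {i : ℕ} (hi : i < m) : s i ∈ H := by
  have h1 := h.up_pow_conj (i := 0) (j := i) (by omega)
  rw [zero_add, ← mul_inv_eq_iff_eq_mul] at h1
  rw [← h1]
  exact mul_mem (mul_mem (pow_mem hu _) h0) (inv_mem (pow_mem hu _))

theorem IsBraid.tau_commute_zero (h : IsBraid m s) (hm : 2 ≤ m) : Commute (tau s) (s 0) := by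
  have h1 := h.braid 0 hm
  simp only [zero_add, mul_assoc] at h1
  have h1' : ∀ y, s 0 * (s 1 * (s 0 * y)) = s 1 * (s 0 * (s 1 * y)) := fun y => by
    simp only [← mul_assoc] at h1 ⊢
    rw [h1]
  unfold tau Commute SemiconjBy
  simp only [mul_assoc]
  rw [h1, h1' (s 0 * s 1)]

theorem IsBraid.tau_commute (h : IsBraid m s) {c : ℕ} (h3 : 3 ≤ c) (hc : c < m) :
    Commute (tau s) (s c) := by
  have h0 : Commute (s 0) (s c) := h.commute (by omega) hc (by omega)
  have h1 : Commute (s 1) (s c) := h.commute (by omega) hc (by omega)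
  exact ((h1.mul_left h0).mul_left h0).mul_left h1

theorem IsBraid.tau_four (h : IsBraid m s) (hm : 3 ≤ m) :
    tau s * s 2 * tau s * s 2 = s 2 * tau s * s 2 * tau s := by
  have hab : ∀ y, s 0 * (s 1 * (s 0 * y)) = s 1 * (s 0 * (s 1 * y)) := fun y => by
    have := h.braid 0 (by omega)
    simp only [← mul_assoc, this, zero_add]
  have hbc : ∀ y, s 1 * (s 2 * (s 1 * y)) = s 2 * (s 1 * (s 2 * y)) := fun y => by
    have := h.braid 1 (by omega)
    simp only [← mul_assoc, this]
  have hac : ∀ y, s 0 * (s 2 * y) = s 2 * (s 0 * y) := fun y => by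
    have := h.comm 0 2 le_rfl (by omega)
    simp only [← mul_assoc, this]
  have key : Commute (s 2 * tau s * s 2) (tau s) := by
    have c0 : Commute (s 2 * tau s * s 2) (s 0) :=
      ((h.commute (by omega) (by omega) (by omega)).mul_left (h.tau_commute_zero (by omega))).mul_left
        (h.commute (by omega) (by omega) (by omega))
    have c1 : Commute (s 2 * tau s * s 2) (s 1) := by
      unfold tau Commute SemiconjBy
      have e := hbc 1
      simp only [mul_one] at e
      simp only [mul_assoc]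
      rw [e, hbc, hac, hac, ← hbc]
    exact ((c1.mul_right c0).mul_right c0).mul_right c1
  have := key.eq
  simp only [mul_assoc] at this ⊢
  exact this.symm

/-- Moving one generator to the top position. -/
theorem IsBraid.exists_top (h : IsBraid m s) {a j : ℕ} (ha : a ≤ j) (hj : j < m) :
    ∃ g : G, g * s a = s j * g ∧ (∀ b, b + 2 ≤ a → g * s b = s b * g) ∧
      (∀ b, a + 2 ≤ b → b ≤ j → g * s b = s (b - 2) * g) ∧
      (∀ b, j + 2 ≤ b → b < m → g * s b = s b * g) ∧
      (a + 1 ≤ j → j + 1 < m → ∃ g', g = s (j - 1) * s j * g' ∧ g' * s (j + 1) = s (j + 1) * g') := by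
  induction j, ha using Nat.le_induction with
  | base =>
    exact ⟨1, by simp, by simp, fun b h1 h2 => by omega, by simp, fun h1 => by omega⟩
  | succ j haj ih =>
    obtain ⟨g, g1, g2, g3, g4, g5⟩ := ih (by omega)
    have hb := h.braid j hj
    refine ⟨s j * s (j + 1) * g, ?_, ?_, ?_, ?_, ?_⟩
    · rw [mul_assoc, g1, ← mul_assoc, hb]
      simp only [mul_assoc]
    · intro b hb'
      rw [mul_assoc, g2 b hb', ← mul_assoc, (((h.commute (i := j) (j := b) (by omega) (by omega)
        (by omega))).mul_left (h.commute hj (by omega) (by omega))).eq, mul_assoc]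
    · intro b hb1 hb2
      by_cases hbj : b ≤ j
      · rw [mul_assoc, g3 b hb1 hbj, ← mul_assoc, (((h.commute (i := j) (j := b - 2) (by omega)
          (by omega) (by omega))).mul_left (h.commute hj (by omega) (by omega))).eq, mul_assoc]
      · obtain rfl : b = j + 1 := by omega
        obtain ⟨g', rfl, g6⟩ := g5 (by omega) hj
        obtain ⟨i, rfl⟩ : ∃ i, j = i + 1 := ⟨j - 1, by omega⟩
        have hab : ∀ y, s i * (s (i + 1) * (s i * y)) = s (i + 1) * (s i * (s (i + 1) * y)) :=
          fun y => by simp only [← mul_assoc, h.braid i (by omega)]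
        have hbc : ∀ y, s (i + 1) * (s (i + 1 + 1) * (s (i + 1) * y))
            = s (i + 1 + 1) * (s (i + 1) * (s (i + 1 + 1) * y)) :=
          fun y => by simp only [← mul_assoc, hb]
        have hac : ∀ y, s i * (s (i + 1 + 1) * y) = s (i + 1 + 1) * (s i * y) :=
          fun y => by simp only [← mul_assoc, h.comm i (i + 1 + 1) le_rfl hj]
        simp only [Nat.add_sub_cancel, show i + 1 + 1 - 2 = i by omega, mul_assoc, g6]
        rw [← hac, ← hbc, ← hab, hac]
    · intro b hb1 hb2
      rw [mul_assoc, g4 b (by omega) hb2, ← mul_assoc, (((h.commute (i := j) (j := b) (by omega)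
        hb2 (by omega))).mul_left (h.commute hj hb2 (by omega))).eq, mul_assoc]
    · intro _ hj2
      exact ⟨g, by simp, g4 _ le_rfl hj2⟩

theorem IsBraid.exists_conj_aux (h : IsBraid m s) (l : List ℕ) : ∀ (l' : List ℕ) (j : ℕ),
    j ≤ m + 1 → l.length = l'.length → l.Pairwise Fa → l'.Pairwise Fa → (∀ a ∈ l, a + 2 ≤ j) →
    (∀ a ∈ l', a + 2 ≤ j) → ∃ g : G, List.Forall₂ (fun a b => g * s a = s b * g) l l' ∧
      ∀ c, j ≤ c → c < m → g * s c = s c * g := by
  induction hn : l.length generalizing l with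
  | zero =>
    intro l' j _ hl _ _ _ _
    obtain rfl := List.length_eq_zero_iff.1 hn
    obtain rfl := List.length_eq_zero_iff.1 hl.symm
    exact ⟨1, List.Forall₂.nil, by simp⟩
  | succ n ih =>
    intro l' j hj hl hf hf' hr hr'
    obtain ⟨a, l, rfl⟩ := List.exists_cons_of_length_eq_add_one hn
    obtain ⟨a', l', rfl⟩ := List.exists_cons_of_length_eq_add_one hl.symm
    obtain ⟨j, rfl⟩ : ∃ j', j = j' + 2 := ⟨j - 2, by have := hr a (by simp); omega⟩
    have key : ∀ (a : ℕ) (l : List ℕ), (a :: l).Pairwise Fa → (∀ b ∈ a :: l, b + 2 ≤ j + 2) →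
        ∃ (g : G) (f : ℕ → ℕ), g * s a = s j * g ∧ (∀ b ∈ l, g * s b = s (f b) * g) ∧
          (l.map f).Pairwise Fa ∧ (∀ b ∈ l.map f, b + 2 ≤ j) ∧
          ∀ c, j + 2 ≤ c → c < m → g * s c = s c * g := by
      intro a l hf hr
      rw [List.pairwise_cons] at hf
      have ha := hr a (by simp)
      obtain ⟨g, g1, g2, g3, g4, -⟩ := h.exists_top (a := a) (j := j) (by omega) (by omega)
      refine ⟨g, fun b => if b ≤ a then b else b - 2, g1, ?_, ?_, ?_, g4⟩
      · intro b hb
        have h1 := hf.1 b hb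
        have h2 := hr b (by simp [hb])
        unfold Fa at h1
        beta_reduce
        split_ifs with h3
        · exact g2 b (by omega)
        · exact g3 b (by omega) (by omega)
      · rw [List.pairwise_map]
        refine List.Pairwise.imp_of_mem ?_ hf.2
        intro b c hb hc hbc
        have h1 := hf.1 b hb
        have h2 := hf.1 c hc
        unfold Fa at *
        split_ifs <;> omega
      · intro b hb
        obtain ⟨c, hc, rfl⟩ := List.mem_map.1 hb
        have h1 := hf.1 c hc
        have h2 := hr c (by simp [hc])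
        unfold Fa at h1
        split_ifs <;> omega
    obtain ⟨g, f, g1, g2, g3, g4, g5⟩ := key a l hf hr
    obtain ⟨g', f', g1', g2', g3', g4', g5'⟩ := key a' l' hf' hr'
    simp only [List.length_cons, Nat.add_right_cancel_iff] at hn hl
    obtain ⟨u, u1, u2⟩ := ih (l.map f) (by simpa using hn) (l'.map f') j (by omega)
      (by simpa using hl) g3 g3' g4 g4'
    have inv : ∀ {x y : G}, g' * x = y * g' → g'⁻¹ * y = x * g'⁻¹ := by
      intro x y hxy
      rw [inv_mul_eq_iff_eq_mul, ← mul_assoc, hxy, mul_inv_cancel_right]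
    refine ⟨g'⁻¹ * u * g, List.Forall₂.cons ?_ ?_, ?_⟩
    · rw [mul_assoc, g1, ← mul_assoc, mul_assoc g'⁻¹, u2 j (by omega) (by omega), ← mul_assoc,
        inv g1']
      simp only [mul_assoc]
    · rw [List.forall₂_map_left_iff, List.forall₂_map_right_iff] at u1
      rw [List.forall₂_iff_zip] at u1 ⊢
      refine ⟨u1.1, fun {b c} hbc => ?_⟩
      rw [mul_assoc, g2 b (List.of_mem_zip hbc).1, ← mul_assoc, mul_assoc g'⁻¹, u1.2 hbc,
        ← mul_assoc, inv (g2' c (List.of_mem_zip hbc).2)]
      simp only [mul_assoc]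
    · intro c hc1 hc2
      rw [mul_assoc, g5 c hc1 hc2, ← mul_assoc, mul_assoc g'⁻¹, u2 c (by omega) hc2, ← mul_assoc,
        inv (g5' c hc1 hc2)]
      simp only [mul_assoc]

/-- Any two lists of commuting generators of the same length are conjugate. -/
theorem IsBraid.exists_conj (h : IsBraid m s) {l l' : List ℕ} (hl : l.length = l'.length)
    (hf : l.Pairwise Fa) (hf' : l'.Pairwise Fa) (hr : ∀ a ∈ l, a < m) (hr' : ∀ a ∈ l', a < m) :
    ∃ g : G, List.Forall₂ (fun a b => g * s a = s b * g) l l' := by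
  obtain ⟨g, hg, -⟩ := h.exists_conj_aux l l' (m + 1) le_rfl hl hf hf'
    (fun a ha => by have := hr a ha; omega) (fun a ha => by have := hr' a ha; omega)
  exact ⟨g, hg⟩

theorem IsBraid.exists_conj_two (h : IsBraid m s) {a b a' b' : ℕ} (ha : a < m) (hb : b < m)
    (ha' : a' < m) (hb' : b' < m) (hab : Fa a b) (hab' : Fa a' b') :
    ∃ g : G, g * s a = s a' * g ∧ g * s b = s b' * g := by
  obtain ⟨g, hg⟩ := h.exists_conj (l := [a, b]) (l' := [a', b']) rfl (by simpa using hab)
    (by simpa using hab') (by simp [ha, hb]) (by simp [ha', hb'])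
  exact ⟨g, by simpa using hg⟩

/-- A pair of adjacent generators together with a commuting one is conjugate to the standard
such configuration. -/
theorem IsBraid.exists_conj_adj (h : IsBraid m s) {a b : ℕ} (ha : a + 1 < m) (hb : b < m)
    (hab : a + 3 ≤ b ∨ b + 2 ≤ a) :
    ∃ g : G, g * s 0 = s a * g ∧ g * s 1 = s (a + 1) * g ∧ g * s (m - 1) = s b * g := by
  obtain ⟨g, g1, g2, g3, -, -⟩ := h.exists_top (a := b) (j := m - 1) (by omega) (by omega)
  obtain ⟨c, hc, c1, c2⟩ : ∃ c, c + 3 ≤ m - 1 ∧ g * s a = s c * g ∧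
      g * s (a + 1) = s (c + 1) * g := by
    rcases hab with hab | hab
    · exact ⟨a, by omega, g2 a (by omega), g2 _ (by omega)⟩
    · refine ⟨a - 2, by omega, g3 a hab (by omega), ?_⟩
      rw [g3 (a + 1) (by omega) (by omega), show a + 1 - 2 = a - 2 + 1 by omega]
  have h' := h.mono (m' := m - 2) (by omega)
  have u0 := h'.up_pow_conj (i := 0) (j := c) (by omega)
  have u1 := h'.up_pow_conj (i := 1) (j := c) (by omega)
  have u2 := ((h.up_commute (j := m - 2) (c := m - 1) (by omega) (by omega)).pow_left c).eq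
  rw [zero_add] at u0
  rw [add_comm] at u1
  have inv : ∀ {x y : G}, g * x = y * g → g⁻¹ * y = x * g⁻¹ := by
    intro x y hxy
    rw [inv_mul_eq_iff_eq_mul, ← mul_assoc, hxy, mul_inv_cancel_right]
  refine ⟨g⁻¹ * up s (m - 2) ^ c, ?_, ?_, ?_⟩
  · rw [mul_assoc, u0, ← mul_assoc, inv c1, mul_assoc]
  · rw [mul_assoc, u1, ← mul_assoc, inv c2, mul_assoc]
  · rw [mul_assoc, u2, ← mul_assoc, inv g1, mul_assoc]

end Group

section Ring
variable {R : Type*} [Ring R] {m : ℕ} {t : ℕ → Rˣ}

theorem conj_N {g : Rˣ} {a b : ℕ} (hg : g * t a = t b * g) :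
    (g : R) * N t a = N t b * g := by
  have := congrArg Units.val hg
  simp only [Units.val_mul] at this
  simp only [N, mul_sub, sub_mul, this, mul_one, one_mul]

theorem IsBraid.commute_tN (h : IsBraid m t) {a b : ℕ} (ha : a < m) (hb : b < m) (hab : Fa a b) :
    Commute (t a : R) (N t b) :=
  (h.val.commute ha hb hab).sub_right (Commute.one_right _)

theorem IsBraid.commute_NN (h : IsBraid m t) {a b : ℕ} (ha : a < m) (hb : b < m) (hab : Fa a b) :
    Commute (N t a) (N t b) :=
  (h.commute_tN ha hb hab).sub_left (Commute.one_left _)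

theorem commute_tN_self (a : ℕ) : Commute (t a : R) (N t a) :=
  (Commute.refl _).sub_right (Commute.one_right _)

/-- Products of three commuting `N` vanish. -/
def Cube (m : ℕ) (t : ℕ → Rˣ) : Prop :=
  ∀ a < m, ∀ b < m, ∀ c < m, Fa a b → Fa a c → Fa b c → N t a * N t b * N t c = 0

theorem IsBraid.NN_eq_zero (h : IsBraid m t) (h0 : N t 0 * N t 2 = 0) {a b : ℕ} (ha : a < m)
    (hb : b < m) (hab : Fa a b) : N t a * N t b = 0 := by
  have hm : 2 < m := by unfold Fa at hab; omega
  obtain ⟨g, g1, g2⟩ := h.exists_conj_two (a := 0) (b := 2) (by omega) hm ha hb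
    (Or.inl le_rfl) hab
  refine (zero_iff_of_conj (u := g) ?_).1 h0
  rw [← mul_assoc, conj_N g1, mul_assoc, conj_N g2, mul_assoc]

theorem IsBraid.ZN_eq_zero (h : IsBraid m t) (h0 : Z t 0 * N t (m - 1) = 0) {a b : ℕ}
    (ha : a + 1 < m) (hb : b < m) (hab : a + 3 ≤ b ∨ b + 2 ≤ a) : Z t a * N t b = 0 := by
  obtain ⟨g, g1, g2, g3⟩ := h.exists_conj_adj ha hb hab
  refine (zero_iff_of_conj (u := g) ?_).1 h0
  have e1 : ∀ y, (g : R) * (N t 0 * y) = N t a * (g * y) := fun y => by
    rw [← mul_assoc, conj_N g1, mul_assoc]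
  have e2 : ∀ y, (g : R) * (N t 1 * y) = N t (a + 1) * (g * y) := fun y => by
    rw [← mul_assoc, conj_N g2, mul_assoc]
  simp only [Z, mul_add, add_mul, mul_assoc, zero_add, e1, e2, conj_N g3]

end Ring

section Six
variable {K V : Type*} [Field K] [AddCommGroup V] [Module K V] [FiniteDimensional K V]

theorem deg_one_kills [IsAlgClosed K] (d : ℕ) : ∀ (V : Type*) [AddCommGroup V] [Module K V]
    [FiniteDimensional K V] (ρ : Representation K (BraidGroup 6) V), finrank K V = d →
    (∀ a b, a + 2 ≤ b → b < 5 → (ρ (gen 6 a) - 1) * (ρ (gen 6 b) - 1) = 0) →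
    ∃ k, ∀ g ∈ NS (gen 6) k, ρ g = 1 := by
  induction d using Nat.strong_induction_on with
  | _ d ih =>
  intro V _ _ _ ρ hd hNN
  let ρ' : BraidGroup 6 →* (End K V)ˣ := MonoidHom.toHomUnits ρ
  have ht : IsBraid 5 (fun i => ρ' (gen 6 i)) := (gen_braid 6).map ρ'
  by_cases hirr : Irr 5 (fun i => ρ' (gen 6 i))
  · have hc : Commute (cA fun i => ρ' (gen 6 i)) (cB fun i => ρ' (gen 6 i)) := by
      by_cases hZ : Z (fun i => ρ' (gen 6 i)) 0 = 0
      · exact ht.burau le_rfl hirr hNN hZ
      · exact ht.tym le_rfl hirr hNN hZ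
    rw [← map_cA, ← map_cB] at hc
    refine ⟨0, fun g hg => ?_⟩
    have hle : NS (gen 6) 0 ≤ ρ'.ker := by
      refine Subgroup.normalClosure_le_normal ?_
      rintro _ rfl
      rw [SetLike.mem_coe, MonoidHom.mem_ker, map_commutatorElement]
      exact commutatorElement_eq_one_iff_commute.2 hc
    exact congrArg Units.val (hle hg)
  · unfold Irr at hirr
    push Not at hirr
    obtain ⟨W, hW, hW0, hW1⟩ := hirr
    have hinv : ∀ g, W ≤ W.comap (ρ g) := by
      intro g x hx
      have := gen_top 6 ((stabS W).comap ρ') hW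
      have hg : g ∈ (stabS W).comap ρ' := this ▸ Subgroup.mem_top g
      exact hg x hx
    have hsum := Submodule.finrank_quotient_add_finrank W
    have hp0 : finrank K W ≠ 0 := fun h0 => hW0 (Submodule.finrank_eq_zero.1 h0)
    have hp1 : finrank K W < finrank K V := Submodule.finrank_lt hW1
    obtain ⟨k1, hk1⟩ := ih (finrank K W) (by omega) W (ρ.subrepresentation W hinv) rfl (by
      intro a b hab hb
      ext x
      exact LinearMap.congr_fun (hNN a b hab hb) x)
    obtain ⟨k2, hk2⟩ := ih (finrank K (V ⧸ W)) (by omega) (V ⧸ W) (ρ.quotient W hinv) rfl (by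
      intro a b hab hb
      ext x
      exact congrArg W.mkQ (LinearMap.congr_fun (hNN a b hab hb) x))
    have a1 : ∀ g ∈ NS (gen 6) (max k1 k2), ∀ x ∈ W, ρ g x = x := by
      intro g hg x hx
      have := LinearMap.congr_fun (hk1 g (NS_anti _ (le_max_left _ _) hg)) ⟨x, hx⟩
      exact congrArg Subtype.val this
    have a2 : ∀ g ∈ NS (gen 6) (max k1 k2), ∀ x, ρ g x - x ∈ W := by
      intro g hg x
      have := LinearMap.congr_fun (hk2 g (NS_anti _ (le_max_right _ _) hg)) (W.mkQ x)
      exact (Submodule.Quotient.eq W).1 this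
    refine ⟨max k1 k2 + 1, fun g hg => ?_⟩
    have hle : NS (gen 6) (max k1 k2 + 1) ≤ ρ'.ker := by
      refine Subgroup.commutator_le.2 fun g1 h1 g2 h2 => ?_
      rw [MonoidHom.mem_ker, map_commutatorElement, commutatorElement_eq_one_iff_commute,
        ← Commute.units_val_iff]
      ext x
      change ρ g1 (ρ g2 x) = ρ g2 (ρ g1 x)
      have e1 := a1 g1 h1 _ (a2 g2 h2 x)
      have e2 := a1 g2 h2 _ (a2 g1 h1 x)
      rw [map_sub] at e1 e2
      rw [sub_eq_iff_eq_add.1 e1, sub_eq_iff_eq_add.1 e2]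
      abel
    exact congrArg Units.val (hle hg)

theorem stabS_of_gen (φ : BraidGroup 6 →* (End K V)ˣ) {U : Submodule K V}
    (hU : ∀ i < 5, φ (gen 6 i) ∈ stabS U) (g : BraidGroup 6) : φ g ∈ stabS U := by
  have := gen_top 6 ((stabS U).comap φ) hU
  have hg : g ∈ (stabS U).comap φ := this ▸ Subgroup.mem_top g
  exact hg

/-- An invariant subspace of degree at most one is fixed by a term of the series. -/
theorem fix_of_deg_one [IsAlgClosed K] (φ : BraidGroup 6 →* (End K V)ˣ) {U : Submodule K V}
    (hU : ∀ i < 5, φ (gen 6 i) ∈ stabS U)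
    (hN : ∀ a b, a + 2 ≤ b → b < 5 → ∀ y ∈ U,
      N (fun i => φ (gen 6 i)) a (N (fun i => φ (gen 6 i)) b y) = 0) :
    ∃ k, ∀ g ∈ NS (gen 6) k, ∀ y ∈ U, (φ g : End K V) y = y := by
  let ρ : Representation K (BraidGroup 6) V := (Units.coeHom _).comp φ
  have hinv : ∀ g, U ≤ U.comap (ρ g) := fun g x hx => stabS_of_gen φ hU g x hx
  obtain ⟨k, hk⟩ := deg_one_kills _ U (ρ.subrepresentation U hinv) rfl (by
    intro a b hab hb
    ext x
    exact hN a b hab hb x x.2)
  exact ⟨k, fun g hg y hy => congrArg Subtype.val (LinearMap.congr_fun (hk g hg) ⟨y, hy⟩)⟩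

/-- A term of the series acts trivially modulo an invariant subspace containing the degree two
part. -/
theorem sub_mem_of_deg_one [IsAlgClosed K] (φ : BraidGroup 6 →* (End K V)ˣ) {W : Submodule K V}
    (hW : ∀ i < 5, φ (gen 6 i) ∈ stabS W)
    (hN : ∀ a b, a + 2 ≤ b → b < 5 → ∀ y,
      N (fun i => φ (gen 6 i)) a (N (fun i => φ (gen 6 i)) b y) ∈ W) :
    ∃ k, ∀ g ∈ NS (gen 6) k, ∀ y, (φ g : End K V) y - y ∈ W := by
  let ρ : Representation K (BraidGroup 6) V := (Units.coeHom _).comp φ
  have hinv : ∀ g, W ≤ W.comap (ρ g) := fun g x hx => stabS_of_gen φ hW g x hx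
  obtain ⟨k, hk⟩ := deg_one_kills _ (V ⧸ W) (ρ.quotient W hinv) rfl (by
    intro a b hab hb
    ext x
    exact (Submodule.Quotient.mk_eq_zero W).2 (hN a b hab hb x))
  exact ⟨k, fun g hg y => (Submodule.Quotient.eq W).1 (LinearMap.congr_fun (hk g hg) (W.mkQ y))⟩

/-- Deep terms of the series on the right block of six strands commute with those on the twisted
left block. -/
def TwoBlock (t : ℕ → (End K V)ˣ) : Prop :=
  ∀ φL φR : BraidGroup 6 →* (End K V)ˣ, (∀ i < 5, φL (gen 6 i) = t i) →
    (∀ i < 5, φR (gen 6 i) = t (i + 6)) → ∃ k, ∀ g ∈ NS (gen 6) k, ∀ g' ∈ NS (gen 6) k,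
      Commute (φR g) (t 5 * t 5 * φL g' * (t 5 * t 5)⁻¹)

/-- The cubic factor `(t a + q) (t a - 1)`. -/
def ff (t : ℕ → (End K V)ˣ) (q : K) (a : ℕ) : End K V := ((t a : End K V) + q • 1) * N t a

/-- Vectors supported on the first two strands. -/
def InF (m : ℕ) (t : ℕ → (End K V)ˣ) (x : V) : Prop :=
  (∀ j, 2 ≤ j → j < m → (t j : End K V) x = x) ∧
    (t 2 : End K V) (((tau t : (End K V)ˣ) : End K V) x) = ((tau t : (End K V)ˣ) : End K V) x

section Fix
variable {m : ℕ} {t : ℕ → (End K V)ˣ}
omit [FiniteDimensional K V]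

theorem units_commute_apply {g g' : (End K V)ˣ} (h : Commute g g') (x : V) :
    (g : End K V) ((g' : End K V) x) = (g' : End K V) ((g : End K V) x) := by
  rw [← Module.End.mul_apply, ← Units.val_mul, h.eq, Units.val_mul, Module.End.mul_apply]

theorem N_apply (a : ℕ) (x : V) : N t a x = (t a : End K V) x - x := by simp [N]

theorem ff_apply (q : K) (a : ℕ) (x : V) :
    ff t q a x = (t a : End K V) (N t a x) + q • N t a x := by simp [ff]

theorem tau_apply (x : V) : ((tau t : (End K V)ˣ) : End K V) x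
    = (t 1 : End K V) ((t 0 : End K V) ((t 0 : End K V) ((t 1 : End K V) x))) := by
  simp [tau]

theorem conj_ff {g : (End K V)ˣ} (q : K) {a b : ℕ} (hg : g * t a = t b * g) :
    (g : End K V) * ff t q a = ff t q b * g := by
  have := congrArg Units.val hg
  simp only [Units.val_mul] at this
  rw [ff, ff, ← mul_assoc, mul_assoc _ (N t b), ← conj_N hg, ← mul_assoc, mul_add, add_mul _ _ (g : End K V), this]
  simp

theorem commute_ff {g : (End K V)ˣ} (q : K) {a : ℕ} (hg : Commute g (t a)) :
    Commute (g : End K V) (ff t q a) := conj_ff q hg.eq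

theorem InF.t_zero (h : IsBraid m t) (hm : 3 ≤ m) {x : V} (hx : InF m t x) :
    InF m t ((t 0 : End K V) x) := by
  refine ⟨fun j h2 hj => ?_, ?_⟩
  · rw [units_commute_apply (h.commute hj (by omega) (by omega)), hx.1 j h2 hj]
  · rw [units_commute_apply (h.tau_commute_zero (by omega)),
      units_commute_apply (h.commute (i := 2) (j := 0) (by omega) (by omega) (by omega)), hx.2]

theorem InF.tau (h : IsBraid m t) (hm : 3 ≤ m) {x : V} (hx : InF m t x) :
    InF m t (((tau t : (End K V)ˣ) : End K V) x) := by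
  refine ⟨fun j h2 hj => ?_, ?_⟩
  · rcases h2.eq_or_lt with rfl | h3
    · exact hx.2
    · rw [← units_commute_apply (h.tau_commute h3 hj), hx.1 j h2 hj]
  · have := LinearMap.congr_fun (congrArg Units.val (h.tau_four hm)) x
    simp only [Units.val_mul, Module.End.mul_apply] at this
    rw [hx.1 2 le_rfl (by omega), hx.2] at this
    exact this.symm

theorem InF.ff (h : IsBraid m t) (hm : 3 ≤ m) {q : K}
    (hf : ∀ a < m, ∀ b < m, Fa a b → ff t q a * N t b = 0) (v : V) : InF m t (ff t q 0 v) := by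
  have key : ∀ j, 2 ≤ j → j < m → ∀ v, (t j : End K V) (MP_b64966_al.ff t q 0 v)
      = MP_b64966_al.ff t q 0 v := by
    intro j h2 hj v
    have h1 := LinearMap.congr_fun (hf 0 (by omega) j hj (Or.inl h2)) v
    have hc := (commute_ff q (h.commute hj (by omega) (Or.inr h2))).eq
    rw [Module.End.mul_apply, N_apply, map_sub, ← Module.End.mul_apply, ← hc,
      LinearMap.zero_apply, sub_eq_zero] at h1
    exact h1
  refine ⟨fun j h2 hj => key j h2 hj v, ?_⟩
  rw [← Module.End.mul_apply _ (MP_b64966_al.ff t q 0),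
    (commute_ff q (h.tau_commute_zero (by omega))).eq, Module.End.mul_apply, key 2 le_rfl hm]

theorem InF.add {x y : V} (hx : InF m t x) (hy : InF m t y) : InF m t (x + y) :=
  ⟨fun j h2 hj => by rw [map_add, hx.1 j h2 hj, hy.1 j h2 hj], by
    rw [map_add, map_add, hx.2, hy.2]⟩

theorem InF.smul {x : V} (c : K) (hx : InF m t x) : InF m t (c • x) :=
  ⟨fun j h2 hj => by rw [map_smul, hx.1 j h2 hj], by rw [map_smul, map_smul, hx.2]⟩

/-- On such vectors the ascending product acts through its first two letters. -/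
theorem up_apply_of_fix {j : ℕ} {x : V} {i : ℕ} (hij : i ≤ j)
    (hx : ∀ c, i ≤ c → c < j → (t c : End K V) x = x) :
    ((up t j : (End K V)ˣ) : End K V) x = ((up t i : (End K V)ˣ) : End K V) x := by
  induction j, hij using Nat.le_induction with
  | base => rfl
  | succ j hij ih =>
    rw [up, Units.val_mul, Module.End.mul_apply, hx j hij (by omega)]
    exact ih fun c h1 h2 => hx c h1 (by omega)

end Fix

omit [FiniteDimensional K V] in
theorem linearIndependent_of_block_tests {ι κ : Type*} [Fintype ι] [Fintype κ] (v : ι → κ → V)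
    (τ : ι → End K V) (w : ι → ℕ) (h1 : ∀ i, LinearIndependent K fun e => τ i (v i e))
    (h2 : ∀ i j e, τ i (v j e) ≠ 0 → i = j ∨ w i < w j) :
    LinearIndependent K fun p : ι × κ => v p.1 p.2 := by
  classical
  rw [Fintype.linearIndependent_iff]
  intro g hg
  by_contra hne
  push Not at hne
  obtain ⟨p0, hp0⟩ := hne
  obtain ⟨p, hp, hmax⟩ := Finset.exists_max_image (Finset.univ.filter fun p => g p ≠ 0)
    (fun p => w p.1) ⟨p0, by simpa using hp0⟩
  simp only [Finset.mem_filter, Finset.mem_univ, true_and] at hp hmax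
  have := congrArg (τ p.1) hg
  rw [map_sum, map_zero, Fintype.sum_prod_type, Finset.sum_eq_single p.1] at this
  · simp only [map_smul] at this
    exact hp (Fintype.linearIndependent_iff.1 (h1 p.1) (fun e => g (p.1, e)) this p.2)
  · intro j _ hji
    refine Finset.sum_eq_zero fun e _ => ?_
    rw [map_smul]
    by_cases hj : g (j, e) = 0
    · rw [hj, zero_smul]
    by_cases h0 : τ p.1 (v j e) = 0
    · rw [h0, smul_zero]
    rcases h2 p.1 j e h0 with h | h
    · exact absurd h.symm hji
    · exact absurd (hmax (j, e) hj) (by simpa using h)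
  · simp

/-- The doubled triangular count. -/
theorem double_count (n : ℕ) (E T : ℕ → ℕ → End K V)
    (h1 : ∀ i j, i < j → j < n → 2 ≤ finrank K (LinearMap.range (T i j * E i j)))
    (h2 : ∀ i j i' j', i < j → j < n → i' < j' → j' < n → T i j * E i' j' ≠ 0 →
      i ≤ i' ∧ j ≤ j') : n * (n - 1) ≤ finrank K V := by
  classical
  let ι : Type := Σ j : Fin n, Fin j
  have hex : ∀ p : ι, ∃ v : Fin 2 → V,
      LinearIndependent K fun e => T p.2 p.1 (E p.2 p.1 (v e)) := by
    intro p
    obtain ⟨f, hf⟩ := exists_linearIndependent_of_le_finrank (h1 p.2 p.1 p.2.2 p.1.2)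
    choose v hv using fun e => (f e).2
    refine ⟨v, ?_⟩
    have := hf.map' (Submodule.subtype _) (Submodule.ker_subtype _)
    have e : (fun e => T p.2 p.1 (E p.2 p.1 (v e))) = (Submodule.subtype _) ∘ f := funext hv
    rwa [e]
  choose v hv using hex
  have hli := linearIndependent_of_block_tests (K := K) (fun (p : ι) e => E p.2 p.1 (v p e))
    (fun p => T p.2 p.1) (fun p => p.1 + p.2) hv (by
      intro p p' e h0
      have h3 := h2 p.2 p.1 p'.2 p'.1 p.2.2 p.1.2 p'.2.2 p'.1.2 (fun h4 => h0 (by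
        rw [← Module.End.mul_apply, h4, LinearMap.zero_apply]))
      by_cases h5 : (p.1 : ℕ) + p.2 < p'.1 + p'.2
      · exact Or.inr h5
      · left
        obtain ⟨j, i⟩ := p
        obtain ⟨j', i'⟩ := p'
        simp only at h3 h5
        obtain rfl : j = j' := Fin.ext (by omega)
        obtain rfl : i = i' := Fin.ext (by omega)
        rfl)
  have := hli.fintype_card_le_finrank
  rw [Fintype.card_prod, Fintype.card_sigma] at this
  simp only [Fintype.card_fin] at this
  rwa [Fin.sum_univ_eq_sum_range (fun j => j) n, Finset.sum_range_id_mul_two] at this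

end Six

end Pool.Agent.MP_b64966_al
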