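import Pool.Agent.MP_b64966_al.SBase

namespace Pool.Agent.MP_b64966_al

open Module
open scoped commutatorElement

variable {K V : Type*} [Field K] [AddCommGroup V] [Module K V] [FiniteDimensional K V]
  {m : ℕ} {t : ℕ → (End K V)ˣ}

section Aux
omit [FiniteDimensional K V]

theorem sf_eq_apply {g g' : (End K V)ˣ} (h : g = g') (x : V) :
    (g : End K V) x = (g' : End K V) x := by rw [h]

theorem sf_mul_apply (g g' : (End K V)ˣ) (x : V) :
    ((g * g' : (End K V)ˣ) : End K V) x = (g : End K V) ((g' : End K V) x) := by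
  rw [Units.val_mul, Module.End.mul_apply]

theorem sf_conj_t {g : (End K V)ˣ} {a b : ℕ} (hg : g * t a = t b * g) (x : V) :
    (g : End K V) ((t a : End K V) x) = (t b : End K V) ((g : End K V) x) := by
  rw [← sf_mul_apply, hg, sf_mul_apply]

theorem sf_conj_N {g : (End K V)ˣ} {a b : ℕ} (hg : g * t a = t b * g) (x : V) :
    (g : End K V) (N t a x) = N t b ((g : End K V) x) := by
  rw [← Module.End.mul_apply, conj_N hg, Module.End.mul_apply]

theorem sf_inj (g : (End K V)ˣ) {x y : V} (h : (g : End K V) x = (g : End K V) y) : x = y := by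
  rw [← inv_apply_apply g x, h, inv_apply_apply]

theorem sf_N_zero {a : ℕ} {x : V} : N t a x = 0 ↔ (t a : End K V) x = x := by
  rw [N_apply, sub_eq_zero]

theorem IsBraid.sf_NN_comm (h : IsBraid m t) (hm : 3 ≤ m) (x : V) :
    N t 0 (N t 2 x) = N t 2 (N t 0 x) := by
  rw [← Module.End.mul_apply, (h.commute_NN (by omega) (by omega) (Or.inl le_rfl)).eq,
    Module.End.mul_apply]

theorem IsBraid.sf_NN_t0 (h : IsBraid m t) (hm : 3 ≤ m) {q : K}
    (hf : ∀ a < m, ∀ b < m, Fa a b → ff t q a * N t b = 0) (x : V) :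
    N t 0 (N t 2 ((t 0 : End K V) x)) = -q • N t 0 (N t 2 x) := by
  have h1 := LinearMap.congr_fun (hf 0 (by omega) 2 (by omega) (Or.inl le_rfl)) x
  rw [Module.End.mul_apply, ff_apply, LinearMap.zero_apply] at h1
  have c2 : t 0 * t 2 = t 2 * t 0 := h.comm 0 2 le_rfl (by omega)
  rw [← sf_conj_N c2, ← sf_conj_N (rfl : t 0 * t 0 = t 0 * t 0), neg_smul]
  exact eq_neg_of_add_eq_zero_left h1

theorem IsBraid.sf_braid (h : IsBraid m t) (hm : 2 ≤ m) (x : V) :
    (t 1 : End K V) ((t 0 : End K V) ((t 1 : End K V) x))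
      = (t 0 : End K V) ((t 1 : End K V) ((t 0 : End K V) x)) := by
  have := sf_eq_apply (h.braid 0 hm) x
  simp only [sf_mul_apply, zero_add] at this
  exact this.symm

theorem sf_up_apply (hm : 2 ≤ m) {x : V} (hx : ∀ j, 2 ≤ j → j < m → (t j : End K V) x = x) :
    ((up t m : (End K V)ˣ) : End K V) x = (t 0 : End K V) ((t 1 : End K V) x) := by
  rw [up_apply_of_fix hm hx]
  simp [up]

/-- The vectors of the fixed space killed by the test map. -/
def F0 (m : ℕ) (t : ℕ → (End K V)ˣ) : Submodule K V where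
  carrier := {x | InF m t x ∧ N t 0 (N t 2 ((t 1 : End K V) x)) = 0}
  add_mem' := fun {x y} hx hy =>
    ⟨hx.1.add hy.1, by rw [map_add, map_add, map_add, hx.2, hy.2, add_zero]⟩
  zero_mem' := ⟨⟨fun _ _ _ => by simp, by simp⟩, by simp⟩
  smul_mem' := fun c x hx =>
    ⟨hx.1.smul c, by rw [map_smul, map_smul, map_smul, hx.2, smul_zero]⟩

theorem mem_F0 {x : V} :
    x ∈ F0 m t ↔ InF m t x ∧ N t 0 (N t 2 ((t 1 : End K V) x)) = 0 := Iff.rfl

theorem IsBraid.F0_tau (h : IsBraid m t) (hm : 4 ≤ m) {x : V} (hx : x ∈ F0 m t) :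
    ((tau t : (End K V)ˣ) : End K V) x ∈ F0 m t := by
  refine ⟨hx.1.tau h (by omega), ?_⟩
  have hg : ∀ i, i ≤ 2 → (dn t 4 * up t 4) * t i = t i * (dn t 4 * up t 4) := by
    intro i hi
    rw [mul_assoc, h.up_conj (by omega) hm, ← mul_assoc, h.dn_conj (by omega) hm, mul_assoc]
  have e : dn t 4 * up t 4 = t 3 * t 2 * tau t * t 2 * t 3 := by
    simp [dn, up, tau, mul_assoc]
  have e2 : ((dn t 4 * up t 4 : (End K V)ˣ) : End K V) x
      = ((tau t : (End K V)ˣ) : End K V) x := by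
    rw [e]
    simp only [sf_mul_apply]
    rw [hx.1.1 3 (by omega) (by omega), hx.1.1 2 le_rfl (by omega), hx.1.2,
      ← units_commute_apply (h.tau_commute le_rfl (by omega)), hx.1.1 3 (by omega) (by omega)]
  rw [← e2, ← sf_conj_t (hg 1 (by omega)), ← sf_conj_N (hg 2 le_rfl), ← sf_conj_N (hg 0 (by omega)),
    hx.2, map_zero]

theorem IsBraid.F0_t0_tau (h : IsBraid m t) (hm : 4 ≤ m) {q : K}
    (hf : ∀ a < m, ∀ b < m, Fa a b → ff t q a * N t b = 0) {x : V} (hx : x ∈ F0 m t) :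
    (t 0 : End K V) (((tau t : (End K V)ˣ) : End K V) x) ∈ F0 m t := by
  refine ⟨(hx.1.tau h (by omega)).t_zero h (by omega), ?_⟩
  have hab : ∀ y, t 0 * (t 1 * (t 0 * y)) = t 1 * (t 0 * (t 1 * y)) := fun y => by
    have := h.braid 0 (by omega)
    simp only [← mul_assoc, this, zero_add]
  have hbc : ∀ y, t 1 * (t 2 * (t 1 * y)) = t 2 * (t 1 * (t 2 * y)) := fun y => by
    have := h.braid 1 (by omega)
    simp only [← mul_assoc, this]
  have hac : ∀ y, t 0 * (t 2 * y) = t 2 * (t 0 * y) := fun y => by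
    have := h.comm 0 2 le_rfl (by omega)
    simp only [← mul_assoc, this]
  have u0 : (t 1 * t 0 * t 2 * t 1) * t 0 = t 2 * (t 1 * t 0 * t 2 * t 1) := by
    have e := hab 1
    simp only [mul_one] at e
    simp only [mul_assoc]
    rw [hac (t 1), ← hbc, ← e, hac]
  have u2 : (t 1 * t 0 * t 2 * t 1) * t 2 = t 0 * (t 1 * t 0 * t 2 * t 1) := by
    have e := hbc 1
    simp only [mul_one] at e
    simp only [mul_assoc]
    rw [← e, hab]
  have e : (t 1 : End K V) ((t 0 : End K V) (((tau t : (End K V)ˣ) : End K V) x))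
      = ((t 1 * t 0 * t 2 * t 1 : (End K V)ˣ) : End K V)
        ((t 0 : End K V) ((t 0 : End K V) ((t 1 : End K V) x))) := by
    rw [← hx.1.2, tau_apply]
    simp only [sf_mul_apply]
  rw [e, ← sf_conj_N u0, ← sf_conj_N u2, ← h.sf_NN_comm (by omega), h.sf_NN_t0 (by omega) hf,
    h.sf_NN_t0 (by omega) hf, hx.2, smul_zero, smul_zero, map_zero]

end Aux

theorem IsBraid.F0_t0 (h : IsBraid m t) (hm : 4 ≤ m) {q : K}
    (hf : ∀ a < m, ∀ b < m, Fa a b → ff t q a * N t b = 0) : t 0 ∈ stabS (F0 m t) := by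
  have h1 : tau t ∈ stabS (F0 m t) := fun x hx => h.F0_tau hm hx
  have h2 : t 0 * tau t ∈ stabS (F0 m t) := fun x hx => by
    rw [sf_mul_apply]; exact h.F0_t0_tau hm hf hx
  have h3 := mul_mem h2 (inv_mem h1)
  rwa [mul_inv_cancel_right] at h3

theorem IsBraid.F0_b (h : IsBraid m t) (hm : 4 ≤ m) {q : K} (hq : q ≠ 0)
    (hf : ∀ a < m, ∀ b < m, Fa a b → ff t q a * N t b = 0) {x : V} (hx : x ∈ F0 m t) :
    ∃ y ∈ F0 m t, ((up t m : (End K V)ˣ) : End K V) y = N t 1 x := by
  obtain ⟨y, hy⟩ : ∃ y, ((up t m : (End K V)ˣ) : End K V) y = N t 1 x :=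
    ⟨_, apply_inv_apply _ _⟩
  have hfix : ∀ j, 2 ≤ j → j < m → (t j : End K V) y = y := by
    intro j h2 hj
    by_cases hjm : j + 2 ≤ m
    · refine sf_inj (up t m) ?_
      rw [sf_conj_t (h.up_conj hjm le_rfl), hy,
        sf_conj_N (h.commute (i := j + 1) (j := 1) (by omega) (by omega) (by omega)).eq,
        hx.1.1 (j + 1) (by omega) (by omega)]
    · obtain rfl : m = j + 1 := by omega
      refine sf_inj (up t (j + 1) * up t (j + 1)) ?_
      rw [sf_conj_t (h.up_sq hj), sf_mul_apply, hy, ← sf_N_zero,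
        sf_conj_N (h.up_conj (i := 1) (by omega) le_rfl), sf_up_apply (by omega) hx.1.1,
        h.sf_NN_t0 (by omega) hf, hx.2, smul_zero]
  have hy' : (t 0 : End K V) ((t 1 : End K V) y) = N t 1 x := by
    rw [← hy, sf_up_apply (by omega) hfix]
  refine ⟨y, ⟨⟨hfix, ?_⟩, ?_⟩, hy⟩
  · have hb : (t 1 * t 0) * t 1 = t 0 * (t 1 * t 0) := by
      have := h.braid 0 (by omega)
      rw [zero_add] at this
      rw [← this, mul_assoc]
    rw [← sf_N_zero, tau_apply, hy', ← sf_mul_apply, sf_conj_N hb, sf_mul_apply,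
      ← h.sf_NN_comm (by omega)]
    exact (h.F0_t0 hm hf x hx).2
  · have h1 := h.sf_NN_t0 (by omega) hf ((t 1 : End K V) y)
    rw [hy', N_apply 1 x, map_sub, map_sub, hx.2, sf_N_zero.2 (hx.1.1 2 le_rfl (by omega)),
      map_zero, sub_zero] at h1
    exact (smul_eq_zero.1 h1.symm).resolve_left (neg_ne_zero.2 hq)

theorem IsBraid.F0_c (h : IsBraid m t) (hm : 4 ≤ m) {q : K}
    (hf : ∀ a < m, ∀ b < m, Fa a b → ff t q a * N t b = 0) {x : V} (hx : x ∈ F0 m t) :
    N t 0 ((t 0 : End K V) ((t 1 : End K V) x)) ∈ F0 m t := by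
  have h0 := h.F0_t0 hm hf
  have h1 : tau t ∈ stabS (F0 m t) := fun x hx => h.F0_tau hm hx
  obtain ⟨z, hz, hzx⟩ : ∃ z ∈ F0 m t, ((t 0 * t 0 * tau t : (End K V)ˣ) : End K V) z = x :=
    ⟨_, inv_mem (mul_mem (mul_mem h0 h0) h1) x hx, apply_inv_apply _ _⟩
  have hw : ((tau t : (End K V)ˣ) : End K V) (N t 0 ((t 0 : End K V) ((t 0 : End K V)
      ((t 0 : End K V) ((t 1 : End K V) z))))) = N t 0 ((t 0 : End K V) ((t 1 : End K V) x)) := by
    rw [sf_conj_N (h.tau_commute_zero (by omega)).eq, sf_conj_t (h.tau_commute_zero (by omega)).eq,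
      ← hzx]
    simp only [sf_mul_apply, tau_apply]
  have hF : InF m t (N t 0 ((t 0 : End K V) ((t 0 : End K V)
      ((t 0 : End K V) ((t 1 : End K V) z))))) := by
    refine ⟨fun j h2 hj => ?_, ?_⟩
    · rcases h2.eq_or_lt with rfl | h3
      · rw [← sf_N_zero, ← h.sf_NN_comm (by omega), h.sf_NN_t0 (by omega) hf,
          h.sf_NN_t0 (by omega) hf, h.sf_NN_t0 (by omega) hf, hz.2, smul_zero, smul_zero,
          smul_zero]
      · have c0 := (h.commute (i := j) (j := 0) hj (by omega) (by omega)).eq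
        have c1 := (h.commute (i := j) (j := 1) hj (by omega) (by omega)).eq
        rw [sf_conj_N c0, sf_conj_t c0, sf_conj_t c0, sf_conj_t c0, sf_conj_t c1,
          hz.1.1 j h2 hj]
    · rw [hw, ← sf_N_zero, ← h.sf_NN_comm (by omega), h.sf_NN_t0 (by omega) hf, hx.2, smul_zero]
  refine ⟨hw ▸ hF.tau h (by omega), ?_⟩
  rw [N_apply 0 ((t 0 : End K V) _), map_sub, map_sub, map_sub, ← tau_apply,
    sf_N_zero.2 hx.1.2, h.sf_braid (by omega), h.sf_NN_t0 (by omega) hf, (h0 x hx).2, smul_zero,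
    map_zero, sub_zero]

theorem IsBraid.fix_lemma (h : IsBraid m t) (hm : 5 ≤ m) (hirr : Irr m t) {q : K} (hq : q ≠ 0)
    (hf : ∀ a < m, ∀ b < m, Fa a b → ff t q a * N t b = 0) (hNN : N t 0 * N t 2 ≠ 0) {x : V}
    (hx : InF m t x) (h0 : N t 0 (N t 2 ((t 1 : End K V) x)) = 0) : x = 0 := by
  let S : Submodule K V :=
    Submodule.span K {v | ∃ (j : ℕ) (y : V), y ∈ F0 m t ∧
      v = ((up t m ^ j : (End K V)ˣ) : End K V) y}
  have hS : ∀ (j : ℕ) (y : V), y ∈ F0 m t → ((up t m ^ j : (End K V)ˣ) : End K V) y ∈ S :=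
    fun j y hy => Submodule.subset_span ⟨j, y, hy, rfl⟩
  have hd : up t m ∈ stabS S := by
    intro v hv
    refine (Submodule.span_le.2 ?_ : S ≤ S.comap ((up t m : (End K V)ˣ) : End K V)) hv
    rintro _ ⟨j, y, hy, rfl⟩
    rw [SetLike.mem_coe, Submodule.mem_comap, ← sf_mul_apply, ← pow_succ']
    exact hS _ y hy
  have hsplit : ∀ (j : ℕ) (y : V), ((up t m ^ j : (End K V)ˣ) : End K V) y
      = (((up t m ^ (m + 1)) ^ (j / (m + 1)) : (End K V)ˣ) : End K V)
        (((up t m ^ (j % (m + 1)) : (End K V)ˣ) : End K V) y) := by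
    intro j y
    rw [← sf_mul_apply, ← pow_mul, ← pow_add, Nat.div_add_mod]
  have hcen : ∀ k i, i < m → (up t m ^ (m + 1)) ^ k * t i = t i * (up t m ^ (m + 1)) ^ k :=
    fun k i hi => ((h.up_central hi).pow_left k).eq
  have hmid : ∀ r, 2 ≤ r → r < m → ∀ y ∈ F0 m t,
      (t 0 : End K V) (((up t m ^ r : (End K V)ˣ) : End K V) y)
        = ((up t m ^ r : (End K V)ˣ) : End K V) y := by
    intro r h2 hr y hy
    rw [← sf_conj_t (h.up_wrap (by omega) h2 (by omega)).symm,
      hy.1.1 _ (by omega) (by omega)]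
  have ht0 : t 0 ∈ stabS S := by
    intro v hv
    refine (Submodule.span_le.2 ?_ : S ≤ S.comap (t 0 : End K V)) hv
    rintro _ ⟨j, y, hy, rfl⟩
    rw [SetLike.mem_coe, Submodule.mem_comap, hsplit, ← sf_conj_t (hcen _ 0 (by omega))]
    refine pow_mem (pow_mem hd _) _ _ ?_
    have hr : j % (m + 1) < m + 1 := Nat.mod_lt _ (by omega)
    generalize j % (m + 1) = r at hr
    by_cases r0 : r = 0
    · subst r0
      have := hS 0 _ (h.F0_t0 (by omega) hf y hy)
      simpa using this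
    by_cases r1 : r = 1
    · subst r1
      have e1 := hS 0 _ (h.F0_c (by omega) hf hy)
      have e2 := hS 1 _ hy
      rw [pow_zero, Units.val_one, Module.End.one_apply, N_apply] at e1
      rw [pow_one, sf_up_apply (by omega) hy.1.1] at e2 ⊢
      have := add_mem e1 e2
      rwa [sub_add_cancel] at this
    by_cases rm : r < m
    · rw [hmid r (by omega) rm y hy]
      exact hS _ _ hy
    · obtain rfl : r = m := by omega
      obtain ⟨z, hz, hzy⟩ := h.F0_b (by omega) hq hf hy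
      have e := h.up_wrap (j := r) (by omega) (by omega) (by omega)
      rw [show r + 1 - r = 1 by omega] at e
      have e1 := hS (r + 1) _ hz
      rw [pow_succ, sf_mul_apply, hzy, N_apply, map_sub] at e1
      have := add_mem e1 (hS r _ hy)
      rw [sub_add_cancel] at this
      rwa [← sf_conj_t e.symm]
  have hker : S ≤ LinearMap.ker (N t 0 * N t 2) := by
    refine Submodule.span_le.2 ?_
    rintro _ ⟨j, y, hy, rfl⟩
    rw [SetLike.mem_coe, LinearMap.mem_ker, Module.End.mul_apply, hsplit,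
      ← sf_conj_N (hcen _ 2 (by omega)), ← sf_conj_N (hcen _ 0 (by omega))]
    have hr : j % (m + 1) < m + 1 := Nat.mod_lt _ (by omega)
    generalize j % (m + 1) = r at hr
    suffices hs : N t 0 (N t 2 (((up t m ^ r : (End K V)ˣ) : End K V) y)) = 0 by
      rw [hs, map_zero]
    by_cases r0 : r = 0
    · subst r0
      rw [pow_zero, Units.val_one, Module.End.one_apply,
        sf_N_zero.2 (hy.1.1 2 le_rfl (by omega)), map_zero]
    by_cases r1 : r = 1
    · subst r1
      rw [pow_one, sf_up_apply (by omega) hy.1.1, h.sf_NN_t0 (by omega) hf, hy.2, smul_zero]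
    by_cases rm : r < m
    · rw [h.sf_NN_comm (by omega), sf_N_zero.2 (hmid r (by omega) rm y hy), map_zero]
    · obtain rfl : r = m := by omega
      have e : up t r ^ r * t 3 = t 2 * up t r ^ r := by
        refine mul_left_cancel (a := up t r) ?_
        rw [← mul_assoc, ← pow_succ', (h.up_central (by omega)).eq, ← mul_assoc,
          h.up_conj (i := 2) (by omega) le_rfl, pow_succ', mul_assoc]
      rw [← sf_conj_N e, sf_N_zero.2 (hy.1.1 3 (by omega) (by omega)), map_zero, map_zero]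
  rcases hirr S (fun i hi => h.mem_of_up ht0 hd hi) with hb | hb
  · have := hS 0 x ⟨hx, h0⟩
    rw [hb] at this
    simpa using this
  · rw [hb, top_le_iff, LinearMap.ker_eq_top] at hker
    exact absurd hker hNN

theorem IsBraid.ff_eq_zero (h : IsBraid m t) (hm : 5 ≤ m) (hirr : Irr m t) {q : K}
    (hq : q ≠ 0) (hf : ∀ a < m, ∀ b < m, Fa a b → ff t q a * N t b = 0)
    (hNN : N t 0 * N t 2 ≠ 0) (hz : N t 0 * N t 2 * ff t q 1 = 0) : ff t q 0 = 0 := by
  ext v
  refine h.fix_lemma hm hirr hq hf hNN (InF.ff h (by omega) hf v) ?_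
  have hb : (t 0 * t 1) * t 0 = t 1 * (t 0 * t 1) := by
    have := h.braid 0 (by omega)
    rw [zero_add] at this
    rw [this, mul_assoc]
  have h1 := h.sf_NN_t0 (by omega) hf ((t 1 : End K V) (ff t q 0 v))
  have h2 := LinearMap.congr_fun (conj_ff q hb) v
  have h3 := LinearMap.congr_fun hz (((t 0 * t 1 : (End K V)ˣ) : End K V) v)
  rw [Module.End.mul_apply, Module.End.mul_apply, sf_mul_apply] at h2
  rw [Module.End.mul_apply, Module.End.mul_apply, ← h2, h1, LinearMap.zero_apply] at h3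
  exact (smul_eq_zero.1 h3).resolve_left (neg_ne_zero.2 hq)

section Dual
omit [FiniteDimensional K V]

/-- The transpose of an endomorphism. -/
def trE (f : End K V) : End K (Module.Dual K V) := LinearMap.dualMap f

theorem trE_apply (f : End K V) (φ : Module.Dual K V) (x : V) : trE f φ x = φ (f x) := rfl

theorem trE_mul (f g : End K V) : trE (f * g) = trE g * trE f := rfl

theorem trE_one : trE (1 : End K V) = 1 := rfl

theorem trE_eq_zero {f : End K V} : trE f = 0 ↔ f = 0 := by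
  constructor
  · intro hf
    ext x
    refine (Module.forall_dual_apply_eq_zero_iff K (f x)).1 fun φ => ?_
    rw [← trE_apply, hf]
    rfl
  · rintro rfl
    ext φ x
    simp [trE_apply]

/-- The transpose of an automorphism. -/
def trU (g : (End K V)ˣ) : (End K (Module.Dual K V))ˣ where
  val := trE (g : End K V)
  inv := trE ((g⁻¹ : (End K V)ˣ) : End K V)
  val_inv := by rw [← trE_mul, Units.inv_mul, trE_one]
  inv_val := by rw [← trE_mul, Units.mul_inv, trE_one]

theorem trU_mul (g g' : (End K V)ˣ) : trU (g * g') = trU g' * trU g := Units.ext rfl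

theorem trU_N (a : ℕ) : N (fun i => trU (t i)) a = trE (N t a) := by
  ext φ x
  rw [trE_apply, N_apply, N_apply, map_sub]
  rfl

theorem trU_ff (q : K) (a : ℕ) : ff (fun i => trU (t i)) q a = trE (ff t q a) := by
  ext φ x
  rw [trE_apply, ff_apply, ff_apply, trU_N, map_add, map_smul,
    sf_conj_N (rfl : t a * t a = t a * t a)]
  rfl

theorem IsBraid.dual_braid (h : IsBraid m t) : IsBraid m (fun i => trU (t i)) where
  braid i hi := by
    rw [← trU_mul, ← trU_mul, ← trU_mul, ← trU_mul, ← mul_assoc, ← mul_assoc, h.braid i hi]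
  comm i j hij hj := by rw [← trU_mul, ← trU_mul, h.comm i j hij hj]

end Dual

theorem Irr.dual_irr (hirr : Irr m t) : Irr m (fun i => trU (t i)) := by
  intro W hW
  have h1 : ∀ i < m, t i ∈ stabS W.dualCoannihilator := by
    intro i hi x hx
    rw [Submodule.mem_dualCoannihilator] at hx ⊢
    intro φ hφ
    exact hx _ (hW i hi φ hφ)
  have h2 := Subspace.dualCoannihilator_dualAnnihilator_eq (W := W)
  rcases hirr _ h1 with hb | hb
  · right
    rw [← h2, hb, Submodule.dualAnnihilator_bot]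
  · left
    rw [← h2, hb, Submodule.dualAnnihilator_top]

theorem IsBraid.ff_NN_ne_zero (h : IsBraid m t) (hm : 5 ≤ m) (hirr : Irr m t) {q : K}
    (hq : q ≠ 0) (hf : ∀ a < m, ∀ b < m, Fa a b → ff t q a * N t b = 0)
    (hNN : N t 0 * N t 2 ≠ 0) (hf0 : ff t q 0 ≠ 0) : ff t q 1 * (N t 0 * N t 2) ≠ 0 := by
  intro hz
  have h' := h.dual_braid
  have hc : N t 2 * N t 0 = N t 0 * N t 2 :=
    (h.commute_NN (by omega) (by omega) (Or.inr le_rfl)).eq
  have hf' : ∀ a < m, ∀ b < m, Fa a b →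
      ff (fun i => trU (t i)) q a * N (fun i => trU (t i)) b = 0 := by
    intro a ha b hb hab
    have c : Commute (N t b) (ff t q a) :=
      (commute_ff q (h.commute hb ha hab.symm)).sub_left (Commute.one_left _)
    rw [trU_ff, trU_N, ← trE_mul, c.eq, hf a ha b hb hab, trE_eq_zero]
  have hNN' : N (fun i => trU (t i)) 0 * N (fun i => trU (t i)) 2 ≠
      (0 : End K (Module.Dual K V)) := by
    rw [trU_N, trU_N, ← trE_mul, hc, Ne, trE_eq_zero]
    exact hNN
  have hz' : N (fun i => trU (t i)) 0 * N (fun i => trU (t i)) 2 *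
      ff (fun i => trU (t i)) q 1 = (0 : End K (Module.Dual K V)) := by
    rw [trU_N, trU_N, trU_ff, ← trE_mul, ← trE_mul, hc, hz, trE_eq_zero]
  refine hf0 (trE_eq_zero.1 ?_)
  rw [← trU_ff]
  exact h'.ff_eq_zero hm hirr.dual_irr hq hf' hNN' hz'

end Pool.Agent.MP_b64966_al
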