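import Pool.Agent.MP_b64966_al.SFix

namespace Pool.Agent.MP_b64966_al

open Module

variable {K V : Type*} [Field K] [AddCommGroup V] [Module K V]
  {m : ℕ} {t : ℕ → (End K V)ˣ} {q T : K} {E : (End K V)ˣ} {xs : ℕ → V}

/-- The local relations of the chord vectors. -/
structure LK (m : ℕ) (t : ℕ → (End K V)ˣ) (q T : K) (E : (End K V)ˣ) (xs : ℕ → V) : Prop where
  br : IsBraid m t
  hm : 5 ≤ m
  up_eq : ((up t m : (End K V)ˣ) : End K V) = q ^ 2 • (E : End K V)
  q0 : q ≠ 0
  T0 : T ≠ 0
  ne : xs 0 ≠ 0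
  fix : ∀ j, 2 ≤ j → j < m → (t j : End K V) (xs 0) = xs 0
  step : ∀ d, (t (d + 1) : End K V) (xs (d + 1)) = xs d
  b0 : (t 0 : End K V) (xs 0) = (T * q ^ 2) • xs 0
  b4 : (t 1 : End K V) (xs 0)
    = (1 - q) • xs 0 + q • xs 1 + (q ^ 2 - q) • (E : End K V) (xs 0)
  b5 : (t 0 : End K V) ((E : End K V) (xs 0)) = xs 1
  b7 : (t 0 : End K V) (xs 1)
    = (1 - q) • xs 1 + q • (E : End K V) (xs 0) + ((q ^ 2 - q) * T) • xs 0
  om : N t 0 (N t 2 ((E : End K V) (xs 0))) ≠ 0

/-- The backward sequence of chord vectors at the first strand. -/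
def xseq (t : ℕ → (End K V)ˣ) (x : V) : ℕ → V
  | 0 => x
  | d + 1 => (((t (d + 1))⁻¹ : (End K V)ˣ) : End K V) (xseq t x d)

theorem units_conj_apply {g a b : (End K V)ˣ} (h : g * a = b * g) (x : V) :
    (g : End K V) ((a : End K V) x) = (b : End K V) ((g : End K V) x) := by
  rw [← Module.End.mul_apply, ← Units.val_mul, h, Units.val_mul, Module.End.mul_apply]

theorem IsBraid.exists_LK [FiniteDimensional K V] (h : IsBraid m t) (hm : 5 ≤ m) (hirr : Irr m t)
    (hq : q ≠ 0) (hf : ∀ a < m, ∀ b < m, Fa a b → ff t q a * N t b = 0)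
    (hNN : N t 0 * N t 2 ≠ 0) (hw : ∃ w : V, ∀ v, ∃ c : K, N t 0 (N t 2 v) = c • w)
    (hf0 : ff t q 0 ≠ 0) : ∃ (T : K) (E : (End K V)ˣ) (xs : ℕ → V), LK m t q T E xs := by
  obtain ⟨w, hw⟩ := hw
  obtain ⟨v0, hv0⟩ : ∃ v, ff t q 0 v ≠ 0 := by
    by_contra hne
    push Not at hne
    exact hf0 (LinearMap.ext hne)
  set x := ff t q 0 v0 with hxdef
  have hx : InF m t x := InF.ff h (by omega) hf v0
  have hψ : N t 0 (N t 2 ((t 1 : End K V) x)) ≠ 0 := fun h0 =>
    hv0 (h.fix_lemma hm hirr hq hf hNN hx h0)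
  have hF : ∀ y, InF m t y → ∃ c : K, y = c • x := by
    intro y hy
    obtain ⟨c0, hc0⟩ := hw ((t 1 : End K V) x)
    obtain ⟨c1, hc1⟩ := hw ((t 1 : End K V) y)
    have hc : c0 ≠ 0 := by
      rintro rfl
      exact hψ (by rw [hc0, zero_smul])
    refine ⟨c1 / c0, ?_⟩
    have := h.fix_lemma hm hirr hq hf hNN (hy.add (hx.smul (-(c1 / c0)))) (by
      rw [map_add, map_add, map_add, map_smul, map_smul, map_smul, hc0, hc1, smul_smul,
        neg_mul, div_mul_cancel₀ _ hc, neg_smul, add_neg_cancel])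
    rwa [neg_smul, add_neg_eq_zero] at this
  obtain ⟨a, ha⟩ := hF _ (hx.t_zero h (by omega))
  obtain ⟨b, hb⟩ := hF _ (hx.tau h (by omega))
  set p := (t 1 : End K V) x with hp
  set r := (t 0 : End K V) p with hr
  obtain ⟨e, he⟩ := hF _ (InF.ff h (by omega) hf p)
  have hg : t 0 * t 1 * t 0 = t 1 * (t 0 * t 1) := by rw [h.braid 0 (by omega), mul_assoc]
  obtain ⟨κ, hκ⟩ := hF _ (InF.ff h (by omega) hf
    ((((t 0 * t 1)⁻¹ : (End K V)ˣ) : End K V) x))
  have h1 : ff t q 1 x = κ • r := by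
    have := LinearMap.congr_fun (conj_ff q hg) ((((t 0 * t 1)⁻¹ : (End K V)ˣ) : End K V) x)
    rw [Module.End.mul_apply, Module.End.mul_apply, apply_inv_apply, hκ, map_smul] at this
    exact this.symm
  have ha0 : a ≠ 0 := by
    rintro rfl
    apply hv0
    rw [← inv_apply_apply (t 0) x, ha, zero_smul, map_zero]
  have t1p : (t 1 : End K V) p = (1 - q) • p + q • x + κ • r := by
    rw [← h1, ff_apply, N_apply, map_sub, ← hp]
    module
  have t1r : (t 1 : End K V) r = a • r := by
    have := h.braid_apply (i := 0) (by omega) x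
    rw [zero_add, ha, map_smul, map_smul] at this
    exact this.symm
  have t0r : (t 0 : End K V) r = (1 - q) • r + q • p + e • x := by
    rw [← he, ff_apply, N_apply, map_sub, ← hr]
    module
  have key : (b - q ^ 2) • x = ((1 - q) * a + q * κ) • r + (q * (1 - q) + e) • p := by
    rw [tau_apply, ← hp, ← hr, t0r, map_add, map_add, map_smul, map_smul, map_smul, t1r, t1p,
      ← hp] at hb
    linear_combination (norm := module) -hb
  have n2 : N t 2 x = 0 := by rw [N_apply, hx.1 2 le_rfl (by omega), sub_self]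
  have c02 : ∀ y, N t 0 (N t 2 ((t 0 : End K V) y)) = (-q) • N t 0 (N t 2 y) := by
    intro y
    have h2 := LinearMap.congr_fun (hf 0 (by omega) 2 (by omega) (Or.inl le_rfl)) y
    rw [Module.End.mul_apply, ff_apply, LinearMap.zero_apply, add_eq_zero_iff_eq_neg] at h2
    have h3 := LinearMap.congr_fun ((commute_tN_self (t := t) 0).mul_right
      (h.commute_tN (a := 0) (b := 2) (by omega) (by omega) (Or.inl le_rfl))).eq y
    simp only [Module.End.mul_apply] at h3
    rw [← h3, h2, neg_smul]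
  have k1 : (1 - q) * a + q * κ = 0 := by
    have u0 := conj_N (h.up_conj (i := 0) (j := 4) (by omega) (by omega))
    have u1 := units_conj_apply (h.up_conj (i := 1) (j := 4) (by omega) (by omega))
    have u2 := conj_N (h.up_conj (i := 2) (j := 4) (by omega) (by omega))
    have u3 : ((up t 4 : (End K V)ˣ) : End K V) x = r := by
      rw [up_apply_of_fix (i := 2) (by omega) fun c h1 h2 => hx.1 c h1 (by omega)]
      simp [up, hr, hp]
    have u4 : N t 1 (N t 3 ((t 2 : End K V) r)) ≠ 0 := by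
      intro h0
      apply hψ
      refine unit_inj (up t 4) ?_
      rw [map_zero, ← h0, ← u3, ← u1, ← Module.End.mul_apply (N t 3), ← u2,
        ← Module.End.mul_apply (N t 1), ← mul_assoc, ← u0]
      rfl
    have u5 : N t 1 (N t 3 ((t 2 : End K V) x)) = 0 := by
      rw [hx.1 2 le_rfl (by omega), N_apply 3, hx.1 3 (by omega) (by omega), sub_self, map_zero]
    have u6 : N t 1 (N t 3 ((t 2 : End K V) p)) = 0 := by
      have := h.braid_apply (i := 1) (by omega) x
      rw [← Module.End.mul_apply, (h.commute_NN (by omega) (by omega) (Or.inl le_rfl)).eq,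
        Module.End.mul_apply, N_apply 1, hp, this, hx.1 2 le_rfl (by omega), sub_self, map_zero]
    have := congrArg (fun y => N t 1 (N t 3 ((t 2 : End K V) y))) key
    simp only [map_add, map_smul, u5, u6, smul_zero, add_zero] at this
    exact (smul_eq_zero.1 this.symm).resolve_right u4
  have k2 : q * (1 - q) + e = 0 := by
    have := congrArg (fun y => N t 0 (N t 2 y)) key
    simp only [map_smul, n2, k1, zero_smul, smul_zero, zero_add, map_zero] at this
    exact (smul_eq_zero.1 this.symm).resolve_right hψ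
  have k3 : b = q ^ 2 := by
    rw [k1, k2, zero_smul, zero_smul, add_zero, smul_eq_zero, sub_eq_zero] at key
    exact key.resolve_right hv0
  have hq2 : q ^ 2 ≠ 0 := pow_ne_zero _ hq
  let E : (End K V)ˣ := (Units.mk0 (q ^ 2) hq2)⁻¹ • up t m
  have hE : (E : End K V) = (q ^ 2)⁻¹ • ((up t m : (End K V)ˣ) : End K V) := by
    simp [E, Units.smul_def]
  have hEx : (E : End K V) x = (q ^ 2)⁻¹ • r := by
    rw [hE, LinearMap.smul_apply,
      up_apply_of_fix (i := 2) (by omega) fun c h1 h2 => hx.1 c h1 h2]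
    simp [up, hr, hp]
  have x1 : (t 1 : End K V) (xseq t x 1) = x := apply_inv_apply _ _
  have hκ' : κ = a * (q - 1) * q⁻¹ := by
    field_simp
    linear_combination k1
  have he' : e = q * (q - 1) := by linear_combination k2
  have b5 : (t 0 : End K V) ((E : End K V) x) = xseq t x 1 := by
    refine unit_inj (t 1) ?_
    rw [x1, hEx, map_smul, map_smul, hr, hp, ← tau_apply, hb, k3, smul_smul, inv_mul_cancel₀ hq2,
      one_smul]
  refine ⟨a / q ^ 2, E, xseq t x, h, hm, ?_, hq, div_ne_zero ha0 hq2, hv0, hx.1,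
    fun d => apply_inv_apply _ _, ?_, ?_, b5, ?_, ?_⟩
  · rw [hE, smul_smul, mul_inv_cancel₀ hq2, one_smul]
  · rw [div_mul_cancel₀ _ hq2]
    exact ha
  · refine unit_inj (t 1) ?_
    change (t 1 : End K V) p = (t 1 : End K V) ((1 - q) • x + q • xseq t x 1
      + (q ^ 2 - q) • (E : End K V) x)
    rw [map_add, map_add, map_smul, map_smul, map_smul, x1, hEx, map_smul, t1r, t1p, ← hp, hκ',
      smul_smul, smul_smul]
    congr 2
    field_simp
  · change (t 0 : End K V) (xseq t x 1) = (1 - q) • xseq t x 1 + q • (E : End K V) x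
      + ((q ^ 2 - q) * (a / q ^ 2)) • x
    rw [← b5, hEx, map_smul, map_smul]
    conv_lhs => rw [t0r]
    rw [map_add, map_add, map_smul, map_smul, map_smul, ← hr, ha, he']
    have e1 : (q ^ 2 - q) * (a / q ^ 2) = (q ^ 2)⁻¹ * (q * (q - 1) * a) := by field_simp
    rw [e1]
    module
  · change N t 0 (N t 2 ((E : End K V) x)) ≠ 0
    rw [hEx, map_smul, map_smul, hr, c02, smul_smul]
    exact smul_ne_zero (mul_ne_zero (inv_ne_zero hq2) (neg_ne_zero.2 hq)) hψ

namespace LK

theorem up_pow (L : LK m t q T E xs) (j : ℕ) :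
    ((up t m ^ j : (End K V)ˣ) : End K V) = (q ^ 2) ^ j • ((E ^ j : (End K V)ˣ) : End K V) := by
  rw [Units.val_pow_eq_pow_val, Units.val_pow_eq_pow_val, L.up_eq, smul_pow]

theorem conj_of (L : LK m t q T E xs) {j : ℕ} {a b : (End K V)ˣ}
    (hab : up t m ^ j * a = b * up t m ^ j) : E ^ j * a = b * E ^ j := by
  have := congrArg Units.val hab
  rw [Units.val_mul, Units.val_mul, L.up_pow, smul_mul_assoc, mul_smul_comm] at this
  exact Units.ext (smul_right_injective _ (pow_ne_zero _ (pow_ne_zero _ L.q0)) this)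

theorem pow_conj (L : LK m t q T E xs) {i j : ℕ} (hij : i + j < m) :
    E ^ j * t i = t (i + j) * E ^ j := L.conj_of (L.br.up_pow_conj hij)

theorem conj (L : LK m t q T E xs) {i : ℕ} (hi : i + 1 < m) (y : V) :
    (E : End K V) ((t i : End K V) y) = (t (i + 1) : End K V) ((E : End K V) y) := by
  simpa using units_conj_apply (L.pow_conj hi) y

theorem wrapg (L : LK m t q T E xs) {j : ℕ} (h2 : 2 ≤ j) (hj : j ≤ m + 1) :
    E ^ j * t (m + 1 - j) = t 0 * E ^ j :=
  L.conj_of (L.br.up_wrap (by have := L.hm; omega) h2 hj).symm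

theorem f1 (L : LK m t q T E xs) {d j : ℕ} (hd : d + 2 ≤ j) (hj : j < m) :
    (t j : End K V) (xs d) = xs d := by
  induction d with
  | zero => exact L.fix j hd hj
  | succ d ih =>
    refine unit_inj (t (d + 1)) ?_
    rw [L.br.comm_apply (by omega) hj (by omega), L.step, ih (by omega)]

theorem f2 (L : LK m t q T E xs) {d j : ℕ} (h1 : 1 ≤ j) (hd : j + 1 ≤ d) (hj : d < m) :
    (t j : End K V) (xs d) = xs d := by
  induction d, hd using Nat.le_induction with
  | base =>
    obtain ⟨j, rfl⟩ : ∃ i, j = i + 1 := ⟨j - 1, by omega⟩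
    refine unit_inj (t (j + 1 + 1)) (unit_inj (t (j + 1)) ?_)
    rw [L.br.braid_apply hj, L.step, L.step, L.f1 le_rfl hj]
  | succ d hd ih =>
    refine unit_inj (t (d + 1)) ?_
    rw [L.br.comm_apply hj (by omega) (by omega), L.step, ih (by omega)]

theorem stepE (L : LK m t q T E xs) {d : ℕ} (hd : d + 2 < m) :
    (t (d + 2) : End K V) ((E : End K V) (xs (d + 1))) = (E : End K V) (xs d) := by
  rw [← L.conj hd, L.step]

theorem f5 (L : LK m t q T E xs) {d : ℕ} (hd : d + 1 < m) :
    (t 0 : End K V) ((E : End K V) (xs d)) = xs (d + 1) := by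
  induction d with
  | zero => exact L.b5
  | succ d ih =>
    refine unit_inj (t (d + 2)) ?_
    rw [L.br.comm_apply hd (by omega) (by omega), L.stepE hd, ih (by omega), L.step]

/-- The chord from `i` to `i + d + 1`. -/
def Y (E : (End K V)ˣ) (xs : ℕ → V) (i d : ℕ) : V := ((E ^ i : (End K V)ˣ) : End K V) (xs d)

theorem Y_zero (d : ℕ) : Y E xs 0 d = xs d := by simp [Y]

theorem Y_one (d : ℕ) : Y E xs 1 d = (E : End K V) (xs d) := by simp [Y]

theorem Y_add (k i d : ℕ) :
    ((E ^ k : (End K V)ˣ) : End K V) (Y E xs i d) = Y E xs (k + i) d := by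
  rw [Y, Y, pow_add, Units.val_mul, Module.End.mul_apply]

theorem Y_succ (i d : ℕ) : (E : End K V) (Y E xs i d) = Y E xs (i + 1) d := by
  rw [add_comm, ← Y_add, pow_one]

theorem f6 (L : LK m t q T E xs) {i d : ℕ} (hi : 2 ≤ i) (hd : i + d < m) :
    (t 0 : End K V) (Y E xs i d) = Y E xs i d := by
  rw [Y, ← units_conj_apply (L.wrapg hi (by omega)), L.f1 (by omega) (by omega)]

theorem f4 (L : LK m t q T E xs) {d : ℕ} (hd : d + 1 < m) : (t (d + 1) : End K V) (xs d)
    = (1 - q) • xs d + q • xs (d + 1) + (q ^ 2 - q) • Y E xs (d + 1) 0 := by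
  induction d with
  | zero => rw [Y_one]; exact L.b4
  | succ d ih =>
    conv_lhs => rw [← L.f5 (d := d) (by omega)]
    rw [L.br.comm_apply hd (by omega) (by omega), ← L.conj hd, ih (by omega)]
    simp only [map_add, map_smul]
    rw [L.f5 (by omega), L.f5 hd, Y_succ, L.f6 (i := d + 1 + 1) (d := 0) (by omega) hd]

theorem f7 (L : LK m t q T E xs) {d : ℕ} (hd : d + 1 < m) : (t 0 : End K V) (xs (d + 1))
    = (1 - q) • xs (d + 1) + q • (E : End K V) (xs d) + ((q ^ 2 - q) * T) • xs 0 := by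
  induction d with
  | zero => exact L.b7
  | succ d ih =>
    refine unit_inj (t (d + 2)) ?_
    rw [L.br.comm_apply hd (by omega) (by omega), L.step, ih (by omega)]
    simp only [map_add, map_smul]
    rw [L.step, L.stepE hd, L.fix _ (by omega) hd]

theorem f8 (L : LK m t q T E xs) {d : ℕ} (hd : d < m) :
    Y E xs (d + 1) (m - 1 - d) = T • xs d := by
  induction d with
  | zero =>
    have h1 : ∀ j, ((up t (j + 1) : (End K V)ˣ) : End K V) (xs j) = (t 0 : End K V) (xs 0) := by
      intro j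
      induction j with
      | zero => simp [up]
      | succ j ih => rw [up, Units.val_mul, Module.End.mul_apply, L.step, ih]
    have h2 := h1 (m - 1)
    rw [show m - 1 + 1 = m by omega, L.up_eq, L.b0, LinearMap.smul_apply, mul_comm,
      mul_smul] at h2
    rw [zero_add, Y_one]
    exact smul_right_injective _ (pow_ne_zero _ L.q0) h2
  | succ d ih =>
    have h1 := L.step (m - 1 - (d + 1))
    rw [show m - 1 - (d + 1) + 1 = m + 1 - (d + 2) by omega] at h1
    rw [Y, ← h1, units_conj_apply (L.wrapg (by omega) (by omega)),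
      show m + 1 - (d + 2) = m - 1 - d by omega, ← Y, ← Y_succ, ih (by omega), map_smul, map_smul,
      L.f5 hd]

theorem wrap (L : LK m t q T E xs) {i d : ℕ} (hd : d < m) (hi : m ≤ i + d) :
    Y E xs i d = T • Y E xs (i + d - m) (m - 1 - d) := by
  have h1 := L.f8 (d := m - 1 - d) (by omega)
  rw [show m - 1 - (m - 1 - d) = d by omega] at h1
  rw [Y.eq_1 E xs (i + d - m), ← map_smul, ← h1, Y_add]
  congr 1
  omega

/-- Differences of chords. -/
def u (E : (End K V)ˣ) (xs : ℕ → V) (l : ℕ) : V := xs (l + 1) - (E : End K V) (xs l)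

theorem n0_zero (L : LK m t q T E xs) : N t 0 (xs 0) = (T * q ^ 2 - 1) • xs 0 := by
  rw [N_apply, L.b0]
  module

theorem n0_succ (L : LK m t q T E xs) {d : ℕ} (hd : d + 1 < m) :
    N t 0 (xs (d + 1)) = (-q) • u E xs d + ((q ^ 2 - q) * T) • xs 0 := by
  rw [N_apply, L.f7 hd, u]
  module

theorem n0_one (L : LK m t q T E xs) {d : ℕ} (hd : d + 1 < m) :
    N t 0 ((E : End K V) (xs d)) = u E xs d := by
  rw [N_apply, L.f5 hd, u]

theorem n0_two (L : LK m t q T E xs) {i d : ℕ} (hi : 2 ≤ i) (hd : i + d < m) :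
    N t 0 (Y E xs i d) = 0 := by
  rw [N_apply, L.f6 hi hd, sub_self]

theorem eq_top [FiniteDimensional K V] (L : LK m t q T E xs) (hirr : Irr m t) {W : Submodule K V}
    (hW : ∀ i d, i + d < m → Y E xs i d ∈ W) : W = ⊤ := by
  let S : Submodule K V := Submodule.span K {y | ∃ i d, i + d < m ∧ y = Y E xs i d}
  have hS : ∀ i d, i + d < m → Y E xs i d ∈ S := fun i d h => Submodule.subset_span ⟨i, d, h, rfl⟩
  have hm := L.hm
  have hx : ∀ d < m, xs d ∈ S := fun d hd => by simpa [Y_zero] using hS 0 d (by omega)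
  have hx1 : ∀ d, d + 1 < m → (E : End K V) (xs d) ∈ S := fun d hd => by
    simpa [Y_one] using hS 1 d (by omega)
  have key : ∀ g : (End K V)ˣ, (∀ i d, i + d < m → (g : End K V) (Y E xs i d) ∈ S) →
      g ∈ stabS S := by
    intro g hg
    have : S ≤ S.comap (g : End K V) := by
      refine Submodule.span_le.2 ?_
      rintro _ ⟨i, d, h, rfl⟩
      exact hg i d h
    exact fun x hx => this hx
  have h0 : t 0 ∈ stabS S := by
    refine key _ fun i d h => ?_
    rcases i with _ | _ | i
    · rw [Y_zero]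
      rcases d with _ | d
      · rw [L.b0]
        exact S.smul_mem _ (hx 0 (by omega))
      · rw [L.f7 (by omega)]
        exact S.add_mem (S.add_mem (S.smul_mem _ (hx _ (by omega))) (S.smul_mem _ (hx1 _ (by omega))))
          (S.smul_mem _ (hx 0 (by omega)))
    · rw [zero_add, Y_one, L.f5 (by omega)]
      exact hx _ (by omega)
    · rw [L.f6 (by omega) h]
      exact hS _ _ h
  have h1 : up t m ∈ stabS S := by
    refine key _ fun i d h => ?_
    rw [L.up_eq, LinearMap.smul_apply, Y_succ]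
    refine S.smul_mem _ ?_
    by_cases h2 : i + 1 + d < m
    · exact hS _ _ h2
    · rw [L.wrap (by omega) (by omega)]
      exact S.smul_mem _ (hS _ _ (by omega))
  rcases hirr S fun i hi => L.br.mem_of_up h0 h1 hi with h2 | h2
  · exact absurd (h2 ▸ hx 0 (by omega) : xs 0 ∈ (⊥ : Submodule K V)) (by simpa using L.ne)
  · rw [eq_top_iff, ← h2]
    refine Submodule.span_le.2 ?_
    rintro _ ⟨i, d, h, rfl⟩
    exact hW i d h

end LK

end Pool.Agent.MP_b64966_al
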